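import Mathlib

/-!
MP_d81877_al, invariance part: the tuple model on an arbitrary set of sites `V`.
Words are tuples `S : Fin 4 → Finset ι`; `Dm V b` is the module of primitive functions of the
shape `(|V| - b, |V| - b - 1, b + 1, b)` supported on words inside `V`, `Rm V b` its radical.
-/

namespace MP_d81877_alI

open Finset Function

variable {ι K : Type*} [DecidableEq ι] [Field K]

/-- functions on tuples of sets of sites -/
abbrev WW (ι K : Type*) := (Fin 4 → Finset ι) → K

/-- killed by all raising operators -/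
def Prm (v : WW ι K) : Prop :=
  ∀ j j' : Fin 4, (j : ℕ) + 1 = j' → ∀ r : ℕ, 1 ≤ r → ∀ S : Fin 4 → Finset ι,
    ∑ Y ∈ (S j \ S j').powersetCard r,
      v (update (update S j (S j \ Y)) j' (S j' ∪ Y)) = 0

/-- the words of shape `(|V| - b, |V| - b - 1, b + 1, b)` inside `V` -/
def Shp (V : Finset ι) (b : ℕ) (S : Fin 4 → Finset ι) : Prop :=
  (∀ j, S j ⊆ V) ∧ (S 0).card + b = V.card ∧ (S 1).card + (b + 1) = V.card ∧
    (S 2).card = b + 1 ∧ (S 3).card = b

/-- primitive functions of the right shape -/
structure Dm (V : Finset ι) (b : ℕ) (v : WW ι K) : Prop where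
  shp : ∀ S, ¬ Shp V b S → v S = 0
  prm : Prm v

/-- the radical -/
structure Rm [Fintype ι] (V : Finset ι) (b : ℕ) (u : WW ι K) : Prop where
  dm : Dm V b u
  orth : ∀ v : WW ι K, Dm V b v → ∑ S, u S * v S = 0

/-- replace the site `a` by the site `b` in the columns of `T` -/
def mvs (a b : ι) (T : Finset (Fin 4)) (S : Fin 4 → Finset ι) : Fin 4 → Finset ι :=
  fun l => if l ∈ T then insert b ((S l).erase a) else S l

/-- the columns in which `a` can be replaced by `b` -/
def cols (a b : ι) (S : Fin 4 → Finset ι) : Finset (Fin 4) :=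
  univ.filter (fun l => a ∈ S l ∧ b ∉ S l)

/-- the `k`-th divided power of the root vector `E_{ab}` -/
def Eab (k : ℕ) (a b : ι) (u : WW ι K) : WW ι K :=
  fun S => ∑ T ∈ (cols a b S).powersetCard k, u (mvs a b T S)

/-- the root element `x_{ab}(t)` -/
def xab (t : K) (a b : ι) (u : WW ι K) : WW ι K :=
  fun S => ∑ T ∈ (cols a b S).powerset, t ^ T.card * u (mvs a b T S)

/-- restriction to the words with the site `i` empty and the site `k` full -/
def res (i k : ι) (u : WW ι K) : WW ι K :=
  fun S => if ∀ l, i ∉ S l ∧ k ∉ S l then u (fun l => insert k (S l)) else 0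

/-- the contraction of the sites `i` and `k` (two letters each) -/
def ctr (i k : ι) (u : WW ι K) : WW ι K :=
  fun S => if ∀ l, i ∉ S l ∧ k ∉ S l then
    ∑ A ∈ (univ : Finset (Fin 4)).powersetCard 2,
      u (fun l => if l ∈ A then insert i (S l) else insert k (S l)) else 0

/-- the contraction of the site `i` (one letter) and the site `k` (three letters) -/
def ctr1 (i k : ι) (u : WW ι K) : WW ι K :=
  fun S => if ∀ l, i ∉ S l ∧ k ∉ S l then
    ∑ A ∈ (univ : Finset (Fin 4)).powersetCard 1,
      u (fun l => if l ∈ A then insert i (S l) else insert k (S l)) else 0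

end MP_d81877_alI
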