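import Mathlib
import Pool.Agent.Lib.MP_d81877_alI.Defs

/-!
MP_d81877_al, invariance: first order raising operators for arbitrary pairs of columns.
-/

namespace MP_d81877_alI

open Finset Function

variable {ι K : Type*} [DecidableEq ι] [Fintype ι] [Field K]

/-- first order raising operator between the columns `l` and `m` -/
def rai (l m : Fin 4) (u : WW ι K) : WW ι K :=
  fun S => ∑ x : ι, if x ∈ S l ∧ x ∉ S m then
    u (update (update S l ((S l).erase x)) m (insert x (S m))) else 0

theorem rai_adj {u : WW ι K} (hu : Prm u) (l m : Fin 4) (h : (l : ℕ) + 1 = m) :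
    rai l m u = 0 := by
  funext S
  have h1 := hu l m h 1 le_rfl S
  rw [Finset.powersetCard_one, Finset.sum_map] at h1
  have h2 : rai l m u S = ∑ x ∈ S l \ S m,
      u (update (update S l (S l \ {x})) m (S m ∪ {x})) := by
    unfold rai
    rw [← Finset.sum_filter]
    apply Finset.sum_congr
    · ext x
      simp
    · intro x _
      rw [Finset.sdiff_singleton_eq_erase, Finset.union_comm]
      rfl
  rw [h2]
  exact h1

theorem rai_comp [CharP K 2] {u : WW ι K} {l m n : Fin 4} (hlm : l ≠ m) (hmn : m ≠ n)
    (hln : l ≠ n) (h1 : rai l m u = 0) (h2 : rai m n u = 0) : rai l n u = 0 := by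
  funext S
  have e1 : rai l m (rai m n u) S = 0 := by
    rw [h2]
    unfold rai
    simp
  have e2 : rai m n (rai l m u) S = 0 := by
    rw [h1]
    unfold rai
    simp
  have e3 : rai l m (rai m n u) S + rai m n (rai l m u) S = rai l n u S := by
    have f1 : rai l m (rai m n u) S = ∑ x : ι, ∑ y : ι,
        if (x ∈ S l ∧ x ∉ S m) ∧ (y ∈ insert x (S m) ∧ y ∉ S n) then
          u (update (update (update S l ((S l).erase x)) m ((insert x (S m)).erase y)) n
            (insert y (S n))) else 0 := by
      unfold rai
      apply Finset.sum_congr rfl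
      intro x _
      by_cases hx : x ∈ S l ∧ x ∉ S m
      · rw [if_pos hx]
        apply Finset.sum_congr rfl
        intro y _
        simp only [hx, update_self, update_of_ne hmn, update_of_ne hmn.symm, update_of_ne hln,
          update_of_ne hln.symm, update_of_ne hlm, update_of_ne hlm.symm, true_and, not_false_eq_true,
          and_self, update_idem]
      · rw [if_neg hx]
        symm
        apply Finset.sum_eq_zero
        intro y _
        rw [if_neg]
        tauto
    have f2 : rai m n (rai l m u) S = ∑ x : ι, ∑ y : ι,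
        if (y ∈ S m ∧ y ∉ S n) ∧ (x ∈ S l ∧ x ∉ (S m).erase y) then
          u (update (update (update S l ((S l).erase x)) m (insert x ((S m).erase y))) n
            (insert y (S n))) else 0 := by
      rw [Finset.sum_comm]
      unfold rai
      apply Finset.sum_congr rfl
      intro y _
      by_cases hy : y ∈ S m ∧ y ∉ S n
      · rw [if_pos hy]
        apply Finset.sum_congr rfl
        intro x _
        have g1 : ∀ T : Fin 4 → Finset ι, ∀ A B C : Finset ι,
            update (update (update (update T m A) n B) l C) m
              = fun D => update (update (update T l C) m D) n B := by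
          intro T A B C
          funext D
          rw [update_comm (Ne.symm hln), update_comm (Ne.symm hlm), update_comm hmn.symm,
            update_idem]
        simp only [hy, update_self, update_of_ne hmn, update_of_ne hmn.symm, update_of_ne hln,
          update_of_ne hln.symm, update_of_ne hlm, update_of_ne hlm.symm, true_and, not_false_eq_true,
          and_self, g1]
      · rw [if_neg hy]
        symm
        apply Finset.sum_eq_zero
        intro x _
        rw [if_neg]
        tauto
    rw [f1, f2, ← Finset.sum_add_distrib]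
    unfold rai
    apply Finset.sum_congr rfl
    intro x _
    rw [← Finset.sum_add_distrib]
    rw [Finset.sum_eq_single x]
    · -- y = x
      by_cases hxl : x ∈ S l
      · by_cases hxm : x ∈ S m
        · by_cases hxn : x ∈ S n
          · simp [hxl, hxm, hxn]
          · have : insert x ((S m).erase x) = S m := Finset.insert_erase hxm
            rw [if_neg (by tauto), if_pos (by simp [hxl, hxm, hxn]), if_pos ⟨hxl, hxn⟩, this,
              zero_add]
            congr 2
            rw [update_comm hlm, update_eq_self]
        · by_cases hxn : x ∈ S n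
          · simp [hxl, hxm, hxn]
          · have : (insert x (S m)).erase x = S m := Finset.erase_insert hxm
            rw [if_pos (by simp [hxl, hxm, hxn]), if_neg (by tauto), if_pos ⟨hxl, hxn⟩, this,
              add_zero]
            congr 2
            rw [update_comm hlm, update_eq_self]
      · simp [hxl]
    · intro y _ hyx
      have g2 : (insert x (S m)).erase y = insert x ((S m).erase y) :=
        Finset.erase_insert_of_ne (Ne.symm hyx)
      have g3 : ((x ∈ S l ∧ x ∉ S m) ∧ (y ∈ insert x (S m) ∧ y ∉ S n)) ↔
          ((y ∈ S m ∧ y ∉ S n) ∧ (x ∈ S l ∧ x ∉ (S m).erase y)) := by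
        simp only [Finset.mem_insert, Finset.mem_erase]
        constructor
        · rintro ⟨⟨h1, h2⟩, h3 | h3, h4⟩
          · exact absurd h3 hyx
          · exact ⟨⟨h3, h4⟩, h1, fun h => h2 h.2⟩
        · rintro ⟨⟨h1, h2⟩, h3, h4⟩
          exact ⟨⟨h3, fun h => h4 ⟨Ne.symm hyx, h⟩⟩, Or.inr h1, h2⟩
      rw [g2]
      by_cases h : (x ∈ S l ∧ x ∉ S m) ∧ (y ∈ insert x (S m) ∧ y ∉ S n)
      · rw [if_pos h, if_pos (g3.1 h), CharTwo.add_self_eq_zero]
      · rw [if_neg h, if_neg (fun h' => h (g3.2 h')), add_zero]
    · intro h
      exact absurd (Finset.mem_univ _) h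
  rw [e1, e2, add_zero] at e3
  rw [← e3, Pi.zero_apply]

/-- all first order raising operators kill a primitive function -/
theorem rai_zero [CharP K 2] {u : WW ι K} (hu : Prm u) (l m : Fin 4) (h : l < m) :
    rai l m u = 0 := by
  have h01 : rai 0 1 u = 0 := rai_adj hu 0 1 rfl
  have h12 : rai 1 2 u = 0 := rai_adj hu 1 2 rfl
  have h23 : rai 2 3 u = 0 := rai_adj hu 2 3 rfl
  have h02 : rai 0 2 u = 0 := rai_comp (by decide) (by decide) (by decide) h01 h12
  have h13 : rai 1 3 u = 0 := rai_comp (by decide) (by decide) (by decide) h12 h23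
  have h03 : rai 0 3 u = 0 := rai_comp (by decide) (by decide) (by decide) h02 h23
  have key : ∀ l m : Fin 4, l < m → (l = 0 ∧ m = 1) ∨ (l = 1 ∧ m = 2) ∨ (l = 2 ∧ m = 3) ∨
      (l = 0 ∧ m = 2) ∨ (l = 1 ∧ m = 3) ∨ (l = 0 ∧ m = 3) := by decide
  rcases key l m h with ⟨rfl, rfl⟩ | ⟨rfl, rfl⟩ | ⟨rfl, rfl⟩ | ⟨rfl, rfl⟩ | ⟨rfl, rfl⟩ | ⟨rfl, rfl⟩
  · exact h01
  · exact h12
  · exact h23
  · exact h02
  · exact h13
  · exact h03

end MP_d81877_alI
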