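import Mathlib
import Pool.Agent.Lib.MP_d81877_alI.Rai

/-!
MP_d81877_al, invariance: the multilinear functional `Phi` (coefficient of the product of the
`B_{c_i r_i}`), its invariance under permutations of the positions, the contraction identity
and the rule for `E_{ab}`.
-/

namespace MP_d81877_alI

open Finset Function

variable {ι K α : Type*} [DecidableEq ι] [Fintype ι] [Field K] [Fintype α] [DecidableEq α]

/-- the word of the sequences `c`, `r` and the set of positions `A` -/
def wrd (V : Finset ι) (c r : α → ι) (A : Finset α) : Fin 4 → Finset ι :=
  ![V \ A.image c, V \ Aᶜ.image c, Aᶜ.image r, A.image r]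

/-- the coefficient of `∏ B_{c_i r_i}` -/
def Phi (V : Finset ι) (b : ℕ) (u : WW ι K) (c r : α → ι) : K :=
  ∑ A ∈ (univ : Finset (Finset α)).filter (fun A => A.card = b), u (wrd V c r A)

omit [Fintype ι] in
theorem Phi_perm (V : Finset ι) (b : ℕ) (u : WW ι K) (c r : α → ι) (π : Equiv.Perm α) :
    Phi V b u (c ∘ π) (r ∘ π) = Phi V b u c r := by
  unfold Phi
  have himg : ∀ (A : Finset α) (f : α → ι), A.image (f ∘ π) = (A.image π).image f := by
    intro A f
    rw [Finset.image_image]
  have hcompl : ∀ A : Finset α, (A.image π)ᶜ = Aᶜ.image π := by
    intro A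
    ext x
    simp only [Finset.mem_compl, Finset.mem_image]
    constructor
    · intro h
      refine ⟨π.symm x, fun h' => h ⟨π.symm x, h', by simp⟩, by simp⟩
    · rintro ⟨y, hy, rfl⟩ ⟨z, hz, hzy⟩
      rw [π.injective hzy] at hz
      exact hy hz
  apply Finset.sum_bij (fun A _ => A.image π)
  · intro A hA
    simp only [Finset.mem_filter, Finset.mem_univ, true_and] at hA ⊢
    rw [Finset.card_image_of_injective _ π.injective, hA]
  · intro A _ B _ h
    exact Finset.image_injective π.injective h
  · intro B hB
    refine ⟨B.image π.symm, ?_, ?_⟩
    · simp only [Finset.mem_filter, Finset.mem_univ, true_and] at hB ⊢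
      rw [Finset.card_image_of_injective _ π.symm.injective, hB]
    · rw [Finset.image_image]
      simp
  · intro A _
    unfold wrd
    rw [himg, himg, himg, himg, hcompl]

omit [Fintype ι] in
/-- permuting only the positions of both sequences, with an explicit transposition -/
theorem Phi_swap (V : Finset ι) (b : ℕ) (u : WW ι K) (c r c' r' : α → ι) (p q : α)
    (hc : ∀ i, i ≠ p → i ≠ q → c' i = c i) (hr : ∀ i, i ≠ p → i ≠ q → r' i = r i)
    (hcp : c' p = c q) (hcq : c' q = c p) (hrp : r' p = r q) (hrq : r' q = r p) :
    Phi V b u c' r' = Phi V b u c r := by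
  rw [← Phi_perm V b u c r (Equiv.swap p q)]
  have h : ∀ f f' : α → ι, (∀ i, i ≠ p → i ≠ q → f' i = f i) → f' p = f q → f' q = f p →
      f' = f ∘ (Equiv.swap p q) := by
    intro f f' h1 h2 h3
    funext i
    rw [Function.comp_apply]
    by_cases hip : i = p
    · rw [hip, Equiv.swap_apply_left, h2]
    · by_cases hiq : i = q
      · rw [hiq, Equiv.swap_apply_right, h3]
      · rw [Equiv.swap_apply_of_ne_of_ne hip hiq, h1 i hip hiq]
  rw [h c c' hc hcp hcq, h r r' hr hrp hrq]

omit [Fintype ι] [Fintype α] in
theorem image_update_of_notMem (c : α → ι) (p : α) (x : ι) (A : Finset α) (hp : p ∉ A) :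
    A.image (update c p x) = A.image c := by
  apply Finset.image_congr
  intro i hi
  have : i ≠ p := fun h => hp (h ▸ hi)
  exact update_of_ne this _ _

omit [Fintype ι] [Fintype α] in
theorem image_update_of_mem (c : α → ι) (p : α) (x : ι) (A : Finset α) (hp : p ∈ A) :
    A.image (update c p x) = insert x ((A.erase p).image c) := by
  conv_lhs => rw [← Finset.insert_erase hp]
  rw [Finset.image_insert, update_self,
    image_update_of_notMem c p x _ (Finset.notMem_erase p A)]

omit [Fintype ι] in
theorem wrd_eq_zero {V : Finset ι} {b : ℕ} {u : WW ι K} (hu : Dm V b u) (c r : α → ι)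
    (A : Finset α) (h : ¬ Shp V b (wrd V c r A)) : u (wrd V c r A) = 0 :=
  hu.shp _ h

/-- **the contraction identity** -/
theorem Phi_contract [CharP K 2] {V : Finset ι} {b : ℕ} {u : WW ι K} (hu : Dm V b u)
    (hα : Fintype.card α = 2 * b + 1)
    (c r : α → ι) (p o : α) :
    ∑ x ∈ V, Phi V b u (update c p x) (update r o x) = 0 := by
  unfold Phi
  rw [Finset.sum_comm]
  apply Finset.sum_eq_zero
  intro A hA
  simp only [Finset.mem_filter, Finset.mem_univ, true_and] at hA
  have hAc : Aᶜ.card = b + 1 := by
    rw [Finset.card_compl, hα, hA]
    omega
  -- the general principle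
  have key : ∀ (l m : Fin 4) (hlm : l < m) (S : Fin 4 → Finset ι) (P : Finset ι)
      (hS : S l = V \ P)
      (hl : ∀ x ∈ V, x ∈ P → u (update (update S l (V \ insert x P)) m (insert x (S m))) = 0)
      (hm : ∀ x ∈ V, x ∈ S m →
        u (update (update S l (V \ insert x P)) m (insert x (S m))) = 0),
      ∑ x ∈ V, u (update (update S l (V \ insert x P)) m (insert x (S m))) = 0 := by
    intro l m hlm S P hS hl hm
    have h1 := congrFun (rai_zero hu.prm l m hlm) S
    unfold rai at h1
    rw [Pi.zero_apply] at h1
    rw [← h1, ← Finset.sum_filter]
    symm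
    rw [← Finset.sum_filter_add_sum_filter_not V (fun x => x ∈ S l ∧ x ∉ S m)]
    rw [Finset.sum_eq_zero (s := V.filter (fun x => ¬ (x ∈ S l ∧ x ∉ S m))), add_zero]
    · apply Finset.sum_congr
      · ext x
        simp only [Finset.mem_filter, Finset.mem_univ, true_and]
        constructor
        · rintro ⟨h2, h3⟩
          refine ⟨?_, h2, h3⟩
          rw [hS] at h2
          exact (Finset.mem_sdiff.1 h2).1
        · rintro ⟨_, h⟩
          exact h
      · intro x hx
        congr 3
        rw [hS]
        ext y
        simp only [Finset.mem_sdiff, Finset.mem_insert, Finset.mem_erase]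
        tauto
    · intro x hx
      rw [Finset.mem_filter] at hx
      by_cases h2 : x ∈ S l
      · have h3 : x ∈ S m := by
          by_contra h3
          exact hx.2 ⟨h2, h3⟩
        exact hm x hx.1 h3
      · apply hl x hx.1
        by_contra h3
        apply h2
        rw [hS, Finset.mem_sdiff]
        exact ⟨hx.1, h3⟩
  have cardle : ∀ (s : Finset α) (f : α → ι), (s.image f).card ≤ s.card := fun s f =>
    Finset.card_image_le
  have sdcard : ∀ (P : Finset ι), V.card ≤ (V \ P).card + P.card := by
    intro P
    have := Finset.le_card_sdiff P V
    omega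
  by_cases hp : p ∈ A
  · have e0 : ∀ x, A.image (update c p x) = insert x ((A.erase p).image c) := fun x =>
      image_update_of_mem c p x A hp
    have e1 : ∀ x, Aᶜ.image (update c p x) = Aᶜ.image c := fun x =>
      image_update_of_notMem c p x _ (by simp [hp])
    have hcA : ((A.erase p).image c).card + 1 ≤ b := by
      have := cardle (A.erase p) c
      rw [Finset.card_erase_of_mem hp, hA] at this
      have : 0 < A.card := Finset.card_pos.2 ⟨p, hp⟩
      omega
    by_cases ho : o ∈ A
    · have e2 : ∀ x, Aᶜ.image (update r o x) = Aᶜ.image r := fun x =>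
        image_update_of_notMem r o x _ (by simp [ho])
      have e3 : ∀ x, A.image (update r o x) = insert x ((A.erase o).image r) := fun x =>
        image_update_of_mem r o x A ho
      have hrA : ((A.erase o).image r).card + 1 ≤ b := by
        have := cardle (A.erase o) r
        rw [Finset.card_erase_of_mem ho, hA] at this
        have : 0 < A.card := Finset.card_pos.2 ⟨p, hp⟩
        omega
      have := key 0 3 (by decide)
        ![V \ ((A.erase p).image c), V \ Aᶜ.image c, Aᶜ.image r, (A.erase o).image r]
        ((A.erase p).image c) rfl ?_ ?_
      · rw [← this]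
        apply Finset.sum_congr rfl
        intro x _
        congr 1
        unfold wrd
        rw [e0, e1, e2, e3]
        funext l
        fin_cases l <;> rfl
      · intro x _ hx
        apply hu.shp
        rintro ⟨-, h, -⟩
        change (V \ insert x ((A.erase p).image c)).card + b = V.card at h
        rw [Finset.insert_eq_of_mem hx] at h
        have := sdcard ((A.erase p).image c)
        omega
      · intro x _ hx
        apply hu.shp
        rintro ⟨-, -, -, -, h⟩
        change (insert x ((A.erase o).image r)).card = b at h
        change x ∈ (A.erase o).image r at hx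
        rw [Finset.insert_eq_of_mem hx] at h
        omega
    · have e2 : ∀ x, Aᶜ.image (update r o x) = insert x ((Aᶜ.erase o).image r) := fun x =>
        image_update_of_mem r o x _ (by simp [ho])
      have e3 : ∀ x, A.image (update r o x) = A.image r := fun x =>
        image_update_of_notMem r o x A ho
      have hrA : ((Aᶜ.erase o).image r).card + 1 ≤ b + 1 := by
        have := cardle (Aᶜ.erase o) r
        rw [Finset.card_erase_of_mem (by simp [ho]), hAc] at this
        omega
      have := key 0 2 (by decide)
        ![V \ ((A.erase p).image c), V \ Aᶜ.image c, (Aᶜ.erase o).image r, A.image r]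
        ((A.erase p).image c) rfl ?_ ?_
      · rw [← this]
        apply Finset.sum_congr rfl
        intro x _
        congr 1
        unfold wrd
        rw [e0, e1, e2, e3]
        funext l
        fin_cases l <;> rfl
      · intro x _ hx
        apply hu.shp
        rintro ⟨-, h, -⟩
        change (V \ insert x ((A.erase p).image c)).card + b = V.card at h
        rw [Finset.insert_eq_of_mem hx] at h
        have := sdcard ((A.erase p).image c)
        omega
      · intro x _ hx
        apply hu.shp
        rintro ⟨-, -, -, h, -⟩
        change (insert x ((Aᶜ.erase o).image r)).card = b + 1 at h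
        change x ∈ (Aᶜ.erase o).image r at hx
        rw [Finset.insert_eq_of_mem hx] at h
        omega
  · have e0 : ∀ x, A.image (update c p x) = A.image c := fun x =>
      image_update_of_notMem c p x _ hp
    have e1 : ∀ x, Aᶜ.image (update c p x) = insert x ((Aᶜ.erase p).image c) := fun x =>
      image_update_of_mem c p x _ (by simp [hp])
    have hcA : ((Aᶜ.erase p).image c).card + 1 ≤ b + 1 := by
      have := cardle (Aᶜ.erase p) c
      rw [Finset.card_erase_of_mem (by simp [hp]), hAc] at this
      omega
    by_cases ho : o ∈ A
    · have e2 : ∀ x, Aᶜ.image (update r o x) = Aᶜ.image r := fun x =>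
        image_update_of_notMem r o x _ (by simp [ho])
      have e3 : ∀ x, A.image (update r o x) = insert x ((A.erase o).image r) := fun x =>
        image_update_of_mem r o x A ho
      have hrA : ((A.erase o).image r).card + 1 ≤ b := by
        have := cardle (A.erase o) r
        rw [Finset.card_erase_of_mem ho, hA] at this
        have : 0 < A.card := Finset.card_pos.2 ⟨o, ho⟩
        omega
      have := key 1 3 (by decide)
        ![V \ A.image c, V \ ((Aᶜ.erase p).image c), Aᶜ.image r, (A.erase o).image r]
        ((Aᶜ.erase p).image c) rfl ?_ ?_
      · rw [← this]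
        apply Finset.sum_congr rfl
        intro x _
        congr 1
        unfold wrd
        rw [e0, e1, e2, e3]
        funext l
        fin_cases l <;> rfl
      · intro x _ hx
        apply hu.shp
        rintro ⟨-, -, h, -⟩
        change (V \ insert x ((Aᶜ.erase p).image c)).card + (b + 1) = V.card at h
        rw [Finset.insert_eq_of_mem hx] at h
        have := sdcard ((Aᶜ.erase p).image c)
        omega
      · intro x _ hx
        apply hu.shp
        rintro ⟨-, -, -, -, h⟩
        change (insert x ((A.erase o).image r)).card = b at h
        change x ∈ (A.erase o).image r at hx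
        rw [Finset.insert_eq_of_mem hx] at h
        omega
    · have e2 : ∀ x, Aᶜ.image (update r o x) = insert x ((Aᶜ.erase o).image r) := fun x =>
        image_update_of_mem r o x _ (by simp [ho])
      have e3 : ∀ x, A.image (update r o x) = A.image r := fun x =>
        image_update_of_notMem r o x A ho
      have hrA : ((Aᶜ.erase o).image r).card + 1 ≤ b + 1 := by
        have := cardle (Aᶜ.erase o) r
        rw [Finset.card_erase_of_mem (by simp [ho]), hAc] at this
        omega
      have := key 1 2 (by decide)
        ![V \ A.image c, V \ ((Aᶜ.erase p).image c), (Aᶜ.erase o).image r, A.image r]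
        ((Aᶜ.erase p).image c) rfl ?_ ?_
      · rw [← this]
        apply Finset.sum_congr rfl
        intro x _
        congr 1
        unfold wrd
        rw [e0, e1, e2, e3]
        funext l
        fin_cases l <;> rfl
      · intro x _ hx
        apply hu.shp
        rintro ⟨-, -, h, -⟩
        change (V \ insert x ((Aᶜ.erase p).image c)).card + (b + 1) = V.card at h
        rw [Finset.insert_eq_of_mem hx] at h
        have := sdcard ((Aᶜ.erase p).image c)
        omega
      · intro x _ hx
        apply hu.shp
        rintro ⟨-, -, -, h, -⟩
        change (insert x ((Aᶜ.erase o).image r)).card = b + 1 at h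
        change x ∈ (Aᶜ.erase o).image r at hx
        rw [Finset.insert_eq_of_mem hx] at h
        omega

end MP_d81877_alI
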