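import Mathlib
import Pool.Agent.Lib.MP_d81877_alI.Phi

/-!
MP_d81877_al, invariance: the rule for `E_{ab}` acting on `Phi`.
-/

namespace MP_d81877_alI

open Finset Function

variable {ι K α : Type*} [DecidableEq ι] [Fintype ι] [Field K] [Fintype α] [DecidableEq α]

omit [Fintype ι] in
theorem Eab_one (a z : ι) (u : WW ι K) (S : Fin 4 → Finset ι) :
    Eab 1 a z u S = ∑ l : Fin 4, if a ∈ S l ∧ z ∉ S l then u (mvs a z {l} S) else 0 := by
  unfold Eab cols
  rw [Finset.powersetCard_one, Finset.sum_map, ← Finset.sum_filter]
  rfl

omit [Fintype ι] in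
/-- rows: the two first columns -/
theorem row_rule {V : Finset ι} {b : ℕ} {u : WW ι K} (hu : Dm V b u)
    (hα : Fintype.card α = 2 * b + 1) {c r : α → ι} (hc : Injective c)
    {a z : ι} (haz : a ≠ z) (ha : a ∈ V) (hz : z ∈ V) (A : Finset α) (hA : A.card = b) :
    (if a ∈ wrd V c r A 0 ∧ z ∉ wrd V c r A 0 then u (mvs a z {0} (wrd V c r A)) else 0) +
    (if a ∈ wrd V c r A 1 ∧ z ∉ wrd V c r A 1 then u (mvs a z {1} (wrd V c r A)) else 0)
      = ∑ i : α, if c i = z then u (wrd V (update c i a) r A) else 0 := by
  have hAc : Aᶜ.card = b + 1 := by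
    rw [Finset.card_compl, hα, hA]
    omega
  have w0 : wrd V c r A 0 = V \ A.image c := rfl
  have w1 : wrd V c r A 1 = V \ Aᶜ.image c := rfl
  rw [w0, w1]
  have sdcard : ∀ (P : Finset ι), V.card ≤ (V \ P).card + P.card := by
    intro P
    have := Finset.le_card_sdiff P V
    omega
  by_cases h : ∃ i, c i = z
  · obtain ⟨i, hi⟩ := h
    have huniq : ∀ j, c j = z → j = i := fun j hj => hc (hj.trans hi.symm)
    rw [Finset.sum_eq_single i (fun j _ hj => if_neg (fun h => hj (huniq j h)))
      (fun h => absurd (Finset.mem_univ _) h), if_pos hi]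
    by_cases hiA : i ∈ A
    · have hz0 : z ∈ A.image c := Finset.mem_image.2 ⟨i, hiA, hi⟩
      have hz1 : z ∉ Aᶜ.image c := by
        intro h
        obtain ⟨j, hj, hj2⟩ := Finset.mem_image.1 h
        rw [huniq j hj2] at hj
        exact (Finset.mem_compl.1 hj) hiA
      rw [if_neg (c := a ∈ V \ Aᶜ.image c ∧ z ∉ V \ Aᶜ.image c), add_zero]
      · have him : A.image (update c i a) = insert a ((A.image c).erase z) := by
          rw [image_update_of_mem c i a A hiA, Finset.image_erase hc, hi]
        have him2 : Aᶜ.image (update c i a) = Aᶜ.image c :=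
          image_update_of_notMem c i a _ (by simpa using hiA)
        by_cases haA : a ∈ A.image c
        · rw [if_neg (by
            rintro ⟨h1, _⟩
            exact (Finset.mem_sdiff.1 h1).2 haA)]
          symm
          apply hu.shp
          rintro ⟨-, h, -⟩
          change (V \ A.image (update c i a)).card + b = V.card at h
          rw [him, Finset.insert_eq_of_mem (Finset.mem_erase.2 ⟨haz, haA⟩)] at h
          have h2 := sdcard ((A.image c).erase z)
          rw [Finset.card_erase_of_mem hz0] at h2
          have h3 := Finset.card_image_le (s := A) (f := c)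
          have h4 : 0 < A.card := Finset.card_pos.2 ⟨i, hiA⟩
          omega
        · rw [if_pos ⟨Finset.mem_sdiff.2 ⟨ha, haA⟩, fun h => (Finset.mem_sdiff.1 h).2 hz0⟩]
          congr 1
          funext l
          fin_cases l
          · change insert z ((V \ A.image c).erase a) = V \ A.image (update c i a)
            rw [him]
            ext y
            simp only [Finset.mem_insert, Finset.mem_erase, Finset.mem_sdiff]
            constructor
            · rintro (rfl | ⟨h1, h2, h3⟩)
              · exact ⟨hz, fun h => h.elim (fun h => haz h.symm) (fun h => h.1 rfl)⟩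
              · exact ⟨h2, fun h => h.elim h1 (fun h => h3 h.2)⟩
            · rintro ⟨h1, h2⟩
              by_cases hyz : y = z
              · exact Or.inl hyz
              · right
                exact ⟨fun h => h2 (Or.inl h), h1, fun h => h2 (Or.inr ⟨hyz, h⟩)⟩
          · change V \ Aᶜ.image c = V \ Aᶜ.image (update c i a)
            rw [him2]
          · rfl
          · rfl
      · rintro ⟨_, h2⟩
        exact h2 (Finset.mem_sdiff.2 ⟨hz, hz1⟩)
    · have hz0 : z ∈ Aᶜ.image c := Finset.mem_image.2 ⟨i, Finset.mem_compl.2 hiA, hi⟩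
      have hz1 : z ∉ A.image c := by
        intro h
        obtain ⟨j, hj, hj2⟩ := Finset.mem_image.1 h
        rw [huniq j hj2] at hj
        exact hiA hj
      rw [if_neg (c := a ∈ V \ A.image c ∧ z ∉ V \ A.image c), zero_add]
      · have him : Aᶜ.image (update c i a) = insert a ((Aᶜ.image c).erase z) := by
          rw [image_update_of_mem c i a _ (Finset.mem_compl.2 hiA), Finset.image_erase hc, hi]
        have him2 : A.image (update c i a) = A.image c :=
          image_update_of_notMem c i a _ hiA
        by_cases haA : a ∈ Aᶜ.image c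
        · rw [if_neg (by
            rintro ⟨h1, _⟩
            exact (Finset.mem_sdiff.1 h1).2 haA)]
          symm
          apply hu.shp
          rintro ⟨-, -, h, -⟩
          change (V \ Aᶜ.image (update c i a)).card + (b + 1) = V.card at h
          rw [him, Finset.insert_eq_of_mem (Finset.mem_erase.2 ⟨haz, haA⟩)] at h
          have h2 := sdcard ((Aᶜ.image c).erase z)
          rw [Finset.card_erase_of_mem hz0] at h2
          have h3 := Finset.card_image_le (s := Aᶜ) (f := c)
          omega
        · rw [if_pos ⟨Finset.mem_sdiff.2 ⟨ha, haA⟩, fun h => (Finset.mem_sdiff.1 h).2 hz0⟩]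
          congr 1
          funext l
          fin_cases l
          · change V \ A.image c = V \ A.image (update c i a)
            rw [him2]
          · change insert z ((V \ Aᶜ.image c).erase a) = V \ Aᶜ.image (update c i a)
            rw [him]
            ext y
            simp only [Finset.mem_insert, Finset.mem_erase, Finset.mem_sdiff]
            constructor
            · rintro (rfl | ⟨h1, h2, h3⟩)
              · exact ⟨hz, fun h => h.elim (fun h => haz h.symm) (fun h => h.1 rfl)⟩
              · exact ⟨h2, fun h => h.elim h1 (fun h => h3 h.2)⟩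
            · rintro ⟨h1, h2⟩
              by_cases hyz : y = z
              · exact Or.inl hyz
              · right
                exact ⟨fun h => h2 (Or.inl h), h1, fun h => h2 (Or.inr ⟨hyz, h⟩)⟩
          · rfl
          · rfl
      · rintro ⟨_, h2⟩
        exact h2 (Finset.mem_sdiff.2 ⟨hz, hz1⟩)
  · have h' : ∀ i, c i ≠ z := fun i hi => h ⟨i, hi⟩
    have hz0 : ∀ B : Finset α, z ∈ V \ B.image c := by
      intro B
      refine Finset.mem_sdiff.2 ⟨hz, fun h1 => ?_⟩
      obtain ⟨j, _, hj⟩ := Finset.mem_image.1 h1
      exact h' j hj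
    rw [if_neg (fun h => h.2 (hz0 A)), if_neg (fun h => h.2 (hz0 Aᶜ)), add_zero]
    symm
    exact Finset.sum_eq_zero (fun i _ => if_neg (h' i))

omit [Fintype ι] in
/-- columns: the two last columns -/
theorem col_rule {V : Finset ι} {b : ℕ} {u : WW ι K} (hu : Dm V b u)
    (hα : Fintype.card α = 2 * b + 1) {c r : α → ι} (hr : Injective r)
    {a z : ι} (haz : a ≠ z) (A : Finset α) (hA : A.card = b) :
    (if a ∈ wrd V c r A 2 ∧ z ∉ wrd V c r A 2 then u (mvs a z {2} (wrd V c r A)) else 0) +
    (if a ∈ wrd V c r A 3 ∧ z ∉ wrd V c r A 3 then u (mvs a z {3} (wrd V c r A)) else 0)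
      = ∑ i : α, if r i = a then u (wrd V c (update r i z) A) else 0 := by
  have hAc : Aᶜ.card = b + 1 := by
    rw [Finset.card_compl, hα, hA]
    omega
  have w0 : wrd V c r A 2 = Aᶜ.image r := rfl
  have w1 : wrd V c r A 3 = A.image r := rfl
  rw [w0, w1]
  by_cases h : ∃ i, r i = a
  · obtain ⟨i, hi⟩ := h
    have huniq : ∀ j, r j = a → j = i := fun j hj => hr (hj.trans hi.symm)
    rw [Finset.sum_eq_single i (fun j _ hj => if_neg (fun h => hj (huniq j h)))
      (fun h => absurd (Finset.mem_univ _) h), if_pos hi]
    by_cases hiA : i ∈ A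
    · have ha0 : a ∈ A.image r := Finset.mem_image.2 ⟨i, hiA, hi⟩
      have ha1 : a ∉ Aᶜ.image r := by
        intro h
        obtain ⟨j, hj, hj2⟩ := Finset.mem_image.1 h
        rw [huniq j hj2] at hj
        exact (Finset.mem_compl.1 hj) hiA
      rw [if_neg (fun h => ha1 h.1), zero_add]
      have him : A.image (update r i z) = insert z ((A.image r).erase a) := by
        rw [image_update_of_mem r i z A hiA, Finset.image_erase hr, hi]
      have him2 : Aᶜ.image (update r i z) = Aᶜ.image r :=
        image_update_of_notMem r i z _ (by simpa using hiA)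
      by_cases hzA : z ∈ A.image r
      · rw [if_neg (fun h => h.2 hzA)]
        symm
        apply hu.shp
        rintro ⟨-, -, -, -, h⟩
        change (A.image (update r i z)).card = b at h
        rw [him, Finset.insert_eq_of_mem (Finset.mem_erase.2 ⟨haz.symm, hzA⟩),
          Finset.card_erase_of_mem ha0] at h
        have h3 := Finset.card_image_le (s := A) (f := r)
        have h4 : 0 < A.card := Finset.card_pos.2 ⟨i, hiA⟩
        omega
      · rw [if_pos ⟨ha0, hzA⟩]
        congr 1
        funext l
        fin_cases l
        · rfl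
        · rfl
        · change Aᶜ.image r = Aᶜ.image (update r i z)
          rw [him2]
        · change insert z ((A.image r).erase a) = A.image (update r i z)
          rw [him]
    · have ha0 : a ∈ Aᶜ.image r := Finset.mem_image.2 ⟨i, Finset.mem_compl.2 hiA, hi⟩
      have ha1 : a ∉ A.image r := by
        intro h
        obtain ⟨j, hj, hj2⟩ := Finset.mem_image.1 h
        rw [huniq j hj2] at hj
        exact hiA hj
      rw [if_neg (c := a ∈ A.image r ∧ z ∉ A.image r) (fun h => ha1 h.1), add_zero]
      have him : Aᶜ.image (update r i z) = insert z ((Aᶜ.image r).erase a) := by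
        rw [image_update_of_mem r i z _ (Finset.mem_compl.2 hiA), Finset.image_erase hr, hi]
      have him2 : A.image (update r i z) = A.image r :=
        image_update_of_notMem r i z _ hiA
      by_cases hzA : z ∈ Aᶜ.image r
      · rw [if_neg (fun h => h.2 hzA)]
        symm
        apply hu.shp
        rintro ⟨-, -, -, h, -⟩
        change (Aᶜ.image (update r i z)).card = b + 1 at h
        rw [him, Finset.insert_eq_of_mem (Finset.mem_erase.2 ⟨haz.symm, hzA⟩),
          Finset.card_erase_of_mem ha0] at h
        have h3 := Finset.card_image_le (s := Aᶜ) (f := r)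
        omega
      · rw [if_pos ⟨ha0, hzA⟩]
        congr 1
        funext l
        fin_cases l
        · rfl
        · rfl
        · change insert z ((Aᶜ.image r).erase a) = Aᶜ.image (update r i z)
          rw [him]
        · change A.image r = A.image (update r i z)
          rw [him2]
  · have h' : ∀ i, r i ≠ a := fun i hi => h ⟨i, hi⟩
    have ha0 : ∀ B : Finset α, a ∉ B.image r := by
      intro B h1
      obtain ⟨j, _, hj⟩ := Finset.mem_image.1 h1
      exact h' j hj
    rw [if_neg (fun h => ha0 _ h.1), if_neg (fun h => ha0 _ h.1), add_zero]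
    symm
    exact Finset.sum_eq_zero (fun i _ => if_neg (h' i))

omit [Fintype ι] in
/-- **the rule for `E_{az}`** -/
theorem Phi_E {V : Finset ι} {b : ℕ} {u : WW ι K} (hu : Dm V b u)
    (hα : Fintype.card α = 2 * b + 1) {c r : α → ι} (hc : Injective c) (hr : Injective r)
    {a z : ι} (haz : a ≠ z) (ha : a ∈ V) (hz : z ∈ V) :
    Phi V b (Eab 1 a z u) c r = (∑ i : α, if c i = z then Phi V b u (update c i a) r else 0)
      + ∑ i : α, if r i = a then Phi V b u c (update r i z) else 0 := by
  have h1 : ∀ A ∈ (univ : Finset (Finset α)).filter (fun A => A.card = b),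
      Eab 1 a z u (wrd V c r A)
        = (∑ i : α, if c i = z then u (wrd V (update c i a) r A) else 0)
          + ∑ i : α, if r i = a then u (wrd V c (update r i z) A) else 0 := by
    intro A hA
    simp only [Finset.mem_filter, Finset.mem_univ, true_and] at hA
    rw [Eab_one, Fin.sum_univ_four, ← row_rule hu hα hc haz ha hz A hA,
      ← col_rule hu hα hr haz A hA]
    ring
  unfold Phi
  rw [Finset.sum_congr rfl h1, Finset.sum_add_distrib]
  congr 1
  · rw [Finset.sum_comm]
    apply Finset.sum_congr rfl
    intro i _
    split_ifs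
    · rfl
    · simp
  · rw [Finset.sum_comm]
    apply Finset.sum_congr rfl
    intro i _
    split_ifs
    · rfl
    · simp

omit [Fintype ι] in
/-- both `z` among the rows and `a` among the columns -/
theorem Phi_E_both {V : Finset ι} {b : ℕ} {u : WW ι K} (hu : Dm V b u)
    (hα : Fintype.card α = 2 * b + 1) {c r : α → ι} (hc : Injective c) (hr : Injective r)
    {a z : ι} (haz : a ≠ z) (ha : a ∈ V) (hz : z ∈ V) (p o : α) (hp : c p = z) (ho : r o = a) :
    Phi V b (Eab 1 a z u) c r = Phi V b u (update c p a) r + Phi V b u c (update r o z) := by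
  rw [Phi_E hu hα hc hr haz ha hz]
  congr 1
  · rw [Finset.sum_eq_single p (fun j _ hj => if_neg (fun h => hj (hc (h.trans hp.symm))))
      (fun h => absurd (Finset.mem_univ _) h), if_pos hp]
  · rw [Finset.sum_eq_single o (fun j _ hj => if_neg (fun h => hj (hr (h.trans ho.symm))))
      (fun h => absurd (Finset.mem_univ _) h), if_pos ho]

omit [Fintype ι] in
/-- `z` among the rows, `a` not among the columns -/
theorem Phi_E_row {V : Finset ι} {b : ℕ} {u : WW ι K} (hu : Dm V b u)
    (hα : Fintype.card α = 2 * b + 1) {c r : α → ι} (hc : Injective c) (hr : Injective r)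
    {a z : ι} (haz : a ≠ z) (ha : a ∈ V) (hz : z ∈ V) (p : α) (hp : c p = z)
    (hna : ∀ i, r i ≠ a) :
    Phi V b (Eab 1 a z u) c r = Phi V b u (update c p a) r := by
  rw [Phi_E hu hα hc hr haz ha hz]
  rw [Finset.sum_eq_single p (fun j _ hj => if_neg (fun h => hj (hc (h.trans hp.symm))))
      (fun h => absurd (Finset.mem_univ _) h), if_pos hp,
    Finset.sum_eq_zero (fun i _ => if_neg (hna i)), add_zero]

omit [Fintype ι] in
/-- `a` among the columns, `z` not among the rows -/
theorem Phi_E_col {V : Finset ι} {b : ℕ} {u : WW ι K} (hu : Dm V b u)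
    (hα : Fintype.card α = 2 * b + 1) {c r : α → ι} (hc : Injective c) (hr : Injective r)
    {a z : ι} (haz : a ≠ z) (ha : a ∈ V) (hz : z ∈ V) (o : α) (ho : r o = a)
    (hnz : ∀ i, c i ≠ z) :
    Phi V b (Eab 1 a z u) c r = Phi V b u c (update r o z) := by
  rw [Phi_E hu hα hc hr haz ha hz]
  have h1 : (∑ i : α, if c i = z then Phi V b u (update c i a) r else 0) = 0 :=
    Finset.sum_eq_zero (fun i _ => if_neg (hnz i))
  rw [h1, zero_add, Finset.sum_eq_single o (fun j _ hj => if_neg (fun h => hj (hr (h.trans ho.symm))))
      (fun h => absurd (Finset.mem_univ _) h), if_pos ho]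

end MP_d81877_alI
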