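import Mathlib

/-!
MP_d81877_al, invariance: the spin relation for primitive functions on `b`-subsets of a set
with `2 b + 1` elements (characteristic two).
-/

namespace MP_d81877_alI

open Finset

variable {α K : Type*} [Fintype α] [DecidableEq α] [CommRing K] [CharP K 2]

/-- primitive functions on the `b`-subsets -/
def Prim (b : ℕ) (w : Finset α → K) : Prop :=
  ∀ J : Finset α, J.card < b →
    ∑ I ∈ (univ : Finset (Finset α)).filter (fun I => I.card = b ∧ J ⊆ I), w I = 0

/-- sum over the `b`-subsets of `Q` containing `A` -/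
def up (b : ℕ) (Q : Finset α) (w : Finset α → K) (A : Finset α) : K :=
  ∑ I ∈ (univ : Finset (Finset α)).filter (fun I => I.card = b ∧ I ⊆ Q ∧ A ⊆ I), w I

omit [Fintype α] in
theorem sum_powerset_one (A : Finset α) :
    ∑ _B ∈ A.powerset, (1 : K) = if A = ∅ then 1 else 0 := by
  rw [Finset.sum_const, Finset.card_powerset, nsmul_eq_mul, mul_one]
  split_ifs with h
  · subst h; simp
  · rw [Nat.cast_pow, Nat.cast_ofNat, CharTwo.two_eq_zero, zero_pow]
    intro h'
    exact h (Finset.card_eq_zero.1 h')

/-- inclusion-exclusion for primitive functions -/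
theorem up_eq {b : ℕ} {w : Finset α → K} (hw : Prim b w) (O A : Finset α) (hA : Disjoint A O) :
    up b (univ \ O) w A
      = ∑ B ∈ O.powerset.filter (fun B => A.card + B.card = b), w (A ∪ B) := by
  have h1 : up b (univ \ O) w A
      = ∑ I ∈ (univ : Finset (Finset α)).filter (fun I => I.card = b ∧ A ⊆ I),
          ∑ B ∈ (O ∩ I).powerset, w I := by
    unfold up
    have h2 : ∀ I ∈ (univ : Finset (Finset α)).filter (fun I => I.card = b ∧ A ⊆ I),
        ∑ B ∈ (O ∩ I).powerset, w I = if O ∩ I = ∅ then w I else 0 := by
      intro I _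
      have := sum_powerset_one (K := K) (O ∩ I)
      rw [← one_mul (w I), ← Finset.sum_mul, this]
      split_ifs <;> simp
    rw [Finset.sum_congr rfl h2, ← Finset.sum_filter, Finset.filter_filter]
    apply Finset.sum_congr _ (fun _ _ => rfl)
    ext I
    simp only [Finset.mem_filter, Finset.mem_univ, true_and]
    constructor
    · rintro ⟨h3, h4, h5⟩
      refine ⟨⟨h3, h5⟩, ?_⟩
      rw [← Finset.disjoint_iff_inter_eq_empty]
      exact (Finset.disjoint_sdiff).mono_right h4
    · rintro ⟨⟨h3, h5⟩, h4⟩
      refine ⟨h3, ?_, h5⟩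
      intro x hx
      rw [Finset.mem_sdiff]
      refine ⟨Finset.mem_univ _, fun hxO => ?_⟩
      have : x ∈ O ∩ I := Finset.mem_inter.2 ⟨hxO, hx⟩
      rw [h4] at this
      simp at this
  rw [h1]
  rw [Finset.sum_comm' (t' := O.powerset)
    (s' := fun B => (univ : Finset (Finset α)).filter (fun I => I.card = b ∧ A ∪ B ⊆ I))]
  · rw [Finset.sum_filter]
    apply Finset.sum_congr rfl
    intro B hB
    have hBO : B ⊆ O := Finset.mem_powerset.1 hB
    have hcard : (A ∪ B).card = A.card + B.card :=
      Finset.card_union_of_disjoint (hA.mono_right hBO)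
    split_ifs with h
    · have : (univ : Finset (Finset α)).filter (fun I => I.card = b ∧ A ∪ B ⊆ I) = {A ∪ B} := by
        ext I
        simp only [Finset.mem_filter, Finset.mem_univ, true_and, Finset.mem_singleton]
        constructor
        · rintro ⟨h3, h4⟩
          exact (Finset.eq_of_subset_of_card_le h4 (by omega)).symm
        · rintro rfl
          exact ⟨by omega, Finset.Subset.refl _⟩
      rw [this, Finset.sum_singleton]
    · rcases lt_or_gt_of_ne h with h | h
      · exact hw _ (by omega)
      · rw [Finset.sum_eq_zero]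
        intro I hI
        simp only [Finset.mem_filter, Finset.mem_univ, true_and] at hI
        exact absurd (Finset.card_le_card hI.2) (by omega)
  · intro I B
    simp only [Finset.mem_filter, Finset.mem_univ, true_and, Finset.mem_powerset,
      Finset.subset_inter_iff, Finset.union_subset_iff]
    tauto

/-- the pairing of the sums over supersets vanishes -/
theorem sum_up_mul_up {b : ℕ} (Q : Finset α) (hQ : Q.card < 2 * b) (w w' : Finset α → K) :
    ∑ A ∈ Q.powerset, up b Q w' A * up b Q w A = 0 := by
  unfold up
  simp only [Finset.sum_mul_sum]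
  have h1 : ∀ A ∈ Q.powerset,
      ∑ I ∈ (univ : Finset (Finset α)).filter (fun I => I.card = b ∧ I ⊆ Q ∧ A ⊆ I),
        ∑ I' ∈ (univ : Finset (Finset α)).filter (fun I => I.card = b ∧ I ⊆ Q ∧ A ⊆ I),
          w' I * w I'
      = ∑ p ∈ (univ : Finset (Finset α × Finset α)).filter
          (fun p => (p.1.card = b ∧ p.1 ⊆ Q) ∧ (p.2.card = b ∧ p.2 ⊆ Q) ∧ A ⊆ p.1 ∩ p.2),
          w' p.1 * w p.2 := by
    intro A _
    rw [← Finset.sum_product']
    apply Finset.sum_congr _ (fun _ _ => rfl)
    ext p
    simp only [Finset.mem_product, Finset.mem_filter, Finset.mem_univ, true_and,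
      Finset.subset_inter_iff]
    tauto
  rw [Finset.sum_congr rfl h1]
  rw [Finset.sum_comm' (t' := (univ : Finset (Finset α × Finset α)).filter
          (fun p => (p.1.card = b ∧ p.1 ⊆ Q) ∧ (p.2.card = b ∧ p.2 ⊆ Q)))
    (s' := fun p => (p.1 ∩ p.2).powerset)]
  · apply Finset.sum_eq_zero
    intro p hp
    simp only [Finset.mem_filter, Finset.mem_univ, true_and] at hp
    obtain ⟨⟨h1, h2⟩, h3, h4⟩ := hp
    have := sum_powerset_one (K := K) (p.1 ∩ p.2)
    rw [← one_mul (w' p.1 * w p.2), ← Finset.sum_mul, this, if_neg, zero_mul]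
    intro h5
    have h6 : Disjoint p.1 p.2 := Finset.disjoint_iff_inter_eq_empty.2 h5
    have h7 := Finset.card_union_of_disjoint h6
    have h8 := Finset.card_le_card (Finset.union_subset h2 h4)
    omega
  · intro A p
    simp only [Finset.mem_filter, Finset.mem_univ, true_and, Finset.mem_powerset]
    constructor
    · rintro ⟨h1, h2, h3, h4⟩
      exact ⟨h4, h2, h3⟩
    · rintro ⟨h1, h2, h3⟩
      exact ⟨h1.trans (Finset.inter_subset_left.trans h2.2), h2, h3, h1⟩

/-- rotation of the subsets of three points -/
theorem rot_sum {M : Type*} [CommRing M] [CharP M 2] (g : Finset (Fin 3) → M) (B : Finset (Fin 3)) :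
    g B + g (B.image (fun t => t + 1)) + g (B.image (fun t => t + 2))
      = ∑ B' ∈ (univ : Finset (Finset (Fin 3))).filter (fun B' => B'.card = B.card), g B' := by
  have h1 : ∀ B : Finset (Fin 3), (univ : Finset (Finset (Fin 3))).filter
      (fun B' => B'.card = B.card) = {B, B.image (fun t => t + 1), B.image (fun t => t + 2)} := by
    decide
  have h2 : ∀ B : Finset (Fin 3), (B.image (fun t => t + 1) = B ∧ B.image (fun t => t + 2) = B) ∨
      (B ∉ ({B.image (fun t => t + 1), B.image (fun t => t + 2)} : Finset (Finset (Fin 3))) ∧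
        B.image (fun t => t + 1) ∉ ({B.image (fun t => t + 2)} : Finset (Finset (Fin 3)))) := by
    decide
  rw [h1 B]
  rcases h2 B with ⟨h3, h4⟩ | ⟨h3, h4⟩
  · rw [h3, h4]
    simp only [Finset.mem_singleton, Finset.insert_eq_of_mem, Finset.sum_singleton]
    rw [CharTwo.add_self_eq_zero, zero_add]
  · rw [Finset.sum_insert h3, Finset.sum_insert h4, Finset.sum_singleton]
    ring

/-- the sum over the powers of a three cycle is the sum over supersets -/
theorem cyc_sum {b : ℕ} {w : Finset α → K} (hw : Prim b w) (φ : Fin 3 → α)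
    (hφ : Function.Injective φ) (c : Equiv.Perm α) (hc : ∀ t, c (φ t) = φ (t + 1))
    (hc' : ∀ x, x ∉ univ.image φ → c x = x) (I : Finset α) (hI : I.card = b) :
    w I + w (I.image c) + w (I.image (c * c))
      = up b (univ \ univ.image φ) w (I \ univ.image φ) := by
  set O : Finset α := univ.image φ with hO
  rw [up_eq hw O (I \ O) (Finset.sdiff_disjoint)]
  -- write `I` as a union
  set A := I \ O with hA
  obtain ⟨B, hB⟩ : ∃ B : Finset (Fin 3), I ∩ O = B.image φ := by
    refine ⟨univ.filter (fun t => φ t ∈ I), ?_⟩
    ext x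
    simp only [Finset.mem_inter, hO, Finset.mem_image, Finset.mem_filter, Finset.mem_univ,
      true_and]
    constructor
    · rintro ⟨h1, t, rfl⟩
      exact ⟨t, h1, rfl⟩
    · rintro ⟨t, h1, rfl⟩
      exact ⟨h1, t, rfl⟩
  have hI2 : I = A ∪ B.image φ := by
    rw [← hB, hA, Finset.sdiff_union_inter]
  have hAim : ∀ d : Equiv.Perm α, (∀ x, x ∉ O → d x = x) → A.image d = A := by
    intro d hd
    have : ∀ x ∈ A, d x = x := fun x hx => hd x (Finset.mem_sdiff.1 hx).2
    calc A.image d = A.image id := Finset.image_congr (fun x hx => this x hx)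
      _ = A := Finset.image_id
  have h1 : I.image c = A ∪ (B.image (fun t => t + 1)).image φ := by
    rw [hI2, Finset.image_union, hAim c hc', Finset.image_image, Finset.image_image]
    congr 1
    apply Finset.image_congr
    intro t _
    exact hc t
  have h2 : I.image (c * c) = A ∪ (B.image (fun t => t + 2)).image φ := by
    rw [hI2, Finset.image_union, hAim (c * c), Finset.image_image, Finset.image_image]
    · congr 1
      apply Finset.image_congr
      intro t _
      show c (c (φ t)) = φ (t + 2)
      rw [hc, hc, add_assoc]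
      rfl
    · intro x hx
      rw [Equiv.Perm.mul_apply, hc' x hx, hc' x hx]
  have hcardA : A.card + B.card = b := by
    have : (A ∪ B.image φ).card = A.card + (B.image φ).card := by
      apply Finset.card_union_of_disjoint
      apply Finset.disjoint_of_subset_right _ (Finset.sdiff_disjoint)
      rw [hO]
      exact Finset.image_subset_image (Finset.subset_univ _)
    rw [Finset.card_image_of_injective _ hφ, ← hI2, hI] at this
    exact this.symm
  rw [h1, h2]
  conv_lhs => rw [hI2]
  have h3 := rot_sum (M := K) (fun B : Finset (Fin 3) => w (A ∪ B.image φ)) B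
  rw [h3]
  have hinj : Function.Injective (fun B : Finset (Fin 3) => B.image φ) :=
    Finset.image_injective hφ
  apply Finset.sum_bij (fun B' _ => B'.image φ)
  · intro B' hB'
    simp only [Finset.mem_filter, Finset.mem_univ, true_and] at hB'
    rw [Finset.mem_filter, Finset.mem_powerset]
    refine ⟨?_, ?_⟩
    · rw [hO]
      exact Finset.image_subset_image (Finset.subset_univ _)
    · rw [Finset.card_image_of_injective _ hφ]
      omega
  · intro B1 _ B2 _ h
    exact hinj h
  · intro B' hB'
    rw [Finset.mem_filter, Finset.mem_powerset] at hB'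
    refine ⟨univ.filter (fun t => φ t ∈ B'), ?_, ?_⟩
    · have h4 : (univ.filter (fun t => φ t ∈ B')).image φ = B' := by
        ext x
        simp only [Finset.mem_image, Finset.mem_filter, Finset.mem_univ, true_and]
        constructor
        · rintro ⟨t, h1, rfl⟩
          exact h1
        · intro hx
          have := hB'.1 hx
          rw [hO, Finset.mem_image] at this
          obtain ⟨t, _, rfl⟩ := this
          exact ⟨t, hx, rfl⟩
      simp only [Finset.mem_filter, Finset.mem_univ, true_and]
      have h5 := congrArg Finset.card h4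
      rw [Finset.card_image_of_injective _ hφ] at h5
      omega
    · ext x
      simp only [Finset.mem_image, Finset.mem_filter, Finset.mem_univ, true_and]
      constructor
      · rintro ⟨t, h1, rfl⟩
        exact h1
      · intro hx
        have := hB'.1 hx
        rw [hO, Finset.mem_image] at this
        obtain ⟨t, _, rfl⟩ := this
        exact ⟨t, hx, rfl⟩
  · intro B' _
    rfl

/-- **the spin relation**: primitive functions on the `b`-subsets of a set with `2 b + 1`
elements are orthogonal to the three term sums of primitive functions -/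
theorem spin {b : ℕ} (hα : Fintype.card α = 2 * b + 1) {w w' : Finset α → K} (hw : Prim b w)
    (hw' : Prim b w') (φ : Fin 3 → α)
    (hφ : Function.Injective φ) (c : Equiv.Perm α) (hc : ∀ t, c (φ t) = φ (t + 1))
    (hc' : ∀ x, x ∉ univ.image φ → c x = x) :
    ∑ I ∈ (univ : Finset (Finset α)).filter (fun I => I.card = b),
      w' I * (w I + w (I.image c) + w (I.image (c * c))) = 0 := by
  have h1 : ∀ I ∈ (univ : Finset (Finset α)).filter (fun I => I.card = b),
      w' I * (w I + w (I.image c) + w (I.image (c * c)))
        = w' I * up b (univ \ univ.image φ) w (I \ univ.image φ) := by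
    intro I hI
    rw [cyc_sum hw φ hφ c hc hc' I (by simpa using hI)]
  rw [Finset.sum_congr rfl h1]
  set O : Finset α := univ.image φ with hO
  have hOcard : O.card = 3 := by
    rw [hO, Finset.card_image_of_injective _ hφ, Finset.card_univ, Fintype.card_fin]
  have hQ : (univ \ O).card < 2 * b := by
    have h2 := Finset.card_sdiff_add_card_eq_card (Finset.subset_univ O)
    rw [Finset.card_univ, hα, hOcard] at h2
    omega
  rw [← sum_up_mul_up (univ \ O) hQ w w']
  have h3 : ∀ A ∈ (univ \ O).powerset, up b (univ \ O) w' A * up b (univ \ O) w A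
      = ∑ B ∈ O.powerset.filter (fun B => A.card + B.card = b),
          w' (A ∪ B) * up b (univ \ O) w A := by
    intro A hA
    rw [up_eq hw' O A, Finset.sum_mul]
    exact (Finset.sdiff_disjoint).mono_left (Finset.mem_powerset.1 hA)
  rw [Finset.sum_congr rfl h3, Finset.sum_sigma']
  symm
  apply Finset.sum_bij (fun p _ => p.1 ∪ p.2)
  · rintro ⟨A, B⟩ hp
    simp only [Finset.mem_sigma, Finset.mem_powerset, Finset.mem_filter] at hp
    simp only [Finset.mem_filter, Finset.mem_univ, true_and]
    rw [Finset.card_union_of_disjoint]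
    · exact hp.2.2
    · exact Finset.disjoint_of_subset_left hp.1
        (Finset.disjoint_of_subset_right hp.2.1 Finset.sdiff_disjoint)
  · rintro ⟨A, B⟩ hp ⟨A', B'⟩ hp' h
    simp only [Finset.mem_sigma, Finset.mem_powerset, Finset.mem_filter] at hp hp' h
    have e1 : ∀ A B : Finset α, A ⊆ univ \ O → B ⊆ O → (A ∪ B) \ O = A := by
      intro A B hA hB
      rw [Finset.union_sdiff_distrib, Finset.sdiff_eq_empty_iff_subset.2 hB, Finset.union_empty]
      apply Finset.sdiff_eq_self_of_disjoint
      exact Finset.disjoint_of_subset_left hA Finset.sdiff_disjoint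
    have e2 : ∀ A B : Finset α, A ⊆ univ \ O → B ⊆ O → (A ∪ B) ∩ O = B := by
      intro A B hA hB
      rw [Finset.union_inter_distrib_right, Finset.inter_eq_left.2 hB]
      rw [Finset.disjoint_iff_inter_eq_empty.1, Finset.empty_union]
      exact Finset.disjoint_of_subset_left hA Finset.sdiff_disjoint
    have f1 : A = A' := by rw [← e1 A B hp.1 hp.2.1, h, e1 A' B' hp'.1 hp'.2.1]
    have f2 : B = B' := by rw [← e2 A B hp.1 hp.2.1, h, e2 A' B' hp'.1 hp'.2.1]
    subst f1; subst f2; rfl
  · intro I hI
    simp only [Finset.mem_filter, Finset.mem_univ, true_and] at hI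
    refine ⟨⟨I \ O, I ∩ O⟩, ?_, ?_⟩
    · simp only [Finset.mem_sigma, Finset.mem_powerset, Finset.mem_filter]
      refine ⟨Finset.sdiff_subset_sdiff (Finset.subset_univ _) (Finset.Subset.refl _),
        Finset.inter_subset_right, ?_⟩
      rw [Finset.card_sdiff_add_card_inter, hI]
    · exact Finset.sdiff_union_inter I O
  · rintro ⟨A, B⟩ hp
    simp only [Finset.mem_sigma, Finset.mem_powerset, Finset.mem_filter] at hp
    simp only
    congr 2
    rw [Finset.union_sdiff_distrib, Finset.sdiff_eq_empty_iff_subset.2 hp.2.1,
      Finset.union_empty]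
    exact (Finset.sdiff_eq_self_of_disjoint
      (Finset.disjoint_of_subset_left hp.1 Finset.sdiff_disjoint)).symm

end MP_d81877_alI
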