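import Mathlib
import Pool.Agent.Lib.MP_d81877_alI.Spin

/-!
MP_d81877_al, invariance: trace arguments.  `U A B` is primitive in both variables; if it is
orthogonal to all products of primitive functions its trace vanishes, and the three term trace
vanishes always.
-/

namespace MP_d81877_alI

open Finset

variable {α K : Type*} [Fintype α] [DecidableEq α] [Field K] [CharP K 2]

omit [Fintype α] [CharP K 2] in
/-- a nilpotent matrix has trace zero -/
theorem trace_eq_zero_of_sq {β : Type*} [Fintype β] [DecidableEq β] (M : Matrix β β K) (k : ℕ)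
    (h : M ^ k = 0) : M.trace = 0 := by
  have h1 : IsNilpotent M := ⟨k, h⟩
  exact (Matrix.isNilpotent_trace_of_isNilpotent h1).eq_zero

omit [DecidableEq α] [CharP K 2] in
/-- the sum over all sets of size `b` as a sum over the subtype -/
theorem sum_sub (b : ℕ) (f : Finset α → K) :
    ∑ I ∈ (univ : Finset (Finset α)).filter (fun I => I.card = b), f I
      = ∑ I : {I : Finset α // I.card = b}, f I.1 := by
  rw [← Finset.sum_subtype_eq_sum_filter]
  apply Finset.sum_congr _ (fun _ _ => rfl)
  ext x
  simp

/-- **trace zero**: a function of two subsets, primitive in both variables and orthogonal to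
all products of primitive functions, has trace zero. -/
theorem trace_zero {b : ℕ} (U : Finset α → Finset α → K) (h1 : ∀ B, Prim b (fun A => U A B))
    (h2 : ∀ A, Prim b (fun B => U A B))
    (h3 : ∀ w w' : Finset α → K, Prim b w → Prim b w' →
      ∑ A ∈ (univ : Finset (Finset α)).filter (fun I => I.card = b),
        ∑ B ∈ (univ : Finset (Finset α)).filter (fun I => I.card = b), w A * U A B * w' B = 0) :
    ∑ A ∈ (univ : Finset (Finset α)).filter (fun I => I.card = b), U A A = 0 := by
  classical
  rw [sum_sub b (fun A => U A A)]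
  let M : Matrix {I : Finset α // I.card = b} {I : Finset α // I.card = b} K :=
    fun A B => U A.1 B.1
  have hM : M ^ 3 = 0 := by
    rw [pow_succ, pow_two]
    ext A B
    rw [Matrix.mul_apply, Matrix.zero_apply]
    have h4 := h3 (fun C => U A.1 C) (fun C => U C B.1) (h2 A.1) (h1 B.1)
    rw [sum_sub b] at h4
    rw [← h4]
    simp only [sum_sub b (fun B' => _)]
    rw [Finset.sum_comm]
    apply Finset.sum_congr rfl
    intro D _
    rw [Matrix.mul_apply, Finset.sum_mul]
  have := trace_eq_zero_of_sq M 3 hM
  rw [← this]
  rfl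

/-- **three term trace**: for a three cycle `c` the sum of `U A A + U A (c A) + U A (c c A)`
vanishes. -/
theorem trace_spin {b : ℕ} (hα : Fintype.card α = 2 * b + 1) (U : Finset α → Finset α → K)
    (h1 : ∀ B, Prim b (fun A => U A B)) (h2 : ∀ A, Prim b (fun B => U A B)) (φ : Fin 3 → α)
    (hφ : Function.Injective φ) (c : Equiv.Perm α) (hc : ∀ t, c (φ t) = φ (t + 1))
    (hc' : ∀ x, x ∉ univ.image φ → c x = x) :
    ∑ A ∈ (univ : Finset (Finset α)).filter (fun I => I.card = b),
      (U A A + U A (A.image c) + U A (A.image (c * c))) = 0 := by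
  classical
  rw [sum_sub b (fun A => U A A + U A (A.image c) + U A (A.image (c * c)))]
  have hcard : ∀ (d : Equiv.Perm α) (A : {I : Finset α // I.card = b}), (A.1.image d).card = b := by
    intro d A
    rw [Finset.card_image_of_injective _ d.injective, A.2]
  let M : Matrix {I : Finset α // I.card = b} {I : Finset α // I.card = b} K :=
    fun A B => U A.1 B.1
  let S : Matrix {I : Finset α // I.card = b} {I : Finset α // I.card = b} K :=
    fun C A => (if C = A then 1 else 0) + (if C = ⟨A.1.image c, hcard c A⟩ then 1 else 0)
      + (if C = ⟨A.1.image (c * c), hcard (c * c) A⟩ then 1 else 0)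
  have hMS : ∀ A B, (M * S) A B
      = U A.1 B.1 + U A.1 (B.1.image c) + U A.1 (B.1.image (c * c)) := by
    intro A B
    rw [Matrix.mul_apply]
    simp only [M, S, mul_add, mul_ite, mul_one, mul_zero, Finset.sum_add_distrib,
      Finset.sum_ite_eq', Finset.mem_univ, if_true]
  have hMSM : M * S * M = 0 := by
    ext A B
    rw [Matrix.mul_apply, Matrix.zero_apply]
    have h4 := spin hα (h2 A.1) (h1 B.1) φ hφ c hc hc'
    rw [sum_sub b] at h4
    rw [← h4]
    apply Finset.sum_congr rfl
    intro D _
    rw [hMS]
    simp only [M]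
    ring
  have h5 : (M * S) ^ 2 = 0 := by
    rw [pow_two, ← mul_assoc, hMSM, zero_mul]
  have := trace_eq_zero_of_sq (M * S) 2 h5
  rw [← this]
  unfold Matrix.trace
  apply Finset.sum_congr rfl
  intro A _
  rw [Matrix.diag_apply, hMS]

end MP_d81877_alI
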