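import Mathlib
import Pool.Agent.Lib.MP_d81877_alI.ERule
import Pool.Agent.Lib.MP_d81877_alI.Trace

/-!
MP_d81877_al, invariance: `Phi` vanishes on the radical when rows and columns are disjoint; the
three term relation for `Phi`.
-/

namespace MP_d81877_alI

open Finset Function

variable {ι K α : Type*} [DecidableEq ι] [Fintype ι] [Field K] [Fintype α] [DecidableEq α]

/-- the word with independent sets of positions for rows and columns -/
def wrd2 (V : Finset ι) (c r : α → ι) (A B : Finset α) : Fin 4 → Finset ι :=
  ![V \ A.image c, V \ Aᶜ.image c, Bᶜ.image r, B.image r]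

omit [Fintype ι] in
/-- products with primitive functions, local statement -/
theorem prim_sum {b : ℕ} {w : Finset α → K} (hw : Prim b w) {f : α → ι} (hf : Injective f)
    (r : ℕ) (hr : 1 ≤ r) (P P' : Finset ι) :
    ∑ Y ∈ (P \ P').powersetCard r, ∑ B ∈ (univ : Finset (Finset α)).filter (fun B => B.card = b),
      (if P \ Y = Bᶜ.image f ∧ P' ∪ Y = B.image f then w B else 0) = 0 := by
  by_cases hex : ∃ B0 : Finset α, B0.card = b ∧ ∃ Y0 ∈ (P \ P').powersetCard r,
      P \ Y0 = B0ᶜ.image f ∧ P' ∪ Y0 = B0.image f
  · obtain ⟨B0, hB0, Y0, hY0, h1, h2⟩ := hex
    rw [Finset.mem_powersetCard] at hY0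
    obtain ⟨hY0s, hY0c⟩ := hY0
    set J : Finset α := B0.filter (fun i => f i ∉ Y0) with hJ
    have hP' : P' = J.image f := by
      ext y
      constructor
      · intro hy
        have : y ∈ B0.image f := by
          rw [← h2]; exact Finset.mem_union_left _ hy
        obtain ⟨i, hi, rfl⟩ := Finset.mem_image.1 this
        refine Finset.mem_image.2 ⟨i, Finset.mem_filter.2 ⟨hi, fun h => ?_⟩, rfl⟩
        exact (Finset.mem_sdiff.1 (hY0s h)).2 hy
      · intro hy
        obtain ⟨i, hi, rfl⟩ := Finset.mem_image.1 hy
        rw [hJ, Finset.mem_filter] at hi
        have : f i ∈ P' ∪ Y0 := by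
          rw [h2]; exact Finset.mem_image_of_mem _ hi.1
        rcases Finset.mem_union.1 this with h | h
        · exact h
        · exact absurd h hi.2
    have hP : P = Jᶜ.image f := by
      ext y
      constructor
      · intro hy
        by_cases hyY : y ∈ Y0
        · have : y ∈ B0.image f := by
            rw [← h2]; exact Finset.mem_union_right _ hyY
          obtain ⟨i, hi, rfl⟩ := Finset.mem_image.1 this
          refine Finset.mem_image.2 ⟨i, ?_, rfl⟩
          rw [Finset.mem_compl, hJ, Finset.mem_filter]
          exact fun h => h.2 hyY
        · have : y ∈ B0ᶜ.image f := by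
            rw [← h1]; exact Finset.mem_sdiff.2 ⟨hy, hyY⟩
          obtain ⟨i, hi, rfl⟩ := Finset.mem_image.1 this
          refine Finset.mem_image.2 ⟨i, ?_, rfl⟩
          rw [Finset.mem_compl, hJ, Finset.mem_filter]
          exact fun h => (Finset.mem_compl.1 hi) h.1
      · intro hy
        obtain ⟨i, hi, rfl⟩ := Finset.mem_image.1 hy
        by_cases hiB : i ∈ B0
        · have : f i ∈ Y0 := by
            by_contra h
            exact (Finset.mem_compl.1 hi) (by rw [hJ, Finset.mem_filter]; exact ⟨hiB, h⟩)
          exact (Finset.mem_sdiff.1 (hY0s this)).1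
        · have : f i ∈ P \ Y0 := by
            rw [h1]; exact Finset.mem_image_of_mem _ (Finset.mem_compl.2 hiB)
          exact (Finset.mem_sdiff.1 this).1
    have hJc : J.card + r = b := by
      have h3 : (P' ∪ Y0).card = P'.card + Y0.card := by
        apply Finset.card_union_of_disjoint
        rw [Finset.disjoint_left]
        intro y hy hy'
        exact (Finset.mem_sdiff.1 (hY0s hy')).2 hy
      rw [h2, Finset.card_image_of_injective _ hf, hB0, hY0c, hP',
        Finset.card_image_of_injective _ hf] at h3
      exact h3.symm
    rw [Finset.sum_comm]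
    have h4 : ∀ B ∈ (univ : Finset (Finset α)).filter (fun B => B.card = b),
        ∑ Y ∈ (P \ P').powersetCard r,
          (if P \ Y = Bᶜ.image f ∧ P' ∪ Y = B.image f then w B else 0)
        = if J ⊆ B then w B else 0 := by
      intro B hB
      simp only [Finset.mem_filter, Finset.mem_univ, true_and] at hB
      by_cases hJB : J ⊆ B
      · rw [if_pos hJB, Finset.sum_eq_single ((B \ J).image f)]
        · rw [if_pos]
          constructor
          · rw [hP, ← Finset.image_sdiff _ _ hf]
            congr 1
            ext i
            simp only [Finset.mem_sdiff, Finset.mem_compl]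
            constructor
            · rintro ⟨h5, h6⟩ h7
              exact h6 ⟨h7, h5⟩
            · intro h5
              exact ⟨fun h6 => h5 (hJB h6), fun h6 => h5 h6.1⟩
          · rw [hP', ← Finset.image_union, Finset.union_sdiff_of_subset hJB]
        · intro Y hY hne
          rw [if_neg]
          rintro ⟨-, h5⟩
          apply hne
          rw [Finset.image_sdiff _ _ hf, ← h5, hP']
          rw [Finset.mem_powersetCard] at hY
          ext y
          constructor
          · intro hy
            refine Finset.mem_sdiff.2 ⟨Finset.mem_union_right _ hy, ?_⟩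
            rw [← hP']
            exact (Finset.mem_sdiff.1 (hY.1 hy)).2
          · intro hy
            rw [Finset.mem_sdiff, Finset.mem_union] at hy
            rcases hy.1 with h | h
            · exact absurd h hy.2
            · exact h
        · intro h
          exfalso
          apply h
          rw [Finset.mem_powersetCard]
          constructor
          · rw [hP, hP', ← Finset.image_sdiff _ _ hf]
            apply Finset.image_subset_image
            intro i hi
            rw [Finset.mem_sdiff] at hi
            rw [Finset.mem_sdiff, Finset.mem_compl]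
            exact ⟨hi.2, hi.2⟩
          · rw [Finset.card_image_of_injective _ hf, Finset.card_sdiff_of_subset hJB]
            omega
      · rw [if_neg hJB]
        apply Finset.sum_eq_zero
        intro Y _
        rw [if_neg]
        rintro ⟨-, h5⟩
        apply hJB
        intro i hi
        have : f i ∈ B.image f := by
          rw [← h5, hP']
          exact Finset.mem_union_left _ (Finset.mem_image_of_mem _ hi)
        obtain ⟨k, hk, hk2⟩ := Finset.mem_image.1 this
        rw [hf hk2] at hk
        exact hk
    rw [Finset.sum_congr rfl h4, ← Finset.sum_filter, Finset.filter_filter]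
    exact hw J (by omega)
  · apply Finset.sum_eq_zero
    intro Y hY
    apply Finset.sum_eq_zero
    intro B hB
    rw [if_neg]
    intro h
    simp only [Finset.mem_filter, Finset.mem_univ, true_and] at hB
    exact hex ⟨B, hB, Y, hY, h⟩

omit [Fintype ι] in
theorem shp_wrd2 {V : Finset ι} {b : ℕ} (hα : Fintype.card α = 2 * b + 1) {c r : α → ι}
    (hc : Injective c) (hr : Injective r) (hcV : ∀ i, c i ∈ V) (hrV : ∀ i, r i ∈ V)
    (A B : Finset α) (hA : A.card = b) (hB : B.card = b) : Shp V b (wrd2 V c r A B) := by
  have hcompl : ∀ A : Finset α, A.card = b → Aᶜ.card = b + 1 := by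
    intro A hA
    rw [Finset.card_compl, hα, hA]
    omega
  have hsub : ∀ (A : Finset α) (f : α → ι), (∀ i, f i ∈ V) → A.image f ⊆ V := by
    intro A f hf y hy
    obtain ⟨i, _, rfl⟩ := Finset.mem_image.1 hy
    exact hf i
  refine ⟨?_, ?_, ?_, ?_, ?_⟩
  · intro l
    fin_cases l
    · exact Finset.sdiff_subset
    · exact Finset.sdiff_subset
    · exact hsub _ r hrV
    · exact hsub _ r hrV
  · change (V \ A.image c).card + b = V.card
    have h1 := Finset.card_sdiff_add_card_eq_card (hsub A c hcV)
    rw [Finset.card_image_of_injective _ hc, hA] at h1
    exact h1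
  · change (V \ Aᶜ.image c).card + (b + 1) = V.card
    have h1 := Finset.card_sdiff_add_card_eq_card (hsub Aᶜ c hcV)
    rw [Finset.card_image_of_injective _ hc, hcompl A hA] at h1
    exact h1
  · change (Bᶜ.image r).card = b + 1
    rw [Finset.card_image_of_injective _ hr, hcompl B hB]
  · change (B.image r).card = b
    rw [Finset.card_image_of_injective _ hr, hB]

omit [Fintype ι] in
theorem prim_row {V : Finset ι} {u : WW ι K} (b : ℕ) (hu : Prm u) {c r : α → ι}
    (hc : Injective c) (hcV : ∀ i, c i ∈ V) (B : Finset α) :
    Prim b (fun A => u (wrd2 V c r A B)) := by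
  intro J hJ
  have h1 := hu 0 1 rfl (b - J.card) (by omega) (wrd2 V c r J B)
  rw [← h1]
  have w0 : wrd2 V c r J B 0 = V \ J.image c := rfl
  have w1 : wrd2 V c r J B 1 = V \ Jᶜ.image c := rfl
  rw [w0, w1]
  have hd : (V \ J.image c) \ (V \ Jᶜ.image c) = Jᶜ.image c := by
    ext y
    simp only [Finset.mem_sdiff]
    constructor
    · rintro ⟨⟨h2, h3⟩, h4⟩
      by_contra h5
      exact h4 ⟨h2, h5⟩
    · intro h2
      obtain ⟨i, hi, rfl⟩ := Finset.mem_image.1 h2
      refine ⟨⟨hcV i, ?_⟩, fun h => h.2 h2⟩
      intro h3
      obtain ⟨k, hk, hk2⟩ := Finset.mem_image.1 h3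
      rw [hc hk2] at hk
      exact (Finset.mem_compl.1 hi) hk
  rw [hd]
  apply Finset.sum_bij (fun I _ => (I \ J).image c)
  · intro I hI
    simp only [Finset.mem_filter, Finset.mem_univ, true_and] at hI
    rw [Finset.mem_powersetCard]
    constructor
    · apply Finset.image_subset_image
      intro i hi
      exact Finset.mem_compl.2 (Finset.mem_sdiff.1 hi).2
    · rw [Finset.card_image_of_injective _ hc, Finset.card_sdiff_of_subset hI.2, hI.1]
  · intro I hI I' hI' h
    simp only [Finset.mem_filter, Finset.mem_univ, true_and] at hI hI'
    have h2 := Finset.image_injective hc h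
    rw [← Finset.union_sdiff_of_subset hI.2, h2, Finset.union_sdiff_of_subset hI'.2]
  · intro Y hY
    rw [Finset.mem_powersetCard] at hY
    obtain ⟨T, hT, rfl⟩ := Finset.subset_image_iff.1 hY.1
    have hTJ : Disjoint T J := by
      rw [Finset.disjoint_left]
      intro i hi hi'
      exact (Finset.mem_compl.1 (hT hi)) hi'
    refine ⟨T ∪ J, ?_, ?_⟩
    · simp only [Finset.mem_filter, Finset.mem_univ, true_and]
      refine ⟨?_, Finset.subset_union_right⟩
      rw [Finset.card_union_of_disjoint hTJ]
      rw [Finset.card_image_of_injective _ hc] at hY
      omega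
    · rw [Finset.union_sdiff_right, Finset.sdiff_eq_self_of_disjoint hTJ]
  · intro I hI
    simp only [Finset.mem_filter, Finset.mem_univ, true_and] at hI
    congr 1
    funext l
    fin_cases l
    · change V \ I.image c = (V \ J.image c) \ (I \ J).image c
      rw [Finset.image_sdiff _ _ hc]
      ext y
      simp only [Finset.mem_sdiff]
      constructor
      · rintro ⟨h2, h3⟩
        refine ⟨⟨h2, fun h4 => h3 (Finset.image_subset_image hI.2 h4)⟩, fun h4 => h3 h4.1⟩
      · rintro ⟨⟨h2, h3⟩, h4⟩
        exact ⟨h2, fun h5 => h4 ⟨h5, h3⟩⟩
    · change V \ Iᶜ.image c = (V \ Jᶜ.image c) ∪ (I \ J).image c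
      ext y
      simp only [Finset.mem_sdiff, Finset.mem_union]
      constructor
      · rintro ⟨h2, h3⟩
        by_cases h4 : y ∈ Jᶜ.image c
        · right
          obtain ⟨i, hi, rfl⟩ := Finset.mem_image.1 h4
          refine Finset.mem_image_of_mem _ (Finset.mem_sdiff.2 ⟨?_, Finset.mem_compl.1 hi⟩)
          by_contra h5
          exact h3 (Finset.mem_image_of_mem _ (Finset.mem_compl.2 h5))
        · left
          exact ⟨h2, h4⟩
      · rintro (⟨h2, h3⟩ | h2)
        · refine ⟨h2, fun h4 => h3 ?_⟩
          apply Finset.image_subset_image _ h4
          exact Finset.compl_subset_compl.2 hI.2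
        · obtain ⟨i, hi, rfl⟩ := Finset.mem_image.1 h2
          refine ⟨hcV i, fun h3 => ?_⟩
          obtain ⟨k, hk, hk2⟩ := Finset.mem_image.1 h3
          rw [hc hk2] at hk
          exact (Finset.mem_compl.1 hk) (Finset.mem_sdiff.1 hi).1
    · rfl
    · rfl

omit [Fintype ι] in
theorem prim_col {V : Finset ι} {u : WW ι K} (b : ℕ) (hu : Prm u) {c r : α → ι}
    (hr : Injective r) (A : Finset α) :
    Prim b (fun B => u (wrd2 V c r A B)) := by
  intro J hJ
  have h1 := hu 2 3 rfl (b - J.card) (by omega) (wrd2 V c r A J)
  rw [← h1]
  have w0 : wrd2 V c r A J 2 = Jᶜ.image r := rfl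
  have w1 : wrd2 V c r A J 3 = J.image r := rfl
  rw [w0, w1]
  have hd : Jᶜ.image r \ J.image r = Jᶜ.image r := by
    rw [← Finset.image_sdiff _ _ hr]
    congr 1
    ext i
    simp
  rw [hd]
  apply Finset.sum_bij (fun I _ => (I \ J).image r)
  · intro I hI
    simp only [Finset.mem_filter, Finset.mem_univ, true_and] at hI
    rw [Finset.mem_powersetCard]
    constructor
    · apply Finset.image_subset_image
      intro i hi
      exact Finset.mem_compl.2 (Finset.mem_sdiff.1 hi).2
    · rw [Finset.card_image_of_injective _ hr, Finset.card_sdiff_of_subset hI.2, hI.1]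
  · intro I hI I' hI' h
    simp only [Finset.mem_filter, Finset.mem_univ, true_and] at hI hI'
    have h2 := Finset.image_injective hr h
    rw [← Finset.union_sdiff_of_subset hI.2, h2, Finset.union_sdiff_of_subset hI'.2]
  · intro Y hY
    rw [Finset.mem_powersetCard] at hY
    obtain ⟨T, hT, rfl⟩ := Finset.subset_image_iff.1 hY.1
    have hTJ : Disjoint T J := by
      rw [Finset.disjoint_left]
      intro i hi hi'
      exact (Finset.mem_compl.1 (hT hi)) hi'
    refine ⟨T ∪ J, ?_, ?_⟩
    · simp only [Finset.mem_filter, Finset.mem_univ, true_and]
      refine ⟨?_, Finset.subset_union_right⟩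
      rw [Finset.card_union_of_disjoint hTJ]
      rw [Finset.card_image_of_injective _ hr] at hY
      omega
    · rw [Finset.union_sdiff_right, Finset.sdiff_eq_self_of_disjoint hTJ]
  · intro I hI
    simp only [Finset.mem_filter, Finset.mem_univ, true_and] at hI
    congr 1
    funext l
    fin_cases l
    · rfl
    · rfl
    · change Iᶜ.image r = Jᶜ.image r \ (I \ J).image r
      rw [← Finset.image_sdiff _ _ hr]
      congr 1
      ext i
      simp only [Finset.mem_compl, Finset.mem_sdiff]
      constructor
      · intro h2
        exact ⟨fun h3 => h2 (hI.2 h3), fun h3 => h2 h3.1⟩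
      · rintro ⟨h2, h3⟩ h4
        exact h3 ⟨h4, h2⟩
    · change I.image r = J.image r ∪ (I \ J).image r
      rw [← Finset.image_union, Finset.union_sdiff_of_subset hI.2]

omit [Fintype ι] in
/-- **three term relation for `Phi`** -/
theorem Phi_spin [CharP K 2] {V : Finset ι} {b : ℕ} {u : WW ι K} (hu : Prm u)
    (hα : Fintype.card α = 2 * b + 1) {c r : α → ι} (hc : Injective c) (hr : Injective r)
    (hcV : ∀ i, c i ∈ V) (φ : Fin 3 → α)
    (hφ : Function.Injective φ) (d : Equiv.Perm α) (hd : ∀ t, d (φ t) = φ (t + 1))
    (hd' : ∀ x, x ∉ univ.image φ → d x = x) :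
    Phi V b u c r + Phi V b u c (r ∘ d) + Phi V b u c (r ∘ (d * d)) = 0 := by
  have h := trace_spin hα (fun A B => u (wrd2 V c r A B)) (prim_row b hu hc hcV)
    (prim_col b hu hr) φ hφ d hd hd'
  rw [← h]
  unfold Phi
  rw [← Finset.sum_add_distrib, ← Finset.sum_add_distrib]
  apply Finset.sum_congr rfl
  intro A _
  have hcompl : ∀ (e : Equiv.Perm α) (A : Finset α), (A.image e)ᶜ = Aᶜ.image e := by
    intro e A
    ext x
    simp only [Finset.mem_compl, Finset.mem_image]
    constructor
    · intro h
      refine ⟨e.symm x, fun h' => h ⟨e.symm x, h', by simp⟩, by simp⟩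
    · rintro ⟨y, hy, rfl⟩ ⟨z, hz, hzy⟩
      rw [e.injective hzy] at hz
      exact hy hz
  have hw : ∀ e : Equiv.Perm α, wrd V c (r ∘ e) A = wrd2 V c r A (A.image e) := by
    intro e
    unfold wrd wrd2
    rw [hcompl, Finset.image_image, Finset.image_image]
  rw [hw d, hw (d * d)]
  rfl

/-- **`Phi` vanishes on the radical for disjoint rows and columns** -/
theorem Phi_zero [CharP K 2] {V : Finset ι} {b : ℕ} {u : WW ι K} (hu : Rm V b u)
    (hα : Fintype.card α = 2 * b + 1) {c r : α → ι} (hc : Injective c) (hr : Injective r)
    (hcV : ∀ i, c i ∈ V) (hrV : ∀ i, r i ∈ V) (hcr : ∀ i j, c i ≠ r j) :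
    Phi V b u c r = 0 := by
  have key := trace_zero (b := b) (fun A B => u (wrd2 V c r A B))
    (prim_row b hu.dm.prm hc hcV) (prim_col b hu.dm.prm hr) ?_
  · exact key
  · intro w w' hw hw'
    set v : WW ι K := fun S =>
      ∑ A ∈ (univ : Finset (Finset α)).filter (fun A => A.card = b),
        ∑ B ∈ (univ : Finset (Finset α)).filter (fun A => A.card = b),
          (if S = wrd2 V c r A B then w A * w' B else 0) with hv
    have hvD : Dm V b v := by
      constructor
      · intro S hS
        rw [hv]
        apply Finset.sum_eq_zero
        intro A hA
        apply Finset.sum_eq_zero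
        intro B hB
        simp only [Finset.mem_filter, Finset.mem_univ, true_and] at hA hB
        rw [if_neg]
        intro h
        apply hS
        rw [h]
        exact shp_wrd2 hα hc hr hcV hrV A B hA hB
      · intro j j' hj s hs S
        have hcases : (j = 0 ∧ j' = 1) ∨ (j = 1 ∧ j' = 2) ∨ (j = 2 ∧ j' = 3) := by
          revert hj
          revert j j'
          decide
        rcases hcases with ⟨rfl, rfl⟩ | ⟨rfl, rfl⟩ | ⟨rfl, rfl⟩
        · -- rows
          rw [hv]
          simp only
          have h5 : ∀ Y ∈ (S 0 \ S 1).powersetCard s,
              ∑ A ∈ (univ : Finset (Finset α)).filter (fun A => A.card = b),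
                ∑ B ∈ (univ : Finset (Finset α)).filter (fun A => A.card = b),
                  (if update (update S 0 (S 0 \ Y)) 1 (S 1 ∪ Y) = wrd2 V c r A B
                    then w A * w' B else 0)
              = ∑ A ∈ (univ : Finset (Finset α)).filter (fun A => A.card = b),
                (if S 0 \ Y = V \ A.image c ∧ S 1 ∪ Y = V \ Aᶜ.image c then w A else 0) *
                ∑ B ∈ (univ : Finset (Finset α)).filter (fun A => A.card = b),
                  (if S 2 = Bᶜ.image r ∧ S 3 = B.image r then w' B else 0) := by
            intro Y _
            apply Finset.sum_congr rfl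
            intro A _
            rw [Finset.mul_sum]
            apply Finset.sum_congr rfl
            intro B _
            have h6 : (update (update S 0 (S 0 \ Y)) 1 (S 1 ∪ Y) = wrd2 V c r A B) ↔
                (S 0 \ Y = V \ A.image c ∧ S 1 ∪ Y = V \ Aᶜ.image c) ∧
                (S 2 = Bᶜ.image r ∧ S 3 = B.image r) := by
              constructor
              · intro h
                exact ⟨⟨congrFun h 0, congrFun h 1⟩, congrFun h 2, congrFun h 3⟩
              · rintro ⟨⟨e0, e1⟩, e2, e3⟩
                funext l
                fin_cases l
                · exact e0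
                · exact e1
                · exact e2
                · exact e3
            simp only [h6]
            split_ifs <;> simp_all
          rw [Finset.sum_congr rfl h5]
          simp only [← Finset.sum_mul]
          apply mul_eq_zero_of_left
          by_cases hSV : S 0 ⊆ V ∧ S 1 ⊆ V
          · refine Eq.trans ?_ (prim_sum hw hc s hs (V \ S 1) (V \ S 0))
            have h7 : (V \ S 1) \ (V \ S 0) = S 0 \ S 1 := by
              ext y
              simp only [Finset.mem_sdiff]
              constructor
              · rintro ⟨⟨h1, h2⟩, h3⟩
                refine ⟨?_, h2⟩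
                by_contra h4
                exact h3 ⟨h1, h4⟩
              · rintro ⟨h1, h2⟩
                exact ⟨⟨hSV.1 h1, h2⟩, fun h => h.2 h1⟩
            rw [h7]
            apply Finset.sum_congr rfl
            intro Y hY
            rw [Finset.mem_powersetCard] at hY
            apply Finset.sum_congr rfl
            intro A _
            have himV : ∀ A : Finset α, A.image c ⊆ V := by
              intro A y hy
              obtain ⟨i, _, rfl⟩ := Finset.mem_image.1 hy
              exact hcV i
            have h8 : (S 0 \ Y = V \ A.image c ∧ S 1 ∪ Y = V \ Aᶜ.image c) ↔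
                ((V \ S 1) \ Y = Aᶜ.image c ∧ (V \ S 0) ∪ Y = A.image c) := by
              have f1 : (S 0 \ Y = V \ A.image c) ↔ ((V \ S 0) ∪ Y = A.image c) := by
                constructor
                · intro h
                  ext y
                  have hy := Finset.ext_iff.1 h y
                  simp only [Finset.mem_sdiff, Finset.mem_union] at hy ⊢
                  constructor
                  · rintro (⟨g1, g2⟩ | g1)
                    · by_contra g3
                      exact g2 (hy.2 ⟨g1, g3⟩).1
                    · by_contra g3
                      have g4 : y ∈ V := hSV.1 (Finset.mem_sdiff.1 (hY.1 g1)).1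
                      exact (hy.2 ⟨g4, g3⟩).2 g1
                  · intro g1
                    by_cases g2 : y ∈ Y
                    · exact Or.inr g2
                    · left
                      refine ⟨himV _ g1, fun g3 => ?_⟩
                      exact (hy.1 ⟨g3, g2⟩).2 g1
                · intro h
                  ext y
                  have hy := Finset.ext_iff.1 h y
                  simp only [Finset.mem_sdiff, Finset.mem_union] at hy ⊢
                  constructor
                  · rintro ⟨g1, g2⟩
                    refine ⟨hSV.1 g1, fun g3 => ?_⟩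
                    rcases hy.2 g3 with g4 | g4
                    · exact g4.2 g1
                    · exact g2 g4
                  · rintro ⟨g1, g2⟩
                    constructor
                    · by_contra g3
                      exact g2 (hy.1 (Or.inl ⟨g1, g3⟩))
                    · intro g3
                      exact g2 (hy.1 (Or.inr g3))
              have f2 : (S 1 ∪ Y = V \ Aᶜ.image c) ↔ ((V \ S 1) \ Y = Aᶜ.image c) := by
                constructor
                · intro h
                  ext y
                  have hy := Finset.ext_iff.1 h y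
                  simp only [Finset.mem_sdiff, Finset.mem_union] at hy ⊢
                  constructor
                  · rintro ⟨⟨g1, g2⟩, g3⟩
                    by_contra g4
                    rcases hy.2 ⟨g1, g4⟩ with g5 | g5
                    · exact g2 g5
                    · exact g3 g5
                  · intro g1
                    refine ⟨⟨himV _ g1, fun g2 => ?_⟩, fun g2 => ?_⟩
                    · exact (hy.1 (Or.inl g2)).2 g1
                    · exact (hy.1 (Or.inr g2)).2 g1
                · intro h
                  ext y
                  have hy := Finset.ext_iff.1 h y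
                  simp only [Finset.mem_sdiff, Finset.mem_union] at hy ⊢
                  constructor
                  · rintro (g1 | g1)
                    · refine ⟨hSV.2 g1, fun g2 => ?_⟩
                      exact (hy.2 g2).1.2 g1
                    · refine ⟨hSV.1 (Finset.mem_sdiff.1 (hY.1 g1)).1, fun g2 => ?_⟩
                      exact (hy.2 g2).2 g1
                  · rintro ⟨g1, g2⟩
                    by_contra g3
                    push Not at g3
                    exact g2 (hy.1 ⟨⟨g1, g3.1⟩, g3.2⟩)
              rw [f1, f2]
              tauto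
            simp only [h8]
          · apply Finset.sum_eq_zero
            intro Y hY
            rw [Finset.mem_powersetCard] at hY
            apply Finset.sum_eq_zero
            intro A _
            rw [if_neg]
            rintro ⟨g1, g2⟩
            apply hSV
            have g3 : S 1 ∪ Y ⊆ V := by rw [g2]; exact Finset.sdiff_subset
            have g4 : S 0 \ Y ⊆ V := by rw [g1]; exact Finset.sdiff_subset
            refine ⟨?_, fun y hy => g3 (Finset.mem_union_left _ hy)⟩
            intro y hy
            by_cases hyY : y ∈ Y
            · exact g3 (Finset.mem_union_right _ hyY)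
            · exact g4 (Finset.mem_sdiff.2 ⟨hy, hyY⟩)
        · -- mixed
          apply Finset.sum_eq_zero
          intro Y hY
          rw [hv]
          apply Finset.sum_eq_zero
          intro A _
          apply Finset.sum_eq_zero
          intro B _
          rw [if_neg]
          intro h
          rw [Finset.mem_powersetCard] at hY
          have hne : Y.Nonempty := by
            rw [← Finset.card_pos]
            omega
          obtain ⟨y, hy⟩ := hne
          have e1 : S 1 \ Y = V \ Aᶜ.image c := congrFun h 1
          have e2 : S 2 ∪ Y = Bᶜ.image r := congrFun h 2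
          have g1 : y ∈ Bᶜ.image r := by rw [← e2]; exact Finset.mem_union_right _ hy
          obtain ⟨k, _, hk⟩ := Finset.mem_image.1 g1
          have g2 : y ∉ V \ Aᶜ.image c := by
            rw [← e1]
            exact fun h => (Finset.mem_sdiff.1 h).2 hy
          apply g2
          rw [Finset.mem_sdiff]
          refine ⟨by rw [← hk]; exact hrV k, fun h5 => ?_⟩
          obtain ⟨i, _, hi⟩ := Finset.mem_image.1 h5
          exact hcr i k (hi.trans hk.symm)
        · -- columns
          rw [hv]
          simp only
          have h5 : ∀ Y ∈ (S 2 \ S 3).powersetCard s,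
              ∑ A ∈ (univ : Finset (Finset α)).filter (fun A => A.card = b),
                ∑ B ∈ (univ : Finset (Finset α)).filter (fun A => A.card = b),
                  (if update (update S 2 (S 2 \ Y)) 3 (S 3 ∪ Y) = wrd2 V c r A B
                    then w A * w' B else 0)
              = (∑ A ∈ (univ : Finset (Finset α)).filter (fun A => A.card = b),
                (if S 0 = V \ A.image c ∧ S 1 = V \ Aᶜ.image c then w A else 0)) *
                ∑ B ∈ (univ : Finset (Finset α)).filter (fun A => A.card = b),
                  (if S 2 \ Y = Bᶜ.image r ∧ S 3 ∪ Y = B.image r then w' B else 0) := by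
            intro Y _
            rw [Finset.sum_mul_sum]
            apply Finset.sum_congr rfl
            intro A _
            apply Finset.sum_congr rfl
            intro B _
            have h6 : (update (update S 2 (S 2 \ Y)) 3 (S 3 ∪ Y) = wrd2 V c r A B) ↔
                (S 0 = V \ A.image c ∧ S 1 = V \ Aᶜ.image c) ∧
                (S 2 \ Y = Bᶜ.image r ∧ S 3 ∪ Y = B.image r) := by
              constructor
              · intro h
                exact ⟨⟨congrFun h 0, congrFun h 1⟩, congrFun h 2, congrFun h 3⟩
              · rintro ⟨⟨e0, e1⟩, e2, e3⟩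
                funext l
                fin_cases l
                · exact e0
                · exact e1
                · exact e2
                · exact e3
            simp only [h6]
            split_ifs <;> simp_all
          rw [Finset.sum_congr rfl h5]
          rw [← Finset.mul_sum, prim_sum hw' hr s hs (S 2) (S 3), mul_zero]
    have h9 := hu.orth v hvD
    have h10 : ∑ S, u S * v S
        = ∑ A ∈ (univ : Finset (Finset α)).filter (fun A => A.card = b),
          ∑ B ∈ (univ : Finset (Finset α)).filter (fun A => A.card = b),
            ∑ S, u S * (if S = wrd2 V c r A B then w A * w' B else 0) := by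
      rw [hv]
      simp only [Finset.mul_sum]
      rw [Finset.sum_comm]
      apply Finset.sum_congr rfl
      intro A _
      rw [Finset.sum_comm]
    rw [h10] at h9
    rw [← h9]
    apply Finset.sum_congr rfl
    intro A _
    apply Finset.sum_congr rfl
    intro B _
    rw [Finset.sum_eq_single (wrd2 V c r A B)]
    · rw [if_pos rfl]
      ring
    · intro S _ hS
      rw [if_neg hS, mul_zero]
    · intro h
      exact absurd (Finset.mem_univ _) h

end MP_d81877_alI
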