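import Mathlib
import Pool.Agent.Lib.MP_d81877_alI.AZero

/-!
MP_d81877_al, invariance: the local calculus on three positions.
-/

namespace MP_d81877_alI

open Finset Function

variable {ι K α : Type*} [DecidableEq ι] [Fintype ι] [Field K] [Fintype α] [DecidableEq α]

/-- rows and columns are injective, inside `V`, and may coincide only at the same position -/
structure Cond (V : Finset ι) (c r : α → ι) : Prop where
  ci : Injective c
  ri : Injective r
  cV : ∀ i, c i ∈ V
  rV : ∀ i, r i ∈ V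
  ne : ∀ i j, i ≠ j → c i ≠ r j

/-- the number of coincidences -/
def coin (c r : α → ι) : ℕ := (univ.filter (fun i => c i = r i)).card

/-- the values which do not occur at the other positions -/
def Lc (V : Finset ι) (c r : α → ι) (φ : Fin 3 → α) (x : ι) : Prop :=
  x ∈ V ∧ ∀ t, (∀ s, φ s ≠ t) → c t ≠ x ∧ r t ≠ x

/-- change the values at the three positions `φ` -/
noncomputable def ext3 (φ : Fin 3 → α) (a : Fin 3 → ι) (c : α → ι) : α → ι :=
  Function.extend φ a c

omit [DecidableEq ι] [Fintype ι] [Fintype α] [DecidableEq α] in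
theorem ext3_apply {φ : Fin 3 → α} (hφ : Injective φ) (a : Fin 3 → ι) (c : α → ι) (s : Fin 3) :
    ext3 φ a c (φ s) = a s := hφ.extend_apply a c s

omit [DecidableEq ι] [Fintype ι] [Fintype α] [DecidableEq α] in
theorem ext3_of_ne {φ : Fin 3 → α} (a : Fin 3 → ι) (c : α → ι) {t : α} (ht : ∀ s, φ s ≠ t) :
    ext3 φ a c t = c t := by
  unfold ext3
  rw [Function.extend_apply']
  rintro ⟨s, hs⟩
  exact ht s hs

omit [DecidableEq ι] [Fintype ι] [Fintype α] in
theorem ext3_update {φ : Fin 3 → α} (hφ : Injective φ) (a : Fin 3 → ι) (c : α → ι) (s : Fin 3)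
    (x : ι) : update (ext3 φ a c) (φ s) x = ext3 φ (update a s x) c := by
  funext t
  by_cases h : ∃ s', φ s' = t
  · obtain ⟨s', rfl⟩ := h
    rw [ext3_apply hφ]
    by_cases hs : s' = s
    · subst hs
      rw [update_self, update_self]
    · rw [update_of_ne (fun h => hs (hφ h)), update_of_ne hs, ext3_apply hφ]
  · have h' : ∀ s', φ s' ≠ t := fun s' hs' => h ⟨s', hs'⟩
    rw [ext3_of_ne _ _ h', update_of_ne (fun h2 => h' s h2.symm), ext3_of_ne _ _ h']

omit [Fintype ι] in
theorem cond_ext3 {V : Finset ι} {c r : α → ι} (hcr : Cond V c r) {φ : Fin 3 → α}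
    (hφ : Injective φ) {a b : Fin 3 → ι} (ha : Injective a) (hb : Injective b)
    (haL : ∀ s, Lc V c r φ (a s)) (hbL : ∀ s, Lc V c r φ (b s))
    (hab : ∀ s s', s ≠ s' → a s ≠ b s') : Cond V (ext3 φ a c) (ext3 φ b r) := by
  have hcase : ∀ t : α, (∃ s, φ s = t) ∨ (∀ s, φ s ≠ t) := by
    intro t
    by_cases h : ∃ s, φ s = t
    · exact Or.inl h
    · exact Or.inr (fun s hs => h ⟨s, hs⟩)
  constructor
  · intro t t' h
    rcases hcase t with ⟨s, rfl⟩ | h1 <;> rcases hcase t' with ⟨s', rfl⟩ | h2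
    · rw [ext3_apply hφ, ext3_apply hφ] at h
      rw [ha h]
    · rw [ext3_apply hφ, ext3_of_ne _ _ h2] at h
      exact absurd h.symm ((haL s).2 t' h2).1
    · rw [ext3_apply hφ, ext3_of_ne _ _ h1] at h
      exact absurd h ((haL s').2 t h1).1
    · rw [ext3_of_ne _ _ h1, ext3_of_ne _ _ h2] at h
      exact hcr.ci h
  · intro t t' h
    rcases hcase t with ⟨s, rfl⟩ | h1 <;> rcases hcase t' with ⟨s', rfl⟩ | h2
    · rw [ext3_apply hφ, ext3_apply hφ] at h
      rw [hb h]
    · rw [ext3_apply hφ, ext3_of_ne _ _ h2] at h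
      exact absurd h.symm ((hbL s).2 t' h2).2
    · rw [ext3_apply hφ, ext3_of_ne _ _ h1] at h
      exact absurd h ((hbL s').2 t h1).2
    · rw [ext3_of_ne _ _ h1, ext3_of_ne _ _ h2] at h
      exact hcr.ri h
  · intro t
    rcases hcase t with ⟨s, rfl⟩ | h1
    · rw [ext3_apply hφ]; exact (haL s).1
    · rw [ext3_of_ne _ _ h1]; exact hcr.cV t
  · intro t
    rcases hcase t with ⟨s, rfl⟩ | h1
    · rw [ext3_apply hφ]; exact (hbL s).1
    · rw [ext3_of_ne _ _ h1]; exact hcr.rV t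
  · intro t t' htt' h
    rcases hcase t with ⟨s, rfl⟩ | h1 <;> rcases hcase t' with ⟨s', rfl⟩ | h2
    · rw [ext3_apply hφ, ext3_apply hφ] at h
      exact hab s s' (fun h3 => htt' (by rw [h3])) h
    · rw [ext3_apply hφ, ext3_of_ne _ _ h2] at h
      exact ((haL s).2 t' h2).2 h.symm
    · rw [ext3_apply hφ, ext3_of_ne _ _ h1] at h
      exact ((hbL s').2 t h1).1 h
    · rw [ext3_of_ne _ _ h1, ext3_of_ne _ _ h2] at h
      exact hcr.ne t t' htt' h

/-- the number of coincidences at the other positions -/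
def coin' (c r : α → ι) (φ : Fin 3 → α) : ℕ :=
  (univ.filter (fun t => (∀ s, φ s ≠ t) ∧ c t = r t)).card

omit [Fintype ι] in
theorem coin_ext3 {c r : α → ι} {φ : Fin 3 → α} (hφ : Injective φ) (a b : Fin 3 → ι) :
    coin (ext3 φ a c) (ext3 φ b r)
      = coin' c r φ + (univ.filter (fun s => a s = b s)).card := by
  unfold coin coin'
  have h1 : (univ.filter (fun t => ext3 φ a c t = ext3 φ b r t))
      = (univ.filter (fun t => (∀ s, φ s ≠ t) ∧ c t = r t)) ∪
        (univ.filter (fun s => a s = b s)).image φ := by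
    ext t
    simp only [Finset.mem_filter, Finset.mem_univ, true_and, Finset.mem_union, Finset.mem_image]
    by_cases h : ∃ s, φ s = t
    · obtain ⟨s, rfl⟩ := h
      rw [ext3_apply hφ, ext3_apply hφ]
      constructor
      · intro h2
        exact Or.inr ⟨s, h2, rfl⟩
      · rintro (⟨h2, _⟩ | ⟨s', h2, h3⟩)
        · exact absurd rfl (h2 s)
        · rw [hφ h3] at h2
          exact h2
    · have h' : ∀ s', φ s' ≠ t := fun s' hs' => h ⟨s', hs'⟩
      rw [ext3_of_ne _ _ h', ext3_of_ne _ _ h']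
      constructor
      · intro h2
        exact Or.inl ⟨h', h2⟩
      · rintro (⟨_, h2⟩ | ⟨s', _, h3⟩)
        · exact h2
        · exact absurd h3 (h' s')
  rw [h1, Finset.card_union_of_disjoint, Finset.card_image_of_injective _ hφ]
  rw [Finset.disjoint_left]
  intro t ht ht'
  simp only [Finset.mem_filter, Finset.mem_univ, true_and, Finset.mem_image] at ht ht'
  obtain ⟨s, _, hs⟩ := ht'
  exact ht.1 s hs

/-- the value of `Phi` for given values at three positions -/
noncomputable def F3 (V : Finset ι) (b : ℕ) (u : WW ι K) (c r : α → ι) (φ : Fin 3 → α)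
    (a a' : Fin 3 → ι) : K :=
  Phi V b u (ext3 φ a c) (ext3 φ a' r)

omit [Fintype ι] in
/-- swapping two of the three positions -/
theorem F3_swap (V : Finset ι) (b : ℕ) (u : WW ι K) (c r : α → ι) {φ : Fin 3 → α}
    (hφ : Injective φ) (a a' : Fin 3 → ι) (s s' : Fin 3) :
    F3 V b u c r φ (a ∘ Equiv.swap s s') (a' ∘ Equiv.swap s s') = F3 V b u c r φ a a' := by
  unfold F3
  have hval : ∀ (f : Fin 3 → ι) (g : α → ι),
      (∀ i, i ≠ φ s → i ≠ φ s' → ext3 φ (f ∘ Equiv.swap s s') g i = ext3 φ f g i) ∧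
      ext3 φ (f ∘ Equiv.swap s s') g (φ s) = ext3 φ f g (φ s') ∧
      ext3 φ (f ∘ Equiv.swap s s') g (φ s') = ext3 φ f g (φ s) := by
    intro f g
    refine ⟨?_, ?_, ?_⟩
    · intro i h1 h2
      by_cases h : ∃ s'', φ s'' = i
      · obtain ⟨s'', rfl⟩ := h
        rw [ext3_apply hφ, ext3_apply hφ, Function.comp_apply, Equiv.swap_apply_of_ne_of_ne]
        · intro h3; exact h1 (by rw [h3])
        · intro h3; exact h2 (by rw [h3])
      · have h' : ∀ s', φ s' ≠ i := fun s' hs' => h ⟨s', hs'⟩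
        rw [ext3_of_ne _ _ h', ext3_of_ne _ _ h']
    · rw [ext3_apply hφ, ext3_apply hφ, Function.comp_apply, Equiv.swap_apply_left]
    · rw [ext3_apply hφ, ext3_apply hφ, Function.comp_apply, Equiv.swap_apply_right]
  exact Phi_swap V b u _ _ _ _ (φ s) (φ s') (hval a c).1 (hval a' r).1 (hval a c).2.1
    (hval a c).2.2 (hval a' r).2.1 (hval a' r).2.2

omit [Fintype ι] in
/-- the three term relation -/
theorem F3_spin [CharP K 2] {V : Finset ι} {b : ℕ} {u : WW ι K} (hu : Prm u)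
    (hα : Fintype.card α = 2 * b + 1) {c r : α → ι} (hcr : Cond V c r) {φ : Fin 3 → α}
    (hφ : Injective φ) {a a' : Fin 3 → ι} (ha : Injective a) (ha' : Injective a')
    (haL : ∀ s, Lc V c r φ (a s)) (haL' : ∀ s, Lc V c r φ (a' s)) :
    F3 V b u c r φ a a' + F3 V b u c r φ a (fun s => a' (s + 1))
      + F3 V b u c r φ a (fun s => a' (s + 2)) = 0 := by
  classical
  have hcase : ∀ t : α, (∃ s, φ s = t) ∨ (∀ s, φ s ≠ t) := by
    intro t
    by_cases h : ∃ s, φ s = t
    · exact Or.inl h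
    · exact Or.inr (fun s hs => h ⟨s, hs⟩)
  have injrow : Injective (ext3 φ a c) := by
    intro t t' h
    rcases hcase t with ⟨s, rfl⟩ | h1 <;> rcases hcase t' with ⟨s', rfl⟩ | h2
    · rw [ext3_apply hφ, ext3_apply hφ] at h
      rw [ha h]
    · rw [ext3_apply hφ, ext3_of_ne _ _ h2] at h
      exact absurd h.symm ((haL s).2 t' h2).1
    · rw [ext3_apply hφ, ext3_of_ne _ _ h1] at h
      exact absurd h ((haL s').2 t h1).1
    · rw [ext3_of_ne _ _ h1, ext3_of_ne _ _ h2] at h
      exact hcr.ci h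
  have injcol : Injective (ext3 φ a' r) := by
    intro t t' h
    rcases hcase t with ⟨s, rfl⟩ | h1 <;> rcases hcase t' with ⟨s', rfl⟩ | h2
    · rw [ext3_apply hφ, ext3_apply hφ] at h
      rw [ha' h]
    · rw [ext3_apply hφ, ext3_of_ne _ _ h2] at h
      exact absurd h.symm ((haL' s).2 t' h2).2
    · rw [ext3_apply hφ, ext3_of_ne _ _ h1] at h
      exact absurd h ((haL' s').2 t h1).2
    · rw [ext3_of_ne _ _ h1, ext3_of_ne _ _ h2] at h
      exact hcr.ri h
  have rowV : ∀ i, ext3 φ a c i ∈ V := by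
    intro t
    rcases hcase t with ⟨s, rfl⟩ | h1
    · rw [ext3_apply hφ]; exact (haL s).1
    · rw [ext3_of_ne _ _ h1]; exact hcr.cV t
  -- the three cycle
  let e : Equiv.Perm (Fin 3) := finRotate 3
  have he : ∀ s : Fin 3, e s = s + 1 := by decide
  let d : Equiv.Perm α := Equiv.Perm.viaFintypeEmbedding e ⟨φ, hφ⟩
  have hd : ∀ t, d (φ t) = φ (t + 1) := by
    intro t
    have := Equiv.Perm.viaFintypeEmbedding_apply_image e ⟨φ, hφ⟩ t
    simp only [Function.Embedding.coeFn_mk] at this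
    rw [← he t]
    exact this
  have hd' : ∀ x, x ∉ univ.image φ → d x = x := by
    intro x hx
    apply Equiv.Perm.viaFintypeEmbedding_apply_notMem_range
    rintro ⟨s, hs⟩
    exact hx (Finset.mem_image.2 ⟨s, Finset.mem_univ _, hs⟩)
  have key := Phi_spin hu hα injrow injcol rowV φ hφ d hd hd'
  have h1 : (ext3 φ a' r) ∘ d = ext3 φ (fun s => a' (s + 1)) r := by
    funext t
    rw [Function.comp_apply]
    rcases hcase t with ⟨s, rfl⟩ | h1
    · rw [hd, ext3_apply hφ, ext3_apply hφ]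
    · rw [hd' t, ext3_of_ne _ _ h1, ext3_of_ne _ _ h1]
      intro h
      obtain ⟨s, _, hs⟩ := Finset.mem_image.1 h
      exact h1 s hs
  have h2 : (ext3 φ a' r) ∘ (d * d) = ext3 φ (fun s => a' (s + 2)) r := by
    funext t
    rw [Function.comp_apply, Equiv.Perm.mul_apply]
    rcases hcase t with ⟨s, rfl⟩ | h1
    · rw [hd, hd, ext3_apply hφ, ext3_apply hφ, add_assoc]
      rfl
    · have : t ∉ univ.image φ := by
        intro h
        obtain ⟨s, _, hs⟩ := Finset.mem_image.1 h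
        exact h1 s hs
      rw [hd' t this, hd' t this, ext3_of_ne _ _ h1, ext3_of_ne _ _ h1]
  rw [h1, h2] at key
  exact key

omit [Fintype ι] in
/-- the rule for `E_{xz}`, both indices local -/
theorem F3_E {V : Finset ι} {b : ℕ} {u : WW ι K} (hu : Dm V b u)
    (hα : Fintype.card α = 2 * b + 1) {c r : α → ι} (hcr : Cond V c r) {φ : Fin 3 → α}
    (hφ : Injective φ) {a a' : Fin 3 → ι} (ha : Injective a) (ha' : Injective a')
    (haL : ∀ s, Lc V c r φ (a s)) (haL' : ∀ s, Lc V c r φ (a' s)) {x z : ι} (hxz : x ≠ z)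
    (s s' : Fin 3) (hs : a s = z) (hs' : a' s' = x) :
    F3 V b (Eab 1 x z u) c r φ a a'
      = F3 V b u c r φ (update a s x) a' + F3 V b u c r φ a (update a' s' z) := by
  have hcase : ∀ t : α, (∃ s, φ s = t) ∨ (∀ s, φ s ≠ t) := by
    intro t
    by_cases h : ∃ s, φ s = t
    · exact Or.inl h
    · exact Or.inr (fun s hs => h ⟨s, hs⟩)
  have injrow : Injective (ext3 φ a c) := by
    intro t t' h
    rcases hcase t with ⟨s, rfl⟩ | h1 <;> rcases hcase t' with ⟨s', rfl⟩ | h2
    · rw [ext3_apply hφ, ext3_apply hφ] at h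
      rw [ha h]
    · rw [ext3_apply hφ, ext3_of_ne _ _ h2] at h
      exact absurd h.symm ((haL s).2 t' h2).1
    · rw [ext3_apply hφ, ext3_of_ne _ _ h1] at h
      exact absurd h ((haL s').2 t h1).1
    · rw [ext3_of_ne _ _ h1, ext3_of_ne _ _ h2] at h
      exact hcr.ci h
  have injcol : Injective (ext3 φ a' r) := by
    intro t t' h
    rcases hcase t with ⟨s, rfl⟩ | h1 <;> rcases hcase t' with ⟨s', rfl⟩ | h2
    · rw [ext3_apply hφ, ext3_apply hφ] at h
      rw [ha' h]
    · rw [ext3_apply hφ, ext3_of_ne _ _ h2] at h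
      exact absurd h.symm ((haL' s).2 t' h2).2
    · rw [ext3_apply hφ, ext3_of_ne _ _ h1] at h
      exact absurd h ((haL' s').2 t h1).2
    · rw [ext3_of_ne _ _ h1, ext3_of_ne _ _ h2] at h
      exact hcr.ri h
  unfold F3
  rw [Phi_E_both hu hα injrow injcol hxz (by rw [← hs']; exact (haL' s').1)
    (by rw [← hs]; exact (haL s).1) (φ s) (φ s') (by rw [ext3_apply hφ, hs])
    (by rw [ext3_apply hφ, hs']), ext3_update hφ, ext3_update hφ]

omit [Fintype ι] in
/-- the rule for `E_{xz}`, `z` a row, `x` not a column -/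
theorem F3_E_row {V : Finset ι} {b : ℕ} {u : WW ι K} (hu : Dm V b u)
    (hα : Fintype.card α = 2 * b + 1) {c r : α → ι} (hcr : Cond V c r) {φ : Fin 3 → α}
    (hφ : Injective φ) {a a' : Fin 3 → ι} (ha : Injective a) (ha' : Injective a')
    (haL : ∀ s, Lc V c r φ (a s)) (haL' : ∀ s, Lc V c r φ (a' s)) {x z : ι} (hxz : x ≠ z)
    (hx : Lc V c r φ x)
    (s : Fin 3) (hs : a s = z) (hs' : ∀ s', a' s' ≠ x) :
    F3 V b (Eab 1 x z u) c r φ a a' = F3 V b u c r φ (update a s x) a' := by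
  have hcase : ∀ t : α, (∃ s, φ s = t) ∨ (∀ s, φ s ≠ t) := by
    intro t
    by_cases h : ∃ s, φ s = t
    · exact Or.inl h
    · exact Or.inr (fun s hs => h ⟨s, hs⟩)
  have injrow : Injective (ext3 φ a c) := by
    intro t t' h
    rcases hcase t with ⟨s, rfl⟩ | h1 <;> rcases hcase t' with ⟨s', rfl⟩ | h2
    · rw [ext3_apply hφ, ext3_apply hφ] at h
      rw [ha h]
    · rw [ext3_apply hφ, ext3_of_ne _ _ h2] at h
      exact absurd h.symm ((haL s).2 t' h2).1
    · rw [ext3_apply hφ, ext3_of_ne _ _ h1] at h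
      exact absurd h ((haL s').2 t h1).1
    · rw [ext3_of_ne _ _ h1, ext3_of_ne _ _ h2] at h
      exact hcr.ci h
  have injcol : Injective (ext3 φ a' r) := by
    intro t t' h
    rcases hcase t with ⟨s, rfl⟩ | h1 <;> rcases hcase t' with ⟨s', rfl⟩ | h2
    · rw [ext3_apply hφ, ext3_apply hφ] at h
      rw [ha' h]
    · rw [ext3_apply hφ, ext3_of_ne _ _ h2] at h
      exact absurd h.symm ((haL' s).2 t' h2).2
    · rw [ext3_apply hφ, ext3_of_ne _ _ h1] at h
      exact absurd h ((haL' s').2 t h1).2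
    · rw [ext3_of_ne _ _ h1, ext3_of_ne _ _ h2] at h
      exact hcr.ri h
  unfold F3
  rw [Phi_E_row hu hα injrow injcol hxz hx.1
    (by rw [← hs]; exact (haL s).1) (φ s) (by rw [ext3_apply hφ, hs]) ?_, ext3_update hφ]
  intro i
  rcases hcase i with ⟨s', rfl⟩ | h1
  · rw [ext3_apply hφ]; exact hs' s'
  · rw [ext3_of_ne _ _ h1]; exact (hx.2 i h1).2

omit [Fintype ι] in
/-- the rule for `E_{xz}`, `x` a column, `z` not a row -/
theorem F3_E_col {V : Finset ι} {b : ℕ} {u : WW ι K} (hu : Dm V b u)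
    (hα : Fintype.card α = 2 * b + 1) {c r : α → ι} (hcr : Cond V c r) {φ : Fin 3 → α}
    (hφ : Injective φ) {a a' : Fin 3 → ι} (ha : Injective a) (ha' : Injective a')
    (haL : ∀ s, Lc V c r φ (a s)) (haL' : ∀ s, Lc V c r φ (a' s)) {x z : ι} (hxz : x ≠ z)
    (hz : Lc V c r φ z)
    (s' : Fin 3) (hs : ∀ s, a s ≠ z) (hs' : a' s' = x) :
    F3 V b (Eab 1 x z u) c r φ a a' = F3 V b u c r φ a (update a' s' z) := by
  have hcase : ∀ t : α, (∃ s, φ s = t) ∨ (∀ s, φ s ≠ t) := by
    intro t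
    by_cases h : ∃ s, φ s = t
    · exact Or.inl h
    · exact Or.inr (fun s hs => h ⟨s, hs⟩)
  have injrow : Injective (ext3 φ a c) := by
    intro t t' h
    rcases hcase t with ⟨s, rfl⟩ | h1 <;> rcases hcase t' with ⟨s', rfl⟩ | h2
    · rw [ext3_apply hφ, ext3_apply hφ] at h
      rw [ha h]
    · rw [ext3_apply hφ, ext3_of_ne _ _ h2] at h
      exact absurd h.symm ((haL s).2 t' h2).1
    · rw [ext3_apply hφ, ext3_of_ne _ _ h1] at h
      exact absurd h ((haL s').2 t h1).1
    · rw [ext3_of_ne _ _ h1, ext3_of_ne _ _ h2] at h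
      exact hcr.ci h
  have injcol : Injective (ext3 φ a' r) := by
    intro t t' h
    rcases hcase t with ⟨s, rfl⟩ | h1 <;> rcases hcase t' with ⟨s', rfl⟩ | h2
    · rw [ext3_apply hφ, ext3_apply hφ] at h
      rw [ha' h]
    · rw [ext3_apply hφ, ext3_of_ne _ _ h2] at h
      exact absurd h.symm ((haL' s).2 t' h2).2
    · rw [ext3_apply hφ, ext3_of_ne _ _ h1] at h
      exact absurd h ((haL' s').2 t h1).2
    · rw [ext3_of_ne _ _ h1, ext3_of_ne _ _ h2] at h
      exact hcr.ri h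
  unfold F3
  rw [Phi_E_col hu hα injrow injcol hxz (by rw [← hs']; exact (haL' s').1)
    hz.1 (φ s') (by rw [ext3_apply hφ, hs']) ?_, ext3_update hφ]
  intro i
  rcases hcase i with ⟨s', rfl⟩ | h1
  · rw [ext3_apply hφ]; exact hs s'
  · rw [ext3_of_ne _ _ h1]; exact (hz.2 i h1).1

end MP_d81877_alI
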