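import Mathlib
import Pool.Agent.Lib.MP_d81877_alI.Loc

/-!
MP_d81877_al, invariance: the vanishing of `Phi` on the radical for `k < 2 b + 1` coincidences.
-/

namespace MP_d81877_alI

open Finset Function

variable {ι K α : Type*} [DecidableEq ι] [Fintype ι] [Field K] [CharP K 2] [Fintype α]
  [DecidableEq α]

/-- the statement `A_k` -/
def Van (K α : Type*) [Field K] [Fintype α] [DecidableEq α] (V : Finset ι) (b k : ℕ) : Prop :=
  ∀ u : WW ι K, Rm V b u → ∀ c r : α → ι, Cond V c r → coin c r = k → Phi V b u c r = 0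

/-- the radical is stable under the root vectors -/
def Est (K : Type*) [Field K] (V : Finset ι) (b : ℕ) : Prop :=
  ∀ u : WW ι K, Rm V b u → ∀ x ∈ V, ∀ z ∈ V, x ≠ z → Rm V b (Eab 1 x z u)

theorem van_zero {V : Finset ι} {b : ℕ} (hα : Fintype.card α = 2 * b + 1) :
    Van K α V b 0 := by
  intro u hu c r hcr h0
  apply Phi_zero hu hα hcr.ci hcr.ri hcr.cV hcr.rV
  intro i j h
  by_cases hij : i = j
  · subst hij
    unfold coin at h0
    rw [Finset.card_eq_zero] at h0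
    have : i ∈ (univ.filter (fun i => c i = r i)) := by simpa using h
    rw [h0] at this
    simp at this
  · exact hcr.ne i j hij h

omit [CharP K 2] in
theorem F3_van {V : Finset ι} {b k : ℕ} (hk : Van K α V b k) {u : WW ι K} (hu : Rm V b u)
    {c r : α → ι} (hcr : Cond V c r) {φ : Fin 3 → α} (hφ : Injective φ)
    {v : Fin 6 → ι} (hv : Injective v) (hL : ∀ i, Lc V c r φ (v i)) (σ τ : Fin 3 → Fin 6)
    (hσ : Injective σ) (hτ : Injective τ) (hst : ∀ s s', s ≠ s' → σ s ≠ τ s')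
    (hcount : coin' c r φ + (univ.filter (fun s => σ s = τ s)).card = k) :
    F3 V b u c r φ (v ∘ σ) (v ∘ τ) = 0 := by
  unfold F3
  apply hk u hu
  · exact cond_ext3 hcr hφ (hv.comp hσ) (hv.comp hτ) (fun s => hL _) (fun s => hL _)
      (fun s s' h h' => hst s s' h (hv h'))
  · rw [coin_ext3 hφ, ← hcount]
    congr 2
    ext s
    simp only [Finset.mem_filter, Finset.mem_univ, true_and, Function.comp_apply]
    exact hv.eq_iff

omit [Fintype ι] [CharP K 2] in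
theorem F3_Ev {V : Finset ι} {b : ℕ} {u : WW ι K} (hu : Dm V b u)
    (hα : Fintype.card α = 2 * b + 1)
    {c r : α → ι} (hcr : Cond V c r) {φ : Fin 3 → α} (hφ : Injective φ)
    {v : Fin 6 → ι} (hv : Injective v) (hL : ∀ i, Lc V c r φ (v i)) (σ τ : Fin 3 → Fin 6)
    (hσ : Injective σ) (hτ : Injective τ) (s s' : Fin 3) (x z : Fin 6) (hxz : x ≠ z)
    (hs : σ s = z) (hs' : τ s' = x) :
    F3 V b (Eab 1 (v x) (v z) u) c r φ (v ∘ σ) (v ∘ τ)
      = F3 V b u c r φ (v ∘ update σ s x) (v ∘ τ)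
        + F3 V b u c r φ (v ∘ σ) (v ∘ update τ s' z) := by
  rw [F3_E hu hα hcr hφ (hv.comp hσ) (hv.comp hτ) (fun s => hL _) (fun s => hL _)
    (fun h => hxz (hv h)) s s' (by rw [Function.comp_apply, hs]) (by rw [Function.comp_apply, hs'])]
  have e : ∀ (f : Fin 3 → Fin 6) (i : Fin 3) (y : Fin 6),
      update (v ∘ f) i (v y) = v ∘ update f i y := by
    intro f i y
    rw [Function.comp_update]
  rw [e, e]

/-- the difference lemma -/
theorem F3_diff {V : Finset ι} {b k : ℕ} (hk : Van K α V b k) (hE : Est K V b) {u : WW ι K}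
    (hu : Rm V b u) (hα : Fintype.card α = 2 * b + 1)
    {c r : α → ι} (hcr : Cond V c r) {φ : Fin 3 → α} (hφ : Injective φ)
    {v : Fin 6 → ι} (hv : Injective v) (hL : ∀ i, Lc V c r φ (v i)) (σ τ : Fin 3 → Fin 6)
    (hσ : Injective σ) (hτ : Injective τ) (hst : ∀ s s', s ≠ s' → σ s ≠ τ s')
    (hcount : coin' c r φ + (univ.filter (fun s => σ s = τ s)).card = k)
    (s s' : Fin 3) (x z : Fin 6) (hxz : x ≠ z) (hs : σ s = z) (hs' : τ s' = x) :
    F3 V b u c r φ (v ∘ update σ s x) (v ∘ τ)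
      = F3 V b u c r φ (v ∘ σ) (v ∘ update τ s' z) := by
  have h1 := F3_Ev hu.dm hα hcr hφ hv hL σ τ hσ hτ s s' x z hxz hs hs'
  rw [F3_van hk (hE u hu (v x) (hL x).1 (v z) (hL z).1 (fun h => hxz (hv h))) hcr hφ hv hL σ τ
    hσ hτ hst hcount] at h1
  exact CharTwo.add_eq_zero.1 h1.symm

omit [Fintype ι] [CharP K 2] in
theorem F3_Ev_row {V : Finset ι} {b : ℕ} {u : WW ι K} (hu : Dm V b u)
    (hα : Fintype.card α = 2 * b + 1)
    {c r : α → ι} (hcr : Cond V c r) {φ : Fin 3 → α} (hφ : Injective φ)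
    {v : Fin 6 → ι} (hv : Injective v) (hL : ∀ i, Lc V c r φ (v i)) (σ τ : Fin 3 → Fin 6)
    (hσ : Injective σ) (hτ : Injective τ) (s : Fin 3) (x z : Fin 6) (hxz : x ≠ z)
    (hs : σ s = z) (hs' : ∀ s', τ s' ≠ x) :
    F3 V b (Eab 1 (v x) (v z) u) c r φ (v ∘ σ) (v ∘ τ)
      = F3 V b u c r φ (v ∘ update σ s x) (v ∘ τ) := by
  rw [F3_E_row hu hα hcr hφ (hv.comp hσ) (hv.comp hτ) (fun s => hL _) (fun s => hL _)
    (fun h => hxz (hv h)) (hL x) s (by rw [Function.comp_apply, hs])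
    (fun s' h => hs' s' (hv h)), Function.comp_update]

omit [Fintype ι] [CharP K 2] in
theorem F3_Ev_col {V : Finset ι} {b : ℕ} {u : WW ι K} (hu : Dm V b u)
    (hα : Fintype.card α = 2 * b + 1)
    {c r : α → ι} (hcr : Cond V c r) {φ : Fin 3 → α} (hφ : Injective φ)
    {v : Fin 6 → ι} (hv : Injective v) (hL : ∀ i, Lc V c r φ (v i)) (σ τ : Fin 3 → Fin 6)
    (hσ : Injective σ) (hτ : Injective τ) (s' : Fin 3) (x z : Fin 6) (hxz : x ≠ z)
    (hs : ∀ s, σ s ≠ z) (hs' : τ s' = x) :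
    F3 V b (Eab 1 (v x) (v z) u) c r φ (v ∘ σ) (v ∘ τ)
      = F3 V b u c r φ (v ∘ σ) (v ∘ update τ s' z) := by
  rw [F3_E_col hu hα hcr hφ (hv.comp hσ) (hv.comp hτ) (fun s => hL _) (fun s => hL _)
    (fun h => hxz (hv h)) (hL z) s' (fun s h => hs s (hv h)) (by rw [Function.comp_apply, hs']),
    Function.comp_update]

omit [Fintype ι] [CharP K 2] in
theorem F3_swv (V : Finset ι) (b : ℕ) (u : WW ι K) (c r : α → ι) {φ : Fin 3 → α}
    (hφ : Injective φ) (v : Fin 6 → ι) (σ τ σ' τ' : Fin 3 → Fin 6) (s s' : Fin 3)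
    (h : σ' = σ ∘ Equiv.swap s s') (h' : τ' = τ ∘ Equiv.swap s s') :
    F3 V b u c r φ (v ∘ σ') (v ∘ τ') = F3 V b u c r φ (v ∘ σ) (v ∘ τ) := by
  rw [h, h', ← Function.comp_assoc, ← Function.comp_assoc, F3_swap V b u c r hφ]

section one

variable {V : Finset ι} {b : ℕ} (hE : Est K V b) {u : WW ι K}
    (hu : Rm V b u) (hα : Fintype.card α = 2 * b + 1)
    {c r : α → ι} (hcr : Cond V c r) {φ : Fin 3 → α} (hφ : Injective φ)
    {v : Fin 6 → ι} (hv : Injective v) (hL : ∀ i, Lc V c r φ (v i)) (h0 : coin' c r φ = 0)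

include hE hu hα hcr hφ hv hL h0

theorem G1 : F3 V b u c r φ (v ∘ ![1, 2, 3]) (v ∘ ![4, 1, 5])
    = F3 V b u c r φ (v ∘ ![0, 2, 3]) (v ∘ ![4, 0, 5]) := by
  have h := F3_diff (van_zero hα) hE hu hα hcr hφ hv hL ![0, 2, 3] ![4, 1, 5] (by decide)
    (by decide) (by decide) (by rw [h0]; decide) 0 1 1 0 (by decide) rfl rfl
  have e1 : update (![0, 2, 3] : Fin 3 → Fin 6) 0 1 = ![1, 2, 3] := by decide
  have e2 : update (![4, 1, 5] : Fin 3 → Fin 6) 1 0 = ![4, 0, 5] := by decide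
  rw [e1, e2] at h
  exact h

theorem G2 : F3 V b u c r φ (v ∘ ![3, 2, 3]) (v ∘ ![4, 3, 5])
    = F3 V b u c r φ (v ∘ ![0, 2, 3]) (v ∘ ![4, 0, 5])
      + F3 V b u c r φ (v ∘ ![0, 2, 3]) (v ∘ ![5, 0, 4]) := by
  have hu' := hE u hu (v 3) (hL 3).1 (v 0) (hL 0).1 (fun h => absurd (hv h) (by decide))
  have h1 := F3_Ev hu.dm hα hcr hφ hv hL ![0, 2, 3] ![4, 3, 5] (by decide) (by decide) 0 1 3 0
    (by decide) rfl rfl
  have h2 := F3_diff (van_zero hα) hE hu' hα hcr hφ hv hL ![0, 2, 3] ![4, 1, 5] (by decide)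
    (by decide) (by decide) (by rw [h0]; decide) 2 1 1 3 (by decide) rfl rfl
  have h3 := F3_Ev_row hu.dm hα hcr hφ hv hL ![0, 2, 1] ![4, 1, 5] (by decide) (by decide) 0 3 0
    (by decide) rfl (by decide)
  have h4 := F3_swv V b u c r hφ v ![3, 2, 1] ![4, 1, 5] ![1, 2, 3] ![5, 1, 4] 0 2 (by decide)
    (by decide)
  have h5 := F3_diff (van_zero hα) hE hu hα hcr hφ hv hL ![0, 2, 3] ![5, 1, 4] (by decide)
    (by decide) (by decide) (by rw [h0]; decide) 0 1 1 0 (by decide) rfl rfl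
  have e1 : update (![0, 2, 3] : Fin 3 → Fin 6) 0 3 = ![3, 2, 3] := by decide
  have e2 : update (![4, 3, 5] : Fin 3 → Fin 6) 1 0 = ![4, 0, 5] := by decide
  have e3 : update (![0, 2, 3] : Fin 3 → Fin 6) 2 1 = ![0, 2, 1] := by decide
  have e4 : update (![4, 1, 5] : Fin 3 → Fin 6) 1 3 = ![4, 3, 5] := by decide
  have e5 : update (![0, 2, 1] : Fin 3 → Fin 6) 0 3 = ![3, 2, 1] := by decide
  have e6 : update (![0, 2, 3] : Fin 3 → Fin 6) 0 1 = ![1, 2, 3] := by decide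
  have e7 : update (![5, 1, 4] : Fin 3 → Fin 6) 1 0 = ![5, 0, 4] := by decide
  rw [e1, e2] at h1
  rw [e3, e4] at h2
  rw [e5] at h3
  rw [e6, e7] at h5
  rw [← h2, h3, ← h4, h5] at h1
  rw [eq_comm, ← CharTwo.add_eq_zero] at h1
  rw [← CharTwo.add_eq_zero, ← h1]
  ring

theorem G3 : F3 V b u c r φ (v ∘ ![5, 2, 3]) (v ∘ ![4, 5, 5])
    = F3 V b u c r φ (v ∘ ![0, 2, 3]) (v ∘ ![4, 0, 5])
      + F3 V b u c r φ (v ∘ ![0, 2, 3]) (v ∘ ![4, 5, 0]) := by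
  have hu' := hE u hu (v 1) (hL 1).1 (v 5) (hL 5).1 (fun h => absurd (hv h) (by decide))
  have h1 := F3_Ev hu.dm hα hcr hφ hv hL ![5, 2, 3] ![4, 1, 5] (by decide) (by decide) 0 1 1 5
    (by decide) rfl rfl
  have h0' := G1 hE hu hα hcr hφ hv hL h0
  have h2 := F3_diff (van_zero hα) hE hu' hα hcr hφ hv hL ![5, 2, 3] ![4, 1, 0] (by decide)
    (by decide) (by decide) (by rw [h0]; decide) 0 2 0 5 (by decide) rfl rfl
  have h3 := F3_Ev_col hu.dm hα hcr hφ hv hL ![0, 2, 3] ![4, 1, 0] (by decide) (by decide) 1 1 5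
    (by decide) (by decide) rfl
  have e1 : update (![5, 2, 3] : Fin 3 → Fin 6) 0 1 = ![1, 2, 3] := by decide
  have e2 : update (![4, 1, 5] : Fin 3 → Fin 6) 1 5 = ![4, 5, 5] := by decide
  have e3 : update (![5, 2, 3] : Fin 3 → Fin 6) 0 0 = ![0, 2, 3] := by decide
  have e4 : update (![4, 1, 0] : Fin 3 → Fin 6) 2 5 = ![4, 1, 5] := by decide
  have e5 : update (![4, 1, 0] : Fin 3 → Fin 6) 1 5 = ![4, 5, 0] := by decide
  rw [e1, e2] at h1
  rw [e3, e4] at h2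
  rw [e5] at h3
  rw [h0', ← h2, h3] at h1
  rw [eq_comm, ← CharTwo.add_eq_zero] at h1
  rw [← CharTwo.add_eq_zero, ← h1]
  ring

theorem G4 : F3 V b u c r φ (v ∘ ![2, 2, 3]) (v ∘ ![4, 2, 5])
    = F3 V b u c r φ (v ∘ ![0, 2, 3]) (v ∘ ![4, 0, 5])
      + F3 V b u c r φ (v ∘ ![0, 2, 3]) (v ∘ ![0, 4, 5]) := by
  have hu' := hE u hu (v 2) (hL 2).1 (v 1) (hL 1).1 (fun h => absurd (hv h) (by decide))
  have h1 := F3_Ev hu.dm hα hcr hφ hv hL ![1, 2, 3] ![4, 2, 5] (by decide) (by decide) 0 1 2 1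
    (by decide) rfl rfl
  have h0' := G1 hE hu hα hcr hφ hv hL h0
  have h2 := F3_diff (van_zero hα) hE hu' hα hcr hφ hv hL ![1, 2, 3] ![4, 0, 5] (by decide)
    (by decide) (by decide) (by rw [h0]; decide) 1 1 0 2 (by decide) rfl rfl
  have h3 := F3_Ev_row hu.dm hα hcr hφ hv hL ![1, 0, 3] ![4, 0, 5] (by decide) (by decide) 0 2 1
    (by decide) rfl (by decide)
  have h4 := F3_swv V b u c r hφ v ![2, 0, 3] ![4, 0, 5] ![0, 2, 3] ![0, 4, 5] 0 1 (by decide)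
    (by decide)
  have e1 : update (![1, 2, 3] : Fin 3 → Fin 6) 0 2 = ![2, 2, 3] := by decide
  have e2 : update (![4, 2, 5] : Fin 3 → Fin 6) 1 1 = ![4, 1, 5] := by decide
  have e3 : update (![1, 2, 3] : Fin 3 → Fin 6) 1 0 = ![1, 0, 3] := by decide
  have e4 : update (![4, 0, 5] : Fin 3 → Fin 6) 1 2 = ![4, 2, 5] := by decide
  have e5 : update (![1, 0, 3] : Fin 3 → Fin 6) 0 2 = ![2, 0, 3] := by decide
  rw [e1, e2] at h1
  rw [e3, e4] at h2
  rw [e5] at h3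
  rw [h0', ← h2, h3, ← h4] at h1
  rw [eq_comm, ← CharTwo.add_eq_zero] at h1
  rw [← CharTwo.add_eq_zero, ← h1]
  ring

theorem G5 : F3 V b u c r φ (v ∘ ![4, 2, 3]) (v ∘ ![4, 4, 5])
    = F3 V b u c r φ (v ∘ ![0, 2, 3]) (v ∘ ![4, 0, 5])
      + F3 V b u c r φ (v ∘ ![0, 2, 3]) (v ∘ ![0, 4, 5]) := by
  have hu' := hE u hu (v 1) (hL 1).1 (v 4) (hL 4).1 (fun h => absurd (hv h) (by decide))
  have h1 := F3_Ev hu.dm hα hcr hφ hv hL ![4, 2, 3] ![4, 1, 5] (by decide) (by decide) 0 1 1 4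
    (by decide) rfl rfl
  have h0' := G1 hE hu hα hcr hφ hv hL h0
  have h2 := F3_diff (van_zero hα) hE hu' hα hcr hφ hv hL ![4, 2, 3] ![0, 1, 5] (by decide)
    (by decide) (by decide) (by rw [h0]; decide) 0 0 0 4 (by decide) rfl rfl
  have h3 := F3_Ev_col hu.dm hα hcr hφ hv hL ![0, 2, 3] ![0, 1, 5] (by decide) (by decide) 1 1 4
    (by decide) (by decide) rfl
  have e1 : update (![4, 2, 3] : Fin 3 → Fin 6) 0 1 = ![1, 2, 3] := by decide
  have e2 : update (![4, 1, 5] : Fin 3 → Fin 6) 1 4 = ![4, 4, 5] := by decide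
  have e3 : update (![4, 2, 3] : Fin 3 → Fin 6) 0 0 = ![0, 2, 3] := by decide
  have e4 : update (![0, 1, 5] : Fin 3 → Fin 6) 0 4 = ![4, 1, 5] := by decide
  have e5 : update (![0, 1, 5] : Fin 3 → Fin 6) 1 4 = ![0, 4, 5] := by decide
  rw [e1, e2] at h1
  rw [e3, e4] at h2
  rw [e5] at h3
  rw [h0', ← h2, h3] at h1
  rw [eq_comm, ← CharTwo.add_eq_zero] at h1
  rw [← CharTwo.add_eq_zero, ← h1]
  ring

omit hE h0 in
theorem Gspin : F3 V b u c r φ (v ∘ ![0, 2, 3]) (v ∘ ![0, 4, 5])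
    + F3 V b u c r φ (v ∘ ![0, 2, 3]) (v ∘ ![4, 5, 0])
    + F3 V b u c r φ (v ∘ ![0, 2, 3]) (v ∘ ![5, 0, 4]) = 0 := by
  have h := F3_spin hu.dm.prm hα hcr hφ (a := v ∘ ![0, 2, 3]) (a' := v ∘ ![0, 4, 5])
    (hv.comp (by decide)) (hv.comp (by decide)) (fun s => hL _) (fun s => hL _)
  have e1 : (fun s => (v ∘ ![0, 4, 5]) (s + 1)) = v ∘ ![4, 5, 0] := by
    funext s
    fin_cases s <;> rfl
  have e2 : (fun s => (v ∘ ![0, 4, 5]) (s + 2)) = v ∘ ![5, 0, 4] := by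
    funext s
    fin_cases s <;> rfl
  rw [e1, e2] at h
  exact h

end one

end MP_d81877_alI
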