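import Mathlib
import Pool.Agent.Lib.MP_d81877_alI.AK

/-!
MP_d81877_al, invariance: the statement `A_1`.
-/

namespace MP_d81877_alI

open Finset Function

variable {ι K α : Type*} [DecidableEq ι] [Fintype ι] [Field K] [CharP K 2] [Fintype α]
  [DecidableEq α]

omit [DecidableEq ι] [Fintype ι] [Fintype α] [DecidableEq α] in
theorem ext3_self {φ : Fin 3 → α} (hφ : Injective φ) (f : α → ι) : ext3 φ (f ∘ φ) f = f := by
  funext t
  by_cases h : ∃ s', φ s' = t
  · obtain ⟨s', rfl⟩ := h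
    rw [ext3_apply hφ]
    rfl
  · have h' : ∀ s', φ s' ≠ t := fun s' hs' => h ⟨s', hs'⟩
    rw [ext3_of_ne _ _ h']

omit [Fintype α] [DecidableEq α] in
theorem inj_three {p o i : α} (h1 : p ≠ o) (h2 : p ≠ i) (h3 : o ≠ i) :
    Injective (![p, o, i] : Fin 3 → α) := by
  intro s t h
  fin_cases s <;> fin_cases t <;> simp_all

/-- the hypotheses for the sum over all sites -/
theorem van_one {V : Finset ι} {b : ℕ} (hE : Est K V b) (hα : Fintype.card α = 2 * b + 1)
    (hb : 1 ≤ b) (hV : Even V.card) (hroom : 4 * b + 4 ≤ V.card) : Van K α V b 1 := by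
  intro u hu c r hcr h1
  -- the position of the coincidence
  unfold coin at h1
  rw [Finset.card_eq_one] at h1
  obtain ⟨p, hp⟩ := h1
  have hcp : c p = r p := by
    have : p ∈ univ.filter (fun i => c i = r i) := by rw [hp]; simp
    simpa using this
  have hother : ∀ i, i ≠ p → c i ≠ r i := by
    intro i hi h
    have : i ∈ univ.filter (fun i => c i = r i) := by simpa using h
    rw [hp, Finset.mem_singleton] at this
    exact hi this
  have hne : ∀ i j, i ≠ p ∨ j ≠ p → c i ≠ r j := by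
    intro i j hij
    by_cases h : i = j
    · subst h
      exact hother i (by tauto)
    · exact hcr.ne i j h
  set z := c p with hz
  -- used values
  set Uc := (univ.erase p).image c with hUc
  set Ur := (univ.erase p).image r with hUr
  have hcard1 : (univ.erase p : Finset α).card = 2 * b := by
    rw [Finset.card_erase_of_mem (Finset.mem_univ p), Finset.card_univ, hα]
    omega
  have hUcc : Uc.card = 2 * b := by
    rw [hUc, Finset.card_image_of_injective _ hcr.ci, hcard1]
  have hUrc : Ur.card = 2 * b := by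
    rw [hUr, Finset.card_image_of_injective _ hcr.ri, hcard1]
  have hdisj : Disjoint Uc Ur := by
    rw [Finset.disjoint_left]
    intro x hx hx'
    obtain ⟨i, hi, rfl⟩ := Finset.mem_image.1 hx
    obtain ⟨j, hj, hij⟩ := Finset.mem_image.1 hx'
    exact hne i j (Or.inl (Finset.ne_of_mem_erase hi)) hij.symm
  have hUV : Uc ∪ Ur ⊆ V := by
    intro x hx
    rcases Finset.mem_union.1 hx with h | h
    · obtain ⟨i, _, rfl⟩ := Finset.mem_image.1 h
      exact hcr.cV i
    · obtain ⟨i, _, rfl⟩ := Finset.mem_image.1 h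
      exact hcr.rV i
  have hUcard : (Uc ∪ Ur).card = 4 * b := by
    rw [Finset.card_union_of_disjoint hdisj, hUcc, hUrc]
    ring
  have hfree : (V \ (Uc ∪ Ur)).card + 4 * b = V.card := by
    have := Finset.card_sdiff_add_card_eq_card hUV
    rw [hUcard] at this
    exact this
  have hzfree : z ∈ V \ (Uc ∪ Ur) := by
    rw [Finset.mem_sdiff, Finset.mem_union]
    refine ⟨hcr.cV p, ?_⟩
    rintro (h | h)
    · obtain ⟨i, hi, hi2⟩ := Finset.mem_image.1 h
      exact Finset.ne_of_mem_erase hi (hcr.ci hi2)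
    · obtain ⟨i, hi, hi2⟩ := Finset.mem_image.1 h
      exact hne p i (Or.inr (Finset.ne_of_mem_erase hi)) hi2.symm
  -- a second free value
  obtain ⟨w, hw, hwz⟩ : ∃ w ∈ V \ (Uc ∪ Ur), w ≠ z := by
    apply Finset.exists_mem_ne
    omega
  -- positions
  obtain ⟨o, ho⟩ : ∃ o : α, o ≠ p := by
    have : (univ.erase p : Finset α).Nonempty := by
      rw [← Finset.card_pos, hcard1]; omega
    obtain ⟨o, ho⟩ := this
    exact ⟨o, Finset.ne_of_mem_erase ho⟩
  have hcard2 : ((univ.erase p).erase o : Finset α).card = 2 * b - 1 := by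
    rw [Finset.card_erase_of_mem (Finset.mem_erase.2 ⟨ho, Finset.mem_univ _⟩), hcard1]
  obtain ⟨i0, hi0⟩ : ∃ i0, i0 ∈ ((univ.erase p).erase o : Finset α) := by
    have : ((univ.erase p).erase o : Finset α).Nonempty := by
      rw [← Finset.card_pos, hcard2]; omega
    exact this
  -- the function
  let G : ι → K := fun x => Phi V b u (update c p x) (update (update r p (r o)) o x)
  have hG0 : ∑ x ∈ V, G x = 0 := Phi_contract hu.dm hα c (update r p (r o)) p o
  -- local data for a third position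
  have loc : ∀ i ∈ ((univ.erase p).erase o : Finset α), ∀ y ∈ V \ (Uc ∪ Ur), y ≠ z →
      ∃ (φ : Fin 3 → α) (v : Fin 6 → ι), Injective φ ∧ φ 0 = p ∧ φ 1 = o ∧ φ 2 = i ∧
        Injective v ∧ v = ![z, y, c o, c i, r o, r i] ∧
        (∀ j, Lc V c r φ (v j)) ∧ coin' c r φ = 0 := by
    intro i hi y hy hyz
    rw [Finset.mem_erase, Finset.mem_erase] at hi
    obtain ⟨hio, hip, -⟩ := hi
    have hφ : Injective (![p, o, i] : Fin 3 → α) := inj_three ho.symm hip.symm hio.symm
    rw [Finset.mem_sdiff, Finset.mem_union, not_or] at hy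
    obtain ⟨hyV, hyc, hyr⟩ := hy
    have hyc' : ∀ t, t ≠ p → c t ≠ y := fun t ht h =>
      hyc (Finset.mem_image.2 ⟨t, Finset.mem_erase.2 ⟨ht, Finset.mem_univ _⟩, h⟩)
    have hyr' : ∀ t, t ≠ p → r t ≠ y := fun t ht h =>
      hyr (Finset.mem_image.2 ⟨t, Finset.mem_erase.2 ⟨ht, Finset.mem_univ _⟩, h⟩)
    refine ⟨![p, o, i], ![z, y, c o, c i, r o, r i], hφ, rfl, rfl, rfl, ?_, rfl, ?_, ?_⟩
    · have d01 : z ≠ y := hyz.symm
      have d02 : z ≠ c o := fun h => ho (hcr.ci h).symm
      have d03 : z ≠ c i := fun h => hip (hcr.ci h).symm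
      have d04 : z ≠ r o := hne p o (Or.inr ho)
      have d05 : z ≠ r i := hne p i (Or.inr hip)
      have d12 : y ≠ c o := fun h => hyc' o ho h.symm
      have d13 : y ≠ c i := fun h => hyc' i hip h.symm
      have d14 : y ≠ r o := fun h => hyr' o ho h.symm
      have d15 : y ≠ r i := fun h => hyr' i hip h.symm
      have d23 : c o ≠ c i := fun h => hio (hcr.ci h).symm
      have d24 : c o ≠ r o := hne o o (Or.inl ho)
      have d25 : c o ≠ r i := hne o i (Or.inl ho)
      have d34 : c i ≠ r o := hne i o (Or.inl hip)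
      have d35 : c i ≠ r i := hne i i (Or.inl hip)
      have d45 : r o ≠ r i := fun h => hio (hcr.ri h).symm
      intro s t h
      fin_cases s <;> fin_cases t <;> first
        | rfl
        | exact absurd h d01 | exact absurd h d02 | exact absurd h d03 | exact absurd h d04
        | exact absurd h d05 | exact absurd h d12 | exact absurd h d13 | exact absurd h d14
        | exact absurd h d15 | exact absurd h d23 | exact absurd h d24 | exact absurd h d25
        | exact absurd h d34 | exact absurd h d35 | exact absurd h d45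
        | exact absurd h.symm d01 | exact absurd h.symm d02 | exact absurd h.symm d03
        | exact absurd h.symm d04 | exact absurd h.symm d05 | exact absurd h.symm d12
        | exact absurd h.symm d13 | exact absurd h.symm d14 | exact absurd h.symm d15
        | exact absurd h.symm d23 | exact absurd h.symm d24 | exact absurd h.symm d25
        | exact absurd h.symm d34 | exact absurd h.symm d35 | exact absurd h.symm d45
    · intro j
      have hrest : ∀ t, (∀ s, (![p, o, i] : Fin 3 → α) s ≠ t) → t ≠ p ∧ t ≠ o ∧ t ≠ i :=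
        fun t ht => ⟨fun h => ht 0 h.symm, fun h => ht 1 h.symm, fun h => ht 2 h.symm⟩
      fin_cases j
      · refine ⟨hcr.cV p, fun t ht => ⟨fun h => (hrest t ht).1 (hcr.ci h), fun h => ?_⟩⟩
        exact hne p t (Or.inr (hrest t ht).1) h.symm
      · exact ⟨hyV, fun t ht => ⟨hyc' t (hrest t ht).1, hyr' t (hrest t ht).1⟩⟩
      · refine ⟨hcr.cV o, fun t ht => ⟨fun h => (hrest t ht).2.1 (hcr.ci h), fun h => ?_⟩⟩
        exact hne o t (Or.inl ho) h.symm
      · refine ⟨hcr.cV i, fun t ht => ⟨fun h => (hrest t ht).2.2 (hcr.ci h), fun h => ?_⟩⟩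
        exact hne i t (Or.inl hip) h.symm
      · refine ⟨hcr.rV o, fun t ht => ⟨fun h => ?_, fun h => (hrest t ht).2.1 (hcr.ri h)⟩⟩
        exact hne t o (Or.inl (hrest t ht).1) h
      · refine ⟨hcr.rV i, fun t ht => ⟨fun h => ?_, fun h => (hrest t ht).2.2 (hcr.ri h)⟩⟩
        exact hne t i (Or.inl (hrest t ht).1) h
    · unfold coin'
      rw [Finset.card_eq_zero, Finset.filter_eq_empty_iff]
      rintro t _ ⟨ht, h⟩
      exact hother t (fun h => ht 0 h.symm) h
  -- identification of `G` and the other functionals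
  have idc : ∀ (φ : Fin 3 → α) (v : Fin 6 → ι) (i : α), Injective φ → φ 0 = p → φ 1 = o →
      φ 2 = i → v 2 = c o → v 3 = c i → ∀ x : Fin 6,
      ext3 φ (v ∘ ![x, 2, 3]) c = update c p (v x) := by
    intro φ v i hφ h0 h1 h2 hv2 hv3 x
    have : v ∘ ![x, 2, 3] = update (c ∘ φ) 0 (v x) := by
      funext s
      fin_cases s
      · rfl
      · change v 2 = c (φ 1)
        rw [hv2, h1]
      · change v 3 = c (φ 2)
        rw [hv3, h2]
    rw [this, ← ext3_update hφ, ext3_self hφ, h0]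
  have idr : ∀ (φ : Fin 3 → α) (v : Fin 6 → ι) (i : α), Injective φ → φ 0 = p → φ 1 = o →
      φ 2 = i → v 4 = r o → v 5 = r i → ∀ x : Fin 6,
      ext3 φ (v ∘ ![4, x, 5]) r = update (update r p (r o)) o (v x) := by
    intro φ v i hφ h0 h1 h2 hv4 hv5 x
    have : v ∘ ![4, x, 5] = update (update (r ∘ φ) 0 (r o)) 1 (v x) := by
      funext s
      fin_cases s
      · exact hv4
      · rfl
      · change v 5 = r (φ 2)
        rw [hv5, h2]
    rw [this, ← ext3_update hφ, ← ext3_update hφ, ext3_self hφ, h0, h1]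
  have hGF : ∀ (φ : Fin 3 → α) (v : Fin 6 → ι) (i : α), Injective φ → φ 0 = p → φ 1 = o →
      φ 2 = i → v 2 = c o → v 3 = c i → v 4 = r o → v 5 = r i → ∀ x : Fin 6,
      F3 V b u c r φ (v ∘ ![x, 2, 3]) (v ∘ ![4, x, 5]) = G (v x) := by
    intro φ v i hφ h0 h1 h2 hv2 hv3 hv4 hv5 x
    unfold F3
    rw [idc φ v i hφ h0 h1 h2 hv2 hv3, idr φ v i hφ h0 h1 h2 hv4 hv5]
  have hHF : ∀ (φ : Fin 3 → α) (v : Fin 6 → ι) (i : α), Injective φ → φ 0 = p → φ 1 = o →
      φ 2 = i → v 0 = z → v 2 = c o → v 3 = c i → v 4 = r o → v 5 = r i →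
      F3 V b u c r φ (v ∘ ![0, 2, 3]) (v ∘ ![0, 4, 5]) = Phi V b u c r := by
    intro φ v i hφ h0 h1 h2 hv0 hv2 hv3 hv4 hv5
    unfold F3
    rw [idc φ v i hφ h0 h1 h2 hv2 hv3, hv0, hz, update_eq_self]
    congr 1
    have : v ∘ ![0, 4, 5] = r ∘ φ := by
      funext s
      fin_cases s
      · change v 0 = r (φ 0)
        rw [hv0, h0, hcp]
      · change v 4 = r (φ 1)
        rw [hv4, h1]
      · change v 5 = r (φ 2)
        rw [hv5, h2]
    rw [this, ext3_self hφ]
  -- free sites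
  have hfreeG : ∀ x ∈ V \ (Uc ∪ Ur), G x = G z := by
    intro x hx
    by_cases hxz : x = z
    · rw [hxz]
    · obtain ⟨φ, v, hφ, h0, h1, h2, hv, hvv, hvL, hco⟩ := loc i0 hi0 x hx hxz
      have k2 : v 2 = c o := by rw [hvv]; rfl
      have k3 : v 3 = c i0 := by rw [hvv]; rfl
      have k4 : v 4 = r o := by rw [hvv]; rfl
      have k5 : v 5 = r i0 := by rw [hvv]; rfl
      have h := G1 hE hu hα hcr hφ hv hvL hco
      rw [hGF φ v i0 hφ h0 h1 h2 k2 k3 k4 k5, hGF φ v i0 hφ h0 h1 h2 k2 k3 k4 k5] at h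
      have k0 : v 0 = z := by rw [hvv]; rfl
      have k1 : v 1 = x := by rw [hvv]; rfl
      rw [k0, k1] at h
      exact h
  have hsumfree : ∑ x ∈ V \ (Uc ∪ Ur), G x = 0 := by
    rw [Finset.sum_congr rfl hfreeG, Finset.sum_const, nsmul_eq_mul]
    have : ((V \ (Uc ∪ Ur)).card : K) = 0 := by
      rw [CharP.cast_eq_zero_iff K 2]
      obtain ⟨m, hm⟩ := hV
      omega
    rw [this, zero_mul]
  -- sums over the used sites
  have hGo : G (c o) = G z + Phi V b u c r ∧ G (r o) = G z + Phi V b u c r := by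
    obtain ⟨φ, v, hφ, h0, h1, h2, hv, hvv, hvL, hco⟩ := loc i0 hi0 w hw hwz
    have k0 : v 0 = z := by rw [hvv]; rfl
    have k2 : v 2 = c o := by rw [hvv]; rfl
    have k3 : v 3 = c i0 := by rw [hvv]; rfl
    have k4 : v 4 = r o := by rw [hvv]; rfl
    have k5 : v 5 = r i0 := by rw [hvv]; rfl
    have h := G4 hE hu hα hcr hφ hv hvL hco
    have h' := G5 hE hu hα hcr hφ hv hvL hco
    rw [hGF φ v i0 hφ h0 h1 h2 k2 k3 k4 k5, hGF φ v i0 hφ h0 h1 h2 k2 k3 k4 k5,
      hHF φ v i0 hφ h0 h1 h2 k0 k2 k3 k4 k5] at h h'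
    rw [k0, k2] at h
    rw [k0, k4] at h'
    exact ⟨h, h'⟩
  have hGi : ∀ i ∈ ((univ.erase p).erase o : Finset α),
      G (c i) + G (r i) = Phi V b u c r := by
    intro i hi
    obtain ⟨φ, v, hφ, h0, h1, h2, hv, hvv, hvL, hco⟩ := loc i hi w hw hwz
    have k0 : v 0 = z := by rw [hvv]; rfl
    have k2 : v 2 = c o := by rw [hvv]; rfl
    have k3 : v 3 = c i := by rw [hvv]; rfl
    have k4 : v 4 = r o := by rw [hvv]; rfl
    have k5 : v 5 = r i := by rw [hvv]; rfl
    have h := G2 hE hu hα hcr hφ hv hvL hco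
    have h' := G3 hE hu hα hcr hφ hv hvL hco
    have h'' := Gspin hu hα hcr hφ hv hvL
    rw [hGF φ v i hφ h0 h1 h2 k2 k3 k4 k5, hGF φ v i hφ h0 h1 h2 k2 k3 k4 k5] at h h'
    rw [hHF φ v i hφ h0 h1 h2 k0 k2 k3 k4 k5] at h''
    rw [k0, k3] at h
    rw [k0, k5] at h'
    rw [h, h']
    have h3 : F3 V b u c r φ (v ∘ ![0, 2, 3]) (v ∘ ![4, 5, 0])
        + F3 V b u c r φ (v ∘ ![0, 2, 3]) (v ∘ ![5, 0, 4]) = Phi V b u c r := by
      rw [add_assoc] at h''
      exact (CharTwo.add_eq_zero.1 h'').symm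
    rw [← h3]
    have h4 : G z + G z = 0 := CharTwo.add_self_eq_zero _
    calc _ = (G z + G z) + (F3 V b u c r φ (v ∘ ![0, 2, 3]) (v ∘ ![4, 5, 0])
        + F3 V b u c r φ (v ∘ ![0, 2, 3]) (v ∘ ![5, 0, 4])) := by ring
      _ = _ := by rw [h4, zero_add]
  -- the total sum
  have htot : ∑ x ∈ V, G x = ∑ x ∈ V \ (Uc ∪ Ur), G x
      + (∑ i ∈ univ.erase p, G (c i) + ∑ i ∈ univ.erase p, G (r i)) := by
    rw [← Finset.sum_sdiff hUV, Finset.sum_union hdisj, hUc, hUr,
      Finset.sum_image (fun x _ y _ h => hcr.ci h), Finset.sum_image (fun x _ y _ h => hcr.ri h)]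
  rw [hG0, hsumfree, zero_add, ← Finset.sum_add_distrib] at htot
  have ho' : o ∈ (univ.erase p : Finset α) := Finset.mem_erase.2 ⟨ho, Finset.mem_univ _⟩
  rw [← Finset.add_sum_erase _ _ ho', Finset.sum_congr rfl hGi, Finset.sum_const, hcard2,
    hGo.1, hGo.2, nsmul_eq_mul] at htot
  have hodd : ((2 * b - 1 : ℕ) : K) = 1 := by
    have h5 : (2 * b - 1 : ℕ) = 2 * (b - 1) + 1 := by omega
    rw [h5, Nat.cast_add, Nat.cast_mul, Nat.cast_ofNat, CharTwo.two_eq_zero, zero_mul, zero_add,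
      Nat.cast_one]
  rw [hodd, one_mul, CharTwo.add_self_eq_zero, zero_add] at htot
  exact htot.symm

end MP_d81877_alI
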