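import Mathlib
import Pool.Agent.Lib.MP_d81877_alI.VanOne

/-!
MP_d81877_al, invariance: the statements `A_k` for all `k < 2 b + 1`.
-/

namespace MP_d81877_alI

open Finset Function

variable {ι K α : Type*} [DecidableEq ι] [Fintype ι] [Field K] [CharP K 2] [Fintype α]
  [DecidableEq α]

section step

variable {V : Finset ι} {b k : ℕ} (hE : Est K V b) {u : WW ι K}
    (hu : Rm V b u) (hα : Fintype.card α = 2 * b + 1)
    {c r : α → ι} (hcr : Cond V c r) {φ : Fin 3 → α} (hφ : Injective φ)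
    {v : Fin 6 → ι} (hv : Injective v) (hL : ∀ i, Lc V c r φ (v i)) (h0 : coin' c r φ = k)

include hE hu hα hcr hφ hv hL h0

theorem indep_x (hk1 : Van K α V b (k + 1)) (x x' y : Fin 6) (hxx : x ≠ x')
    (h1 : Injective ![x', y, 4]) (h2 : Injective ![x, y, 5])
    (h3 : ∀ s s', s ≠ s' → (![x', y, 4] : Fin 3 → Fin 6) s ≠ (![x, y, 5] : Fin 3 → Fin 6) s')
    (h4 : (univ.filter (fun s => (![x', y, 4] : Fin 3 → Fin 6) s
      = (![x, y, 5] : Fin 3 → Fin 6) s)).card = 1) :
    F3 V b u c r φ (v ∘ ![x, y, 4]) (v ∘ ![x, y, 5])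
      = F3 V b u c r φ (v ∘ ![x', y, 4]) (v ∘ ![x', y, 5]) := by
  have h := F3_diff hk1 hE hu hα hcr hφ hv hL ![x', y, 4] ![x, y, 5] h1 h2 h3
    (by rw [h0, h4]) 0 0 x x' hxx rfl rfl
  have e1 : update (![x', y, 4] : Fin 3 → Fin 6) 0 x = ![x, y, 4] := by
    funext s; fin_cases s <;> rfl
  have e2 : update (![x, y, 5] : Fin 3 → Fin 6) 0 x' = ![x', y, 5] := by
    funext s; fin_cases s <;> rfl
  rw [e1, e2] at h
  exact h

theorem indep_y (hk1 : Van K α V b (k + 1)) (x y y' : Fin 6) (hyy : y ≠ y')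
    (h1 : Injective ![x, y', 4]) (h2 : Injective ![x, y, 5])
    (h3 : ∀ s s', s ≠ s' → (![x, y', 4] : Fin 3 → Fin 6) s ≠ (![x, y, 5] : Fin 3 → Fin 6) s')
    (h4 : (univ.filter (fun s => (![x, y', 4] : Fin 3 → Fin 6) s
      = (![x, y, 5] : Fin 3 → Fin 6) s)).card = 1) :
    F3 V b u c r φ (v ∘ ![x, y, 4]) (v ∘ ![x, y, 5])
      = F3 V b u c r φ (v ∘ ![x, y', 4]) (v ∘ ![x, y', 5]) := by
  have h := F3_diff hk1 hE hu hα hcr hφ hv hL ![x, y', 4] ![x, y, 5] h1 h2 h3
    (by rw [h0, h4]) 1 1 y y' hyy rfl rfl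
  have e1 : update (![x, y', 4] : Fin 3 → Fin 6) 1 y = ![x, y, 4] := by
    funext s; fin_cases s <;> rfl
  have e2 : update (![x, y, 5] : Fin 3 → Fin 6) 1 y' = ![x, y', 5] := by
    funext s; fin_cases s <;> rfl
  rw [e1, e2] at h
  exact h

theorem mixed (hk0 : Van K α V b k) (x x' y y' : Fin 6) (hxx : x ≠ x') (hyy : y ≠ y')
    (h1 : Injective ![x', y, 4]) (h1' : Injective ![x', y', 4])
    (h2 : Injective ![y, 5, x]) (h2' : Injective ![y', 5, x])
    (h3 : ∀ s s', (![x', y', 4] : Fin 3 → Fin 6) s ≠ (![y, 5, x] : Fin 3 → Fin 6) s') :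
    F3 V b u c r φ (v ∘ ![x, y, 4]) (v ∘ ![y, 5, x])
      + F3 V b u c r φ (v ∘ ![x', y, 4]) (v ∘ ![y, 5, x'])
      + F3 V b u c r φ (v ∘ ![x, y', 4]) (v ∘ ![y', 5, x])
      + F3 V b u c r φ (v ∘ ![x', y', 4]) (v ∘ ![y', 5, x']) = 0 := by
  have hu' := hE u hu (v x) (hL x).1 (v x') (hL x').1 (fun h => hxx (hv h))
  have g1 := F3_Ev hu.dm hα hcr hφ hv hL ![x', y, 4] ![y, 5, x] h1 h2 0 2 x x' hxx rfl rfl
  have g2 := F3_Ev hu.dm hα hcr hφ hv hL ![x', y', 4] ![y', 5, x] h1' h2' 0 2 x x' hxx rfl rfl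
  have g3 := F3_diff hk0 hE hu' hα hcr hφ hv hL ![x', y', 4] ![y, 5, x] h1' h2
    (fun s s' _ => h3 s s') (by
      rw [h0, Finset.filter_eq_empty_iff.2 (fun s _ => h3 s s), Finset.card_empty, add_zero])
    1 0 y y' hyy rfl rfl
  have e1 : update (![x', y, 4] : Fin 3 → Fin 6) 0 x = ![x, y, 4] := by
    funext s; fin_cases s <;> rfl
  have e2 : update (![y, 5, x] : Fin 3 → Fin 6) 2 x' = ![y, 5, x'] := by
    funext s; fin_cases s <;> rfl
  have e3 : update (![x', y', 4] : Fin 3 → Fin 6) 0 x = ![x, y', 4] := by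
    funext s; fin_cases s <;> rfl
  have e4 : update (![y', 5, x] : Fin 3 → Fin 6) 2 x' = ![y', 5, x'] := by
    funext s; fin_cases s <;> rfl
  have e5 : update (![x', y', 4] : Fin 3 → Fin 6) 1 y = ![x', y, 4] := by
    funext s; fin_cases s <;> rfl
  have e6 : update (![y, 5, x] : Fin 3 → Fin 6) 0 y' = ![y', 5, x] := by
    funext s; fin_cases s <;> rfl
  rw [e1, e2] at g1
  rw [e3, e4] at g2
  rw [e5, e6] at g3
  rw [g1, g2] at g3
  rw [← CharTwo.add_eq_zero] at g3
  rw [← g3]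
  ring

omit hE h0 in
theorem spinxy (x y : Fin 6) (h1 : Injective ![x, y, 4]) (h2 : Injective ![x, y, 5]) :
    F3 V b u c r φ (v ∘ ![x, y, 4]) (v ∘ ![x, y, 5])
      + F3 V b u c r φ (v ∘ ![x, y, 4]) (v ∘ ![y, 5, x])
      + F3 V b u c r φ (v ∘ ![y, x, 4]) (v ∘ ![x, 5, y]) = 0 := by
  have h := F3_spin hu.dm.prm hα hcr hφ (a := v ∘ ![x, y, 4]) (a' := v ∘ ![x, y, 5])
    (hv.comp h1) (hv.comp h2) (fun s => hL _) (fun s => hL _)
  have e1 : (fun s => (v ∘ ![x, y, 5]) (s + 1)) = v ∘ ![y, 5, x] := by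
    funext s
    fin_cases s <;> rfl
  have e2 : (fun s => (v ∘ ![x, y, 5]) (s + 2)) = v ∘ ![5, x, y] := by
    funext s
    fin_cases s <;> rfl
  rw [e1, e2] at h
  have h4 := F3_swv V b u c r hφ v ![x, y, 4] ![5, x, y] ![y, x, 4] ![x, 5, y] 0 1
    (by funext s; fin_cases s <;> rfl) (by funext s; fin_cases s <;> rfl)
  rw [h4]
  exact h

end step

theorem van_step {V : Finset ι} {b k : ℕ} (hE : Est K V b) (hα : Fintype.card α = 2 * b + 1)
    (hroom : 4 * b + 2 ≤ V.card) (hk : k + 2 < 2 * b + 1) (hk0 : Van K α V b k)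
    (hk1 : Van K α V b (k + 1)) : Van K α V b (k + 2) := by
  intro u hu c r hcr hcoin
  -- two coincidences
  have hc2 : 1 < (univ.filter (fun i => c i = r i)).card := by
    unfold coin at hcoin
    omega
  obtain ⟨p, hp, q, hq, hpq⟩ := Finset.one_lt_card.1 hc2
  have hp' : c p = r p := by simpa using hp
  have hq' : c q = r q := by simpa using hq
  -- a position without coincidence
  obtain ⟨o, ho⟩ : ∃ o, c o ≠ r o := by
    by_contra hcon
    push Not at hcon
    unfold coin at hcoin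
    rw [Finset.filter_true_of_mem (fun i _ => hcon i), Finset.card_univ, hα] at hcoin
    omega
  have hpo : p ≠ o := fun h => ho (by rw [← h]; exact hp')
  have hqo : q ≠ o := fun h => ho (by rw [← h]; exact hq')
  have hφ : Injective (![p, q, o] : Fin 3 → α) := inj_three hpq hpo hqo
  -- two free values
  have himc : (univ.image c ∪ univ.image r).card + (k + 2) = 2 * (2 * b + 1) := by
    have h1 := Finset.card_union_add_card_inter (univ.image c) (univ.image r)
    rw [Finset.card_image_of_injective _ hcr.ci, Finset.card_image_of_injective _ hcr.ri,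
      Finset.card_univ, hα] at h1
    have h2 : univ.image c ∩ univ.image r = (univ.filter (fun i => c i = r i)).image c := by
      ext y
      simp only [Finset.mem_inter, Finset.mem_image, Finset.mem_filter, Finset.mem_univ, true_and]
      constructor
      · rintro ⟨⟨i, rfl⟩, ⟨j, hj⟩⟩
        refine ⟨i, ?_, rfl⟩
        by_cases hij : i = j
        · rw [hij] at hj ⊢
          exact hj.symm
        · exact absurd hj.symm (hcr.ne i j hij)
      · rintro ⟨i, hi, rfl⟩
        exact ⟨⟨i, rfl⟩, ⟨i, hi.symm⟩⟩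
    rw [h2, Finset.card_image_of_injective _ hcr.ci] at h1
    unfold coin at hcoin
    omega
  have hsubV : univ.image c ∪ univ.image r ⊆ V := by
    intro x hx
    rcases Finset.mem_union.1 hx with h | h
    · obtain ⟨i, _, rfl⟩ := Finset.mem_image.1 h
      exact hcr.cV i
    · obtain ⟨i, _, rfl⟩ := Finset.mem_image.1 h
      exact hcr.rV i
  have hfree : 1 < (V \ (univ.image c ∪ univ.image r)).card := by
    have := Finset.card_sdiff_add_card_eq_card hsubV
    omega
  obtain ⟨x2, hx2, x3, hx3, hx23⟩ := Finset.one_lt_card.1 hfree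
  have hfr : ∀ x ∈ V \ (univ.image c ∪ univ.image r), x ∈ V ∧ (∀ t, c t ≠ x) ∧ ∀ t, r t ≠ x := by
    intro x hx
    rw [Finset.mem_sdiff, Finset.mem_union, not_or] at hx
    exact ⟨hx.1, fun t h => hx.2.1 (Finset.mem_image.2 ⟨t, Finset.mem_univ _, h⟩),
      fun t h => hx.2.2 (Finset.mem_image.2 ⟨t, Finset.mem_univ _, h⟩)⟩
  obtain ⟨hx2V, hx2c, hx2r⟩ := hfr x2 hx2
  obtain ⟨hx3V, hx3c, hx3r⟩ := hfr x3 hx3
  have hv : Injective (![c p, c q, x2, x3, c o, r o] : Fin 6 → ι) := by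
    have d01 : c p ≠ c q := fun h => hpq (hcr.ci h)
    have d02 : c p ≠ x2 := hx2c p
    have d03 : c p ≠ x3 := hx3c p
    have d04 : c p ≠ c o := fun h => hpo (hcr.ci h)
    have d05 : c p ≠ r o := hcr.ne p o hpo
    have d12 : c q ≠ x2 := hx2c q
    have d13 : c q ≠ x3 := hx3c q
    have d14 : c q ≠ c o := fun h => hqo (hcr.ci h)
    have d15 : c q ≠ r o := hcr.ne q o hqo
    have d23 : x2 ≠ x3 := hx23
    have d24 : x2 ≠ c o := (hx2c o).symm
    have d25 : x2 ≠ r o := (hx2r o).symm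
    have d34 : x3 ≠ c o := (hx3c o).symm
    have d35 : x3 ≠ r o := (hx3r o).symm
    have d45 : c o ≠ r o := ho
    intro s t h
    fin_cases s <;> fin_cases t <;> first
      | rfl
      | exact absurd h d01 | exact absurd h d02 | exact absurd h d03 | exact absurd h d04
      | exact absurd h d05 | exact absurd h d12 | exact absurd h d13 | exact absurd h d14
      | exact absurd h d15 | exact absurd h d23 | exact absurd h d24 | exact absurd h d25
      | exact absurd h d34 | exact absurd h d35 | exact absurd h d45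
      | exact absurd h.symm d01 | exact absurd h.symm d02 | exact absurd h.symm d03
      | exact absurd h.symm d04 | exact absurd h.symm d05 | exact absurd h.symm d12
      | exact absurd h.symm d13 | exact absurd h.symm d14 | exact absurd h.symm d15
      | exact absurd h.symm d23 | exact absurd h.symm d24 | exact absurd h.symm d25
      | exact absurd h.symm d34 | exact absurd h.symm d35 | exact absurd h.symm d45
  have hL : ∀ j, Lc V c r ![p, q, o] ((![c p, c q, x2, x3, c o, r o] : Fin 6 → ι) j) := by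
    intro j
    have hrest : ∀ t, (∀ s, (![p, q, o] : Fin 3 → α) s ≠ t) → t ≠ p ∧ t ≠ q ∧ t ≠ o :=
      fun t ht => ⟨fun h => ht 0 h.symm, fun h => ht 1 h.symm, fun h => ht 2 h.symm⟩
    fin_cases j
    · exact ⟨hcr.cV p, fun t ht => ⟨fun h => (hrest t ht).1 (hcr.ci h), fun h =>
        hcr.ne p t (hrest t ht).1.symm h.symm⟩⟩
    · exact ⟨hcr.cV q, fun t ht => ⟨fun h => (hrest t ht).2.1 (hcr.ci h), fun h =>
        hcr.ne q t (hrest t ht).2.1.symm h.symm⟩⟩
    · exact ⟨hx2V, fun t _ => ⟨hx2c t, hx2r t⟩⟩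
    · exact ⟨hx3V, fun t _ => ⟨hx3c t, hx3r t⟩⟩
    · exact ⟨hcr.cV o, fun t ht => ⟨fun h => (hrest t ht).2.2 (hcr.ci h), fun h =>
        hcr.ne o t (hrest t ht).2.2.symm h.symm⟩⟩
    · exact ⟨hcr.rV o, fun t ht => ⟨fun h => hcr.ne t o (hrest t ht).2.2 h, fun h =>
        (hrest t ht).2.2 (hcr.ri h)⟩⟩
  set v : Fin 6 → ι := ![c p, c q, x2, x3, c o, r o] with hvdef
  set φ : Fin 3 → α := ![p, q, o] with hφdef
  have hrow : v ∘ ![0, 1, 4] = c ∘ φ := by
    funext s
    fin_cases s <;> rfl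
  have hcol : v ∘ ![0, 1, 5] = r ∘ φ := by
    funext s
    fin_cases s
    · exact hp'
    · exact hq'
    · rfl
  have hid : F3 V b u c r φ (v ∘ ![0, 1, 4]) (v ∘ ![0, 1, 5]) = Phi V b u c r := by
    unfold F3
    rw [hrow, hcol, ext3_self hφ, ext3_self hφ]
  have h0 : coin' c r φ = k := by
    have h1 := coin_ext3 (c := c) (r := r) hφ (c ∘ φ) (r ∘ φ)
    rw [ext3_self hφ, ext3_self hφ, hcoin] at h1
    have h3 : (univ.filter (fun s => (c ∘ φ) s = (r ∘ φ) s))
        = (univ.filter (fun s => (![0, 1, 4] : Fin 3 → Fin 6) s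
          = (![0, 1, 5] : Fin 3 → Fin 6) s)) := by
      apply Finset.filter_congr
      intro s _
      rw [← hrow, ← hcol]
      exact hv.eq_iff
    rw [h3] at h1
    have h4 : (univ.filter (fun s => (![0, 1, 4] : Fin 3 → Fin 6) s
          = (![0, 1, 5] : Fin 3 → Fin 6) s)).card = 2 := by decide
    rw [h4] at h1
    omega
  -- the relations
  have i1 := indep_y hE hu hα hcr hφ hv hL h0 hk1 0 1 2 (by decide) (by decide) (by decide)
    (by decide) (by decide)
  have i2 := indep_x hE hu hα hcr hφ hv hL h0 hk1 0 1 2 (by decide) (by decide) (by decide)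
    (by decide) (by decide)
  have i3 := indep_y hE hu hα hcr hφ hv hL h0 hk1 0 1 3 (by decide) (by decide) (by decide)
    (by decide) (by decide)
  have i4 := indep_x hE hu hα hcr hφ hv hL h0 hk1 0 1 3 (by decide) (by decide) (by decide)
    (by decide) (by decide)
  have i5 := indep_x hE hu hα hcr hφ hv hL h0 hk1 0 2 3 (by decide) (by decide) (by decide)
    (by decide) (by decide)
  have m1 := mixed hE hu hα hcr hφ hv hL h0 hk0 0 1 2 3 (by decide) (by decide) (by decide)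
    (by decide) (by decide) (by decide) (by decide)
  have m2 := mixed hE hu hα hcr hφ hv hL h0 hk0 0 2 1 3 (by decide) (by decide) (by decide)
    (by decide) (by decide) (by decide) (by decide)
  have m3 := mixed hE hu hα hcr hφ hv hL h0 hk0 0 3 1 2 (by decide) (by decide) (by decide)
    (by decide) (by decide) (by decide) (by decide)
  have s1 := spinxy hu hα hcr hφ hv hL 1 2 (by decide) (by decide)
  have s2 := spinxy hu hα hcr hφ hv hL 1 3 (by decide) (by decide)
  have s3 := spinxy hu hα hcr hφ hv hL 2 3 (by decide) (by decide)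
  rw [← hid]
  rw [← i2, ← i1] at s1
  rw [← i4, ← i3] at s2
  rw [← i5, ← i3] at s3
  -- sum up
  set g := F3 V b u c r φ (v ∘ ![0, 1, 4]) (v ∘ ![0, 1, 5]) with hg
  set a02 := F3 V b u c r φ (v ∘ ![0, 2, 4]) (v ∘ ![2, 5, 0])
  set a12 := F3 V b u c r φ (v ∘ ![1, 2, 4]) (v ∘ ![2, 5, 1])
  set a03 := F3 V b u c r φ (v ∘ ![0, 3, 4]) (v ∘ ![3, 5, 0])
  set a13 := F3 V b u c r φ (v ∘ ![1, 3, 4]) (v ∘ ![3, 5, 1])
  set a01 := F3 V b u c r φ (v ∘ ![0, 1, 4]) (v ∘ ![1, 5, 0])
  set a21 := F3 V b u c r φ (v ∘ ![2, 1, 4]) (v ∘ ![1, 5, 2])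
  set a23 := F3 V b u c r φ (v ∘ ![2, 3, 4]) (v ∘ ![3, 5, 2])
  set a31 := F3 V b u c r φ (v ∘ ![3, 1, 4]) (v ∘ ![1, 5, 3])
  set a32 := F3 V b u c r φ (v ∘ ![3, 2, 4]) (v ∘ ![2, 5, 3])
  have two : (2 : K) = 0 := CharTwo.two_eq_zero
  have h3 : g = (g + a12 + a21) + (g + a13 + a31) + (g + a23 + a32)
      + (a02 + a12 + a03 + a13) + (a01 + a21 + a03 + a23) + (a01 + a31 + a02 + a32)
      - 2 * (g + a12 + a21 + a13 + a31 + a23 + a32 + a02 + a03 + a01) := by ring
  rw [h3, s1, s2, s3, m1, m2, m3, two]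
  ring

/-- **all the statements `A_k`** -/
theorem van_all {V : Finset ι} {b : ℕ} (hE : Est K V b) (hα : Fintype.card α = 2 * b + 1)
    (hV : Even V.card) (hroom : 4 * b + 4 ≤ V.card) :
    ∀ k, k < 2 * b + 1 → Van K α V b k := by
  intro k
  induction k using Nat.strong_induction_on with
  | _ k ih =>
    intro hk
    match k, ih, hk with
    | 0, _, _ => exact van_zero hα
    | 1, _, hk => exact van_one hE hα (by omega) hV hroom
    | k + 2, ih, hk =>
      exact van_step hE hα (by omega) hk (ih k (by omega) (by omega))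
        (ih (k + 1) (by omega) (by omega))

end MP_d81877_alI
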