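import Mathlib
import Pool.Agent.Lib.MP_d81877_alI.VanAll

/-!
MP_d81877_al, invariance: the two facts (N1) and (Xi) about the radical.
-/

namespace MP_d81877_alI

open Finset Function

variable {ι K : Type*} [DecidableEq ι] [Fintype ι] [Field K]

/-- the functional `ν_X`: the sum over the splittings of `X`, letters `{0,2}` on `X \ A`, letters
`{1,3}` on `A`, `|A| = b` -/
def nu (V : Finset ι) (b : ℕ) (X : Finset ι) (u : WW ι K) : K :=
  ∑ A ∈ X.powersetCard b, u ![V \ A, V \ (X \ A), X \ A, A]

omit [Fintype ι] in
/-- `Phi` for positions in a set of sites -/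
theorem Phi_sub (V : Finset ι) (b : ℕ) (u : WW ι K) (Z : Finset ι) (c r : ι → ι) :
    Phi V b u (fun t : {x // x ∈ Z} => c t.1) (fun t : {x // x ∈ Z} => r t.1)
      = ∑ A ∈ Z.powersetCard b,
        u ![V \ A.image c, V \ (Z \ A).image c, (Z \ A).image r, A.image r] := by
  unfold Phi
  have himg : ∀ (A : Finset {x // x ∈ Z}) (f : ι → ι),
      A.image (fun t : {x // x ∈ Z} => f t.1) = (A.map (Embedding.subtype _)).image f := by
    intro A f
    rw [Finset.map_eq_image, Finset.image_image]
    rfl
  have hcompl : ∀ A : Finset {x // x ∈ Z},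
      Z \ A.map (Embedding.subtype _) = Aᶜ.map (Embedding.subtype _) := by
    intro A
    ext x
    simp only [Finset.mem_sdiff, Finset.mem_map, Finset.mem_compl, Embedding.coe_subtype,
      Subtype.exists, exists_and_right, exists_eq_right]
    constructor
    · rintro ⟨h1, h2⟩
      exact ⟨h1, fun h => h2 ⟨h1, h⟩⟩
    · rintro ⟨h1, h2⟩
      exact ⟨h1, fun ⟨_, h⟩ => h2 h⟩
  apply Finset.sum_bij (fun A _ => A.map (Embedding.subtype _))
  · intro A hA
    simp only [Finset.mem_filter, Finset.mem_univ, true_and] at hA
    rw [Finset.mem_powersetCard, Finset.card_map]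
    refine ⟨?_, hA⟩
    intro x hx
    obtain ⟨y, _, rfl⟩ := Finset.mem_map.1 hx
    exact y.2
  · intro A _ B _ h
    exact Finset.map_injective _ h
  · intro B hB
    rw [Finset.mem_powersetCard] at hB
    refine ⟨B.subtype (fun x => x ∈ Z), ?_, ?_⟩
    · simp only [Finset.mem_filter, Finset.mem_univ, true_and]
      rw [Finset.card_subtype, Finset.filter_true_of_mem (fun x hx => hB.1 hx)]
      exact hB.2
    · exact Finset.subtype_map_of_mem (fun x hx => hB.1 hx)
  · intro A _
    unfold wrd
    rw [himg, himg, himg, himg, hcompl]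

omit [Fintype ι] in
theorem Phi_id (V : Finset ι) (b : ℕ) (u : WW ι K) (Z : Finset ι) :
    Phi V b u (fun t : {x // x ∈ Z} => t.1) (fun t : {x // x ∈ Z} => t.1) = nu V b Z u := by
  have h := Phi_sub V b u Z id id
  simp only [Finset.image_id] at h
  exact h

omit [Fintype ι] in
theorem Phi_eq_nu {α : Type*} [Fintype α] [DecidableEq α] (V : Finset ι) (b : ℕ) (u : WW ι K)
    {c : α → ι} (hc : Injective c) : Phi V b u c c = nu V b (univ.image c) u := by
  unfold Phi nu
  apply Finset.sum_bij (fun A _ => A.image c)
  · intro A hA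
    simp only [Finset.mem_filter, Finset.mem_univ, true_and] at hA
    rw [Finset.mem_powersetCard, Finset.card_image_of_injective _ hc]
    exact ⟨Finset.image_subset_image (Finset.subset_univ _), hA⟩
  · intro A _ B _ h
    exact Finset.image_injective hc h
  · intro B hB
    rw [Finset.mem_powersetCard] at hB
    obtain ⟨T, -, hT⟩ := Finset.subset_image_iff.1 hB.1
    refine ⟨T, ?_, hT⟩
    simp only [Finset.mem_filter, Finset.mem_univ, true_and]
    rw [← hB.2, ← hT, Finset.card_image_of_injective _ hc]
  · intro A _
    unfold wrd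
    rw [← Finset.image_sdiff _ _ hc, ← Finset.compl_eq_univ_sdiff]

section out

variable [CharP K 2] {V : Finset ι} {b : ℕ} (hE : Est K V b) (hV : Even V.card)
  (hroom : 4 * b + 4 ≤ V.card) {u : WW ι K} (hu : Rm V b u)

include hE hV hroom hu

/-- exchange of one site -/
theorem nu_exchange {Y : Finset ι} (hY : Y ⊆ V) (hYc : Y.card = 2 * b) {x x' : ι} (hx : x ∈ V)
    (hx' : x' ∈ V) (hxY : x ∉ Y) (hxY' : x' ∉ Y) (hne : x ≠ x') :
    nu V b (insert x Y) u = nu V b (insert x' Y) u := by
  set Z := insert x Y with hZ
  have hα : Fintype.card {t // t ∈ Z} = 2 * b + 1 := by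
    rw [Fintype.card_coe, hZ, Finset.card_insert_of_notMem hxY, hYc]
  let px : {t // t ∈ Z} := ⟨x, Finset.mem_insert_self _ _⟩
  let c : {t // t ∈ Z} → ι := update (fun t => t.1) px x'
  let r : {t // t ∈ Z} → ι := fun t => t.1
  have hcx : c px = x' := update_self _ _ _
  have hco : ∀ t, t ≠ px → c t = t.1 := fun t ht => update_of_ne ht _ _
  have hmem : ∀ t : {t // t ∈ Z}, t ≠ px → t.1 ∈ Y := by
    intro t ht
    rcases Finset.mem_insert.1 t.2 with h | h
    · exact absurd (Subtype.ext h) ht
    · exact h
  have hcond : Cond V c r := by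
    constructor
    · intro s t h
      by_cases hs : s = px <;> by_cases ht : t = px
      · rw [hs, ht]
      · rw [hs, hcx, hco t ht] at h
        exact absurd (h ▸ hmem t ht) hxY'
      · rw [ht, hcx, hco s hs] at h
        exact absurd (h ▸ hmem s hs) hxY'
      · rw [hco s hs, hco t ht] at h
        exact Subtype.ext h
    · intro s t h
      exact Subtype.ext h
    · intro t
      by_cases ht : t = px
      · rw [ht, hcx]; exact hx'
      · rw [hco t ht]; exact hY (hmem t ht)
    · intro t
      rcases Finset.mem_insert.1 t.2 with h | h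
      · change t.1 ∈ V
        rw [h]; exact hx
      · exact hY h
    · intro s t hst h
      by_cases hs : s = px
      · rw [hs, hcx] at h
        change x' = t.1 at h
        rcases Finset.mem_insert.1 t.2 with h2 | h2
        · exact hne (h2.symm.trans h.symm)
        · exact hxY' (h ▸ h2)
      · rw [hco s hs] at h
        exact hst (Subtype.ext h)
  have hcoin : coin c r = 2 * b := by
    unfold coin
    have h1 : (univ.filter (fun t => c t = r t)) = univ.erase px := by
      ext t
      simp only [Finset.mem_filter, Finset.mem_univ, true_and, Finset.mem_erase, and_true]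
      constructor
      · intro h ht
        rw [ht, hcx] at h
        exact hne h.symm
      · intro ht
        exact hco t ht
    rw [h1, Finset.card_erase_of_mem (Finset.mem_univ _), Finset.card_univ, hα]
    omega
  have h0 := van_all hE hα hV hroom (2 * b) (by omega) (Eab 1 x x' u)
    (hE u hu x hx x' hx' hne) c r hcond hcoin
  rw [Phi_E_both hu.dm hα hcond.ci hcond.ri hne hx hx' px px hcx rfl] at h0
  have e1 : update c px x = r := by
    funext t
    by_cases ht : t = px
    · rw [ht, update_self]
    · rw [update_of_ne ht, hco t ht]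
  have e2 : update r px x' = c := rfl
  rw [e1, e2, Phi_id, Phi_eq_nu V b u hcond.ci] at h0
  have e3 : univ.image c = insert x' Y := by
    ext y
    simp only [Finset.mem_image, Finset.mem_univ, true_and, Finset.mem_insert]
    constructor
    · rintro ⟨t, rfl⟩
      by_cases ht : t = px
      · left; rw [ht, hcx]
      · right; rw [hco t ht]; exact hmem t ht
    · rintro (rfl | h)
      · exact ⟨px, hcx⟩
      · refine ⟨⟨y, Finset.mem_insert_of_mem h⟩, hco _ ?_⟩
        intro h2
        have : y = x := congrArg Subtype.val h2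
        exact hxY (this ▸ h)
  rw [e3] at h0
  exact CharTwo.add_eq_zero.1 h0

/-- **(N1)**: `ν_X` does not depend on `X` on the radical. -/
theorem nu_indep : ∀ (n : ℕ) {X X' : Finset ι}, (X \ X').card = n → X ⊆ V → X' ⊆ V →
    X.card = 2 * b + 1 → X'.card = 2 * b + 1 → nu V b X u = nu V b X' u := by
  intro n
  induction n with
  | zero =>
    intro X X' h hX hX' hc hc'
    rw [Finset.card_eq_zero, Finset.sdiff_eq_empty_iff_subset] at h
    rw [Finset.eq_of_subset_of_card_le h (by omega)]
  | succ n ih =>
    intro X X' h hX hX' hc hc'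
    have hne : (X \ X').Nonempty := by
      rw [← Finset.card_pos]; omega
    obtain ⟨x, hx⟩ := hne
    have hne' : (X' \ X).Nonempty := by
      rw [← Finset.card_pos, Finset.card_sdiff_comm (by omega), h]
      omega
    obtain ⟨x', hx'⟩ := hne'
    rw [Finset.mem_sdiff] at hx hx'
    have hxx : x ≠ x' := fun h => hx'.2 (h ▸ hx.1)
    have h1 := nu_exchange hE hV hroom hu (Y := X.erase x) ((Finset.erase_subset _ _).trans hX)
      (by rw [Finset.card_erase_of_mem hx.1]; omega) (hX hx.1) (hX' hx'.1)
      (Finset.notMem_erase _ _) (fun h => hx'.2 (Finset.mem_of_mem_erase h)) hxx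
    rw [Finset.insert_erase hx.1] at h1
    rw [h1]
    apply ih
    · have h2 : insert x' (X.erase x) \ X' = (X \ X').erase x := by
        ext y
        simp only [Finset.mem_sdiff, Finset.mem_insert, Finset.mem_erase]
        constructor
        · rintro ⟨h3 | h3, h4⟩
          · exact absurd (h3 ▸ hx'.1) h4
          · exact ⟨h3.1, h3.2, h4⟩
        · rintro ⟨h3, h4, h5⟩
          exact ⟨Or.inr ⟨h3, h4⟩, h5⟩
      rw [h2, Finset.card_erase_of_mem (Finset.mem_sdiff.2 hx), h]
      rfl
    · intro y hy
      rcases Finset.mem_insert.1 hy with h3 | h3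
      · rw [h3]; exact hX' hx'.1
      · exact hX (Finset.mem_of_mem_erase h3)
    · exact hX'
    · rw [Finset.card_insert_of_notMem (fun h => hx'.2 (Finset.mem_of_mem_erase h)),
        Finset.card_erase_of_mem hx.1]
      omega
    · exact hc'

end out

omit [Fintype ι] in
/-- splitting a sum over the subsets of `insert a (insert c X)` -/
theorem sum_split {a c : ι} (hac : a ≠ c) {X : Finset ι} (ha : a ∉ X) (hc : c ∉ X) (b : ℕ)
    (g : Finset ι → K) (h1 : ∀ B, B ⊆ X → B.card = b + 1 → g B = 0)
    (h2 : ∀ B, B ⊆ insert a (insert c X) → a ∈ B → c ∈ B → B.card = b + 1 → g B = 0) :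
    ∑ B ∈ (insert a (insert c X)).powersetCard (b + 1), g B
      = ∑ A ∈ X.powersetCard b, (g (insert c A) + g (insert a A)) := by
  have ha' : a ∉ insert c X := by
    rw [Finset.mem_insert, not_or]
    exact ⟨hac, ha⟩
  have inj : ∀ (y : ι) (s : Finset (Finset ι)), (∀ B ∈ s, y ∉ B) →
      Set.InjOn (insert y : Finset ι → Finset ι) s := by
    intro y s hs B hB B' hB' h
    have h3 := hs B hB
    have h4 := hs B' hB'
    rw [← Finset.erase_insert h3, ← Finset.erase_insert h4, h]
  rw [Finset.powersetCard_succ_insert ha', Finset.sum_union, Finset.sum_image,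
    Finset.powersetCard_succ_insert hc, Finset.sum_union, Finset.sum_image]
  · rw [Finset.sum_eq_zero (s := X.powersetCard (b + 1)), zero_add, Finset.sum_add_distrib]
    · congr 1
      symm
      apply Finset.sum_subset (Finset.powersetCard_mono (Finset.subset_insert c X))
      intro B hB hB'
      rw [Finset.mem_powersetCard] at hB hB'
      have hcB : c ∈ B := by
        by_contra h
        apply hB'
        refine ⟨fun y hy => ?_, hB.2⟩
        rcases Finset.mem_insert.1 (hB.1 hy) with h3 | h3
        · exact absurd (h3 ▸ hy) h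
        · exact h3
      apply h2
      · exact Finset.insert_subset_insert a hB.1
      · exact Finset.mem_insert_self _ _
      · exact Finset.mem_insert_of_mem hcB
      · rw [Finset.card_insert_of_notMem (fun h => ha' (hB.1 h)), hB.2]
    · intro B hB
      rw [Finset.mem_powersetCard] at hB
      exact h1 B hB.1 hB.2
  · apply inj
    intro B hB h
    rw [Finset.mem_powersetCard] at hB
    exact hc (hB.1 h)
  · rw [Finset.disjoint_left]
    intro B hB hB'
    rw [Finset.mem_powersetCard] at hB
    obtain ⟨B', _, rfl⟩ := Finset.mem_image.1 hB'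
    exact hc (hB.1 (Finset.mem_insert_self _ _))
  · apply inj
    intro B hB h
    rw [Finset.mem_powersetCard] at hB
    exact ha' (hB.1 h)
  · rw [Finset.disjoint_left]
    intro B hB hB'
    rw [Finset.mem_powersetCard] at hB
    obtain ⟨B', _, rfl⟩ := Finset.mem_image.1 hB'
    exact ha' (hB.1 (Finset.mem_insert_self _ _))

section xi

variable [CharP K 2] {V : Finset ι} {b : ℕ} (hE : Est K V (b + 1)) (hV : Even V.card)
  (hroom : 4 * (b + 1) + 4 ≤ V.card) {u : WW ι K} (hu : Rm V (b + 1) u)

include hE hV hroom hu

/-- the two values of `Phi` agree -/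
theorem xi_phi {X : Finset ι} (hX : X ⊆ V) (hXc : X.card = 2 * b + 1) {a c : ι} (ha : a ∈ V)
    (hc : c ∈ V) (haX : a ∉ X) (hcX : c ∉ X) (hac : a ≠ c) :
    Phi V (b + 1) u (fun t : {t // t ∈ insert a (insert c X)} => t.1)
        (fun t : {t // t ∈ insert a (insert c X)} => update id a c t.1)
      + Phi V (b + 1) u (fun t : {t // t ∈ insert a (insert c X)} => update id c a t.1)
        (fun t : {t // t ∈ insert a (insert c X)} => t.1) = 0 := by
  set Z := insert a (insert c X) with hZ
  have haZ : a ∉ insert c X := by
    rw [Finset.mem_insert, not_or]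
    exact ⟨hac, haX⟩
  have hZc : Z.card = 2 * (b + 1) + 1 := by
    rw [hZ, Finset.card_insert_of_notMem haZ, Finset.card_insert_of_notMem hcX, hXc]
    ring
  have hZV : Z ⊆ V := by
    intro y hy
    rcases Finset.mem_insert.1 hy with h | h
    · rw [h]; exact ha
    · rcases Finset.mem_insert.1 h with h | h
      · rw [h]; exact hc
      · exact hX h
  have hα : Fintype.card {t // t ∈ Z} = 2 * (b + 1) + 1 := by
    rw [Fintype.card_coe, hZc]
  obtain ⟨z, hzV, hzZ⟩ : ∃ z ∈ V, z ∉ Z := by
    by_contra hcon
    push Not at hcon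
    have := Finset.card_le_card (show V ⊆ Z from hcon)
    omega
  have hza : z ≠ a := fun h => hzZ (by rw [h, hZ]; exact Finset.mem_insert_self _ _)
  have hzc : z ≠ c := fun h => hzZ (by
    rw [h, hZ]; exact Finset.mem_insert_of_mem (Finset.mem_insert_self _ _))
  let pa : {t // t ∈ Z} := ⟨a, by rw [hZ]; exact Finset.mem_insert_self _ _⟩
  let pc : {t // t ∈ Z} := ⟨c, by
    rw [hZ]; exact Finset.mem_insert_of_mem (Finset.mem_insert_self _ _)⟩
  have hpac : pa ≠ pc := fun h => hac (congrArg Subtype.val h)
  let vl : {t // t ∈ Z} → ι := fun t => t.1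
  have hvl : Injective vl := fun s t h => Subtype.ext h
  have hzvl : ∀ t, vl t ≠ z := fun t h => hzZ (h ▸ t.2)
  -- first: rows `vl`, columns `update vl pa z`
  have key : ∀ p : {t // t ∈ Z}, Injective (update vl p z) := by
    intro p s t h
    by_cases hs : s = p <;> by_cases ht : t = p
    · rw [hs, ht]
    · rw [hs, update_self, update_of_ne ht] at h
      exact absurd h.symm (hzvl t)
    · rw [ht, update_self, update_of_ne hs] at h
      exact absurd h (hzvl s)
    · rw [update_of_ne hs, update_of_ne ht] at h
      exact hvl h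
  have keyV : ∀ (p t : {t // t ∈ Z}), update vl p z t ∈ V := by
    intro p t
    by_cases ht : t = p
    · rw [ht, update_self]; exact hzV
    · rw [update_of_ne ht]; exact hZV t.2
  have cond1 : Cond V vl (update vl pa z) := by
    refine ⟨hvl, key pa, fun t => hZV t.2, keyV pa, ?_⟩
    intro s t hst h
    by_cases ht : t = pa
    · rw [ht, update_self] at h
      exact hzvl s h
    · rw [update_of_ne ht] at h
      exact hst (hvl h)
  have cond2 : Cond V (update vl pc z) vl := by
    refine ⟨key pc, hvl, keyV pc, fun t => hZV t.2, ?_⟩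
    intro s t hst h
    by_cases hs : s = pc
    · rw [hs, update_self] at h
      exact hzvl t h.symm
    · rw [update_of_ne hs] at h
      exact hst (hvl h)
  have coin1 : coin vl (update vl pa z) = 2 * (b + 1) := by
    unfold coin
    have h1 : (univ.filter (fun t => vl t = update vl pa z t)) = univ.erase pa := by
      ext t
      simp only [Finset.mem_filter, Finset.mem_univ, true_and, Finset.mem_erase, and_true]
      constructor
      · intro h ht
        rw [ht, update_self] at h
        exact hzvl _ h
      · intro ht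
        rw [update_of_ne ht]
    rw [h1, Finset.card_erase_of_mem (Finset.mem_univ _), Finset.card_univ, hα]
    omega
  have coin2 : coin (update vl pc z) vl = 2 * (b + 1) := by
    unfold coin
    have h1 : (univ.filter (fun t => update vl pc z t = vl t)) = univ.erase pc := by
      ext t
      simp only [Finset.mem_filter, Finset.mem_univ, true_and, Finset.mem_erase, and_true]
      constructor
      · intro h ht
        rw [ht, update_self] at h
        exact hzvl _ h.symm
      · intro ht
        rw [update_of_ne ht]
    rw [h1, Finset.card_erase_of_mem (Finset.mem_univ _), Finset.card_univ, hα]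
    omega
  have hva := van_all hE hα hV hroom (2 * (b + 1)) (by omega)
  have z1 := hva (Eab 1 z c u) (hE u hu z hzV c hc hzc) _ _ cond1 coin1
  have z2 := hva (Eab 1 a z u) (hE u hu a ha z hzV hza.symm) _ _ cond2 coin2
  rw [Phi_E_both hu.dm hα cond1.ci cond1.ri hzc hzV hc pc pa rfl (update_self _ _ _)] at z1
  rw [Phi_E_both hu.dm hα cond2.ci cond2.ri hza.symm ha hzV pc pa (update_self _ _ _) rfl] at z2
  have e1 : update (update vl pa z) pa c
      = (fun t : {t // t ∈ Z} => update id a c t.1) := by
    funext t
    rw [update_idem]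
    by_cases ht : t = pa
    · rw [ht, update_self, update_self]
    · rw [update_of_ne ht, update_of_ne (fun h => ht (Subtype.ext h))]
      rfl
  have e2 : update (update vl pc z) pc a
      = (fun t : {t // t ∈ Z} => update id c a t.1) := by
    funext t
    rw [update_idem]
    by_cases ht : t = pc
    · rw [ht, update_self, update_self]
    · rw [update_of_ne ht, update_of_ne (fun h => ht (Subtype.ext h))]
      rfl
  rw [e1] at z1
  rw [e2] at z2
  have z1' := CharTwo.add_eq_zero.1 z1
  have z2' := CharTwo.add_eq_zero.1 z2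
  rw [← z1', z2', CharTwo.add_self_eq_zero]

/-- **(Xi)** -/
theorem xi {X : Finset ι} (hX : X ⊆ V) (hXc : X.card = 2 * b + 1) {a c : ι} (ha : a ∈ V)
    (hc : c ∈ V) (haX : a ∉ X) (hcX : c ∉ X) (hac : a ≠ c) :
    nu (V \ {a, c}) b X (ctr1 a c u) = 0 := by
  rw [← xi_phi hE hV hroom hu hX hXc ha hc haX hcX hac]
  have p1 := Phi_sub V (b + 1) u (insert a (insert c X)) id (update id a c)
  have p2 := Phi_sub V (b + 1) u (insert a (insert c X)) (update id c a) id
  simp only [id] at p1 p2
  rw [p1, p2]
  have haZ : a ∉ insert c X := by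
    rw [Finset.mem_insert, not_or]
    exact ⟨hac, haX⟩
  have hZc : (insert a (insert c X)).card = 2 * (b + 1) + 1 := by
    rw [Finset.card_insert_of_notMem haZ, Finset.card_insert_of_notMem hcX, hXc]
    ring
  -- images
  have i1 : ∀ B : Finset ι, a ∉ B → B.image (update id a c) = B := by
    intro B hB
    have h0 : B.image (update id a c) = B.image id := by
      apply Finset.image_congr
      intro x hx
      have hxa : x ≠ a := fun h => hB (by rw [← h]; exact hx)
      exact update_of_ne hxa _ _
    rw [h0, Finset.image_id]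
  have i1' : ∀ B : Finset ι, a ∉ B → (insert a B).image (update id a c) = insert c B := by
    intro B hB
    rw [Finset.image_insert, update_self, i1 B hB]
  have i2 : ∀ B : Finset ι, c ∉ B → B.image (update id c a) = B := by
    intro B hB
    have h0 : B.image (update id c a) = B.image id := by
      apply Finset.image_congr
      intro x hx
      have hxa : x ≠ c := fun h => hB (by rw [← h]; exact hx)
      exact update_of_ne hxa _ _
    rw [h0, Finset.image_id]
  have i2' : ∀ B : Finset ι, c ∉ B → (insert c B).image (update id c a) = insert a B := by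
    intro B hB
    rw [Finset.image_insert, update_self, i2 B hB]
  -- split the sums
  rw [sum_split hac haX hcX b, sum_split hac haX hcX b, ← Finset.sum_add_distrib]
  · unfold nu
    apply Finset.sum_congr rfl
    intro A hA
    rw [Finset.mem_powersetCard] at hA
    have haA : a ∉ A := fun h => haX (hA.1 h)
    have hcA : c ∉ A := fun h => hcX (hA.1 h)
    have haXA : a ∉ X \ A := fun h => haX (Finset.mem_sdiff.1 h).1
    have hcXA : c ∉ X \ A := fun h => hcX (Finset.mem_sdiff.1 h).1
    have d1 : insert a (insert c X) \ insert c A = insert a (X \ A) := by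
      ext y
      simp only [Finset.mem_sdiff, Finset.mem_insert]
      constructor
      · rintro ⟨h1 | h1 | h1, h2⟩
        · exact Or.inl h1
        · exact absurd (Or.inl h1) h2
        · exact Or.inr ⟨h1, fun h => h2 (Or.inr h)⟩
      · rintro (h1 | h1)
        · exact ⟨Or.inl h1, fun h => h.elim (fun h => hac (h1.symm.trans h))
            (fun h => haA (h1 ▸ h))⟩
        · exact ⟨Or.inr (Or.inr h1.1), fun h => h.elim (fun h => hcX (h ▸ h1.1))
            (fun h => h1.2 h)⟩
    have d2 : insert a (insert c X) \ insert a A = insert c (X \ A) := by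
      ext y
      simp only [Finset.mem_sdiff, Finset.mem_insert]
      constructor
      · rintro ⟨h1 | h1 | h1, h2⟩
        · exact absurd (Or.inl h1) h2
        · exact Or.inl h1
        · exact Or.inr ⟨h1, fun h => h2 (Or.inr h)⟩
      · rintro (h1 | h1)
        · exact ⟨Or.inr (Or.inl h1), fun h => h.elim (fun h => hac (h.symm.trans h1))
            (fun h => hcA (h1 ▸ h))⟩
        · exact ⟨Or.inr (Or.inr h1.1), fun h => h.elim (fun h => haX (h ▸ h1.1))
            (fun h => h1.2 h)⟩
    rw [d1, d2, i1' _ haXA, i1 (insert c A) (by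
        rw [Finset.mem_insert, not_or]; exact ⟨hac, haA⟩), i1' A haA,
      i1 (insert c (X \ A)) (by rw [Finset.mem_insert, not_or]; exact ⟨hac, haXA⟩),
      i2' A hcA, i2 (insert a (X \ A)) (by
        rw [Finset.mem_insert, not_or]; exact ⟨hac.symm, hcXA⟩),
      i2 (insert a A) (by rw [Finset.mem_insert, not_or]; exact ⟨hac.symm, hcA⟩),
      i2' _ hcXA]
    simp only [Finset.image_id]
    -- the left side
    have hcond : ∀ l, a ∉ (![(V \ {a, c}) \ A, (V \ {a, c}) \ (X \ A), X \ A, A] :
        Fin 4 → Finset ι) l ∧ c ∉ (![(V \ {a, c}) \ A, (V \ {a, c}) \ (X \ A), X \ A, A] :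
        Fin 4 → Finset ι) l := by
      intro l
      fin_cases l
      · constructor
        · intro h
          have h2 := (Finset.mem_sdiff.1 (Finset.mem_sdiff.1 h).1).2
          exact h2 (by simp)
        · intro h
          have h2 := (Finset.mem_sdiff.1 (Finset.mem_sdiff.1 h).1).2
          exact h2 (by simp)
      · constructor
        · intro h
          have h2 := (Finset.mem_sdiff.1 (Finset.mem_sdiff.1 h).1).2
          exact h2 (by simp)
        · intro h
          have h2 := (Finset.mem_sdiff.1 (Finset.mem_sdiff.1 h).1).2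
          exact h2 (by simp)
      · exact ⟨haXA, hcXA⟩
      · exact ⟨haA, hcA⟩
    unfold ctr1
    rw [if_pos hcond, Finset.powersetCard_one, Finset.sum_map, Fin.sum_univ_four]
    have f1 : insert a ((V \ {a, c}) \ A) = V \ insert c A := by
      ext y
      simp only [Finset.mem_insert, Finset.mem_sdiff, Finset.mem_singleton]
      constructor
      · rintro (rfl | ⟨⟨h1, h2⟩, h3⟩)
        · exact ⟨ha, fun h => h.elim hac haA⟩
        · exact ⟨h1, fun h => h.elim (fun h => h2 (Or.inr h)) h3⟩
      · rintro ⟨h1, h2⟩
        by_cases hy : y = a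
        · exact Or.inl hy
        · right
          exact ⟨⟨h1, fun h => h.elim hy (fun h => h2 (Or.inl h))⟩, fun h => h2 (Or.inr h)⟩
    have f2 : insert c ((V \ {a, c}) \ A) = V \ insert a A := by
      ext y
      simp only [Finset.mem_insert, Finset.mem_sdiff, Finset.mem_singleton]
      constructor
      · rintro (rfl | ⟨⟨h1, h2⟩, h3⟩)
        · exact ⟨hc, fun h => h.elim hac.symm hcA⟩
        · exact ⟨h1, fun h => h.elim (fun h => h2 (Or.inl h)) h3⟩
      · rintro ⟨h1, h2⟩
        by_cases hy : y = c
        · exact Or.inl hy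
        · right
          exact ⟨⟨h1, fun h => h.elim (fun h => h2 (Or.inl h)) hy⟩, fun h => h2 (Or.inr h)⟩
    have f3 : insert a ((V \ {a, c}) \ (X \ A)) = V \ insert c (X \ A) := by
      ext y
      simp only [Finset.mem_insert, Finset.mem_sdiff, Finset.mem_singleton]
      constructor
      · rintro (rfl | ⟨⟨h1, h2⟩, h3⟩)
        · exact ⟨ha, fun h => h.elim hac (fun h => haX h.1)⟩
        · exact ⟨h1, fun h => h.elim (fun h => h2 (Or.inr h)) h3⟩
      · rintro ⟨h1, h2⟩
        by_cases hy : y = a
        · exact Or.inl hy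
        · right
          exact ⟨⟨h1, fun h => h.elim hy (fun h => h2 (Or.inl h))⟩, fun h => h2 (Or.inr h)⟩
    have f4 : insert c ((V \ {a, c}) \ (X \ A)) = V \ insert a (X \ A) := by
      ext y
      simp only [Finset.mem_insert, Finset.mem_sdiff, Finset.mem_singleton]
      constructor
      · rintro (rfl | ⟨⟨h1, h2⟩, h3⟩)
        · exact ⟨hc, fun h => h.elim hac.symm (fun h => hcX h.1)⟩
        · exact ⟨h1, fun h => h.elim (fun h => h2 (Or.inl h)) h3⟩
      · rintro ⟨h1, h2⟩
        by_cases hy : y = c
        · exact Or.inl hy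
        · right
          exact ⟨⟨h1, fun h => h.elim (fun h => h2 (Or.inl h)) hy⟩, fun h => h2 (Or.inr h)⟩
    have g0 : (fun l => if l ∈ ({0} : Finset (Fin 4)) then
        insert a ((![(V \ {a, c}) \ A, (V \ {a, c}) \ (X \ A), X \ A, A] : Fin 4 → Finset ι) l)
        else insert c ((![(V \ {a, c}) \ A, (V \ {a, c}) \ (X \ A), X \ A, A] :
          Fin 4 → Finset ι) l))
        = ![V \ insert c A, V \ insert a (X \ A), insert c (X \ A), insert c A] := by
      funext l
      fin_cases l
      · exact f1
      · exact f4
      · rfl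
      · rfl
    have g1 : (fun l => if l ∈ ({1} : Finset (Fin 4)) then
        insert a ((![(V \ {a, c}) \ A, (V \ {a, c}) \ (X \ A), X \ A, A] : Fin 4 → Finset ι) l)
        else insert c ((![(V \ {a, c}) \ A, (V \ {a, c}) \ (X \ A), X \ A, A] :
          Fin 4 → Finset ι) l))
        = ![V \ insert a A, V \ insert c (X \ A), insert c (X \ A), insert c A] := by
      funext l
      fin_cases l
      · exact f2
      · exact f3
      · rfl
      · rfl
    have g2 : (fun l => if l ∈ ({2} : Finset (Fin 4)) then
        insert a ((![(V \ {a, c}) \ A, (V \ {a, c}) \ (X \ A), X \ A, A] : Fin 4 → Finset ι) l)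
        else insert c ((![(V \ {a, c}) \ A, (V \ {a, c}) \ (X \ A), X \ A, A] :
          Fin 4 → Finset ι) l))
        = ![V \ insert a A, V \ insert a (X \ A), insert a (X \ A), insert c A] := by
      funext l
      fin_cases l
      · exact f2
      · exact f4
      · rfl
      · rfl
    have g3 : (fun l => if l ∈ ({3} : Finset (Fin 4)) then
        insert a ((![(V \ {a, c}) \ A, (V \ {a, c}) \ (X \ A), X \ A, A] : Fin 4 → Finset ι) l)
        else insert c ((![(V \ {a, c}) \ A, (V \ {a, c}) \ (X \ A), X \ A, A] :
          Fin 4 → Finset ι) l))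
        = ![V \ insert a A, V \ insert a (X \ A), insert c (X \ A), insert a A] := by
      funext l
      fin_cases l
      · exact f2
      · exact f4
      · rfl
      · rfl
    simp only [Function.Embedding.coeFn_mk]
    rw [g0, g1, g2, g3]
    ring
  · -- second functional, both out
    intro B hB hBc
    apply hu.dm.shp
    rintro ⟨-, -, h, -⟩
    change (V \ ((insert a (insert c X) \ B).image (update id c a))).card + (b + 1 + 1)
      = V.card at h
    have h1 : insert a (insert c X) \ B = insert c (insert a (X \ B)) := by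
      ext y
      simp only [Finset.mem_sdiff, Finset.mem_insert]
      constructor
      · rintro ⟨h1 | h1 | h1, h2⟩
        · exact Or.inr (Or.inl h1)
        · exact Or.inl h1
        · exact Or.inr (Or.inr ⟨h1, h2⟩)
      · rintro (h1 | h1 | h1)
        · exact ⟨Or.inr (Or.inl h1), fun h => hcX (h1 ▸ hB h)⟩
        · exact ⟨Or.inl h1, fun h => haX (h1 ▸ hB h)⟩
        · exact ⟨Or.inr (Or.inr h1.1), h1.2⟩
    have h2 : c ∉ insert a (X \ B) := by
      rw [Finset.mem_insert, not_or]
      exact ⟨hac.symm, fun h => hcX (Finset.mem_sdiff.1 h).1⟩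
    rw [h1, i2' _ h2, Finset.insert_idem] at h
    have h3 : (insert a (X \ B)).card = b + 1 := by
      rw [Finset.card_insert_of_notMem (fun h => haX (Finset.mem_sdiff.1 h).1),
        Finset.card_sdiff_of_subset hB, hXc, hBc]
      omega
    have h4 := Finset.le_card_sdiff (insert a (X \ B)) V
    omega
  · -- second functional, both in
    intro B hB haB hcB hBc
    apply hu.dm.shp
    rintro ⟨-, h, -⟩
    change (V \ (B.image (update id c a))).card + (b + 1) = V.card at h
    have h1 : B = insert c (B.erase c) := (Finset.insert_erase hcB).symm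
    rw [h1, i2' _ (Finset.notMem_erase _ _),
      Finset.insert_eq_of_mem (Finset.mem_erase.2 ⟨hac, haB⟩)] at h
    have h3 : (B.erase c).card = b := by
      rw [Finset.card_erase_of_mem hcB, hBc]; rfl
    have h4 := Finset.le_card_sdiff (B.erase c) V
    omega
  · -- first functional, both out
    intro B hB hBc
    apply hu.dm.shp
    rintro ⟨-, -, -, h, -⟩
    change ((insert a (insert c X) \ B).image (update id a c)).card = b + 1 + 1 at h
    have h1 : insert a (insert c X) \ B = insert a (insert c (X \ B)) := by
      ext y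
      simp only [Finset.mem_sdiff, Finset.mem_insert]
      constructor
      · rintro ⟨h1 | h1 | h1, h2⟩
        · exact Or.inl h1
        · exact Or.inr (Or.inl h1)
        · exact Or.inr (Or.inr ⟨h1, h2⟩)
      · rintro (h1 | h1 | h1)
        · exact ⟨Or.inl h1, fun h => haX (h1 ▸ hB h)⟩
        · exact ⟨Or.inr (Or.inl h1), fun h => hcX (h1 ▸ hB h)⟩
        · exact ⟨Or.inr (Or.inr h1.1), h1.2⟩
    have h2 : a ∉ insert c (X \ B) := by
      rw [Finset.mem_insert, not_or]
      exact ⟨hac, fun h => haX (Finset.mem_sdiff.1 h).1⟩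
    rw [h1, i1' _ h2, Finset.insert_idem] at h
    rw [Finset.card_insert_of_notMem (fun h => hcX (Finset.mem_sdiff.1 h).1),
        Finset.card_sdiff_of_subset hB, hXc, hBc] at h
    omega
  · -- first functional, both in
    intro B hB haB hcB hBc
    apply hu.dm.shp
    rintro ⟨-, -, -, -, h⟩
    change (B.image (update id a c)).card = b + 1 at h
    have h1 : B = insert a (B.erase a) := (Finset.insert_erase haB).symm
    rw [h1, i1' _ (Finset.notMem_erase _ _),
      Finset.insert_eq_of_mem (Finset.mem_erase.2 ⟨hac.symm, hcB⟩)] at h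
    rw [Finset.card_erase_of_mem haB, hBc] at h
    omega

end xi

end MP_d81877_alI
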