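import Mathlib
import Pool.Agent.Lib.MP_d81877_alI.AZero

/-!
MP_d81877_al, elements (part D): the functional `Fs u Z0 F S m s` (sum over the sets `A` of `m`
sites of the words with left letters given by `A` and right letters given by `s A`), the
restriction `dF` to a set `F` of double sites, and the three term relation.
-/

namespace MP_d81877_alI

open Finset Function

variable {ι K : Type*} [DecidableEq ι] [Fintype ι] [Field K]

/-- restriction to the words with the letter `{2,3}` at the sites of `F` -/
def dF (F : Finset ι) (u : WW ι K) : WW ι K :=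
  fun S => if ∀ l, Disjoint F (S l) then u ![S 0, S 1, F ∪ S 2, F ∪ S 3] else 0

omit [Fintype ι] in
theorem dF_prm {F : Finset ι} {u : WW ι K} (hu : Prm u) : Prm (dF F u) := by
  intro j j' hj r hr S
  have hcases : (j = 0 ∧ j' = 1) ∨ (j = 1 ∧ j' = 2) ∨ (j = 2 ∧ j' = 3) := by
    revert hj
    revert j j'
    decide
  have hne : j ≠ j' := by
    intro h
    rw [h] at hj
    omega
  by_cases hd : ∀ l, Disjoint F (S l)
  · set S' : Fin 4 → Finset ι := ![S 0, S 1, F ∪ S 2, F ∪ S 3] with hS'
    have hdis : ∀ l, ∀ y ∈ S l, y ∉ F := by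
      intro l y hy hyF
      exact Finset.disjoint_left.1 (hd l) hyF hy
    have h0 := hu j j' hj r hr S'
    have hset : S' j \ S' j' = S j \ S j' := by
      rcases hcases with ⟨rfl, rfl⟩ | ⟨rfl, rfl⟩ | ⟨rfl, rfl⟩
      · rfl
      · change S 1 \ (F ∪ S 2) = S 1 \ S 2
        ext y
        simp only [Finset.mem_sdiff, Finset.mem_union, not_or]
        constructor
        · rintro ⟨h1, _, h2⟩
          exact ⟨h1, h2⟩
        · rintro ⟨h1, h2⟩
          exact ⟨h1, hdis 1 y h1, h2⟩
      · change (F ∪ S 2) \ (F ∪ S 3) = S 2 \ S 3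
        ext y
        simp only [Finset.mem_sdiff, Finset.mem_union, not_or]
        constructor
        · rintro ⟨h1 | h1, h2, h3⟩
          · exact absurd h1 h2
          · exact ⟨h1, h3⟩
        · rintro ⟨h1, h2⟩
          exact ⟨Or.inr h1, hdis 2 y h1, h2⟩
    rw [hset] at h0
    rw [← h0]
    apply Finset.sum_congr rfl
    intro Y hY
    rw [Finset.mem_powersetCard] at hY
    have hYF : ∀ y ∈ Y, y ∉ F := fun y hy => hdis j y (Finset.mem_sdiff.1 (hY.1 hy)).1
    have hd' : ∀ l, Disjoint F ((update (update S j (S j \ Y)) j' (S j' ∪ Y)) l) := by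
      intro l
      by_cases h1 : l = j'
      · rw [h1, update_self, Finset.disjoint_union_right]
        refine ⟨hd j', ?_⟩
        rw [Finset.disjoint_left]
        intro y hy hy'
        exact hYF y hy' hy
      · rw [update_of_ne h1]
        by_cases h2 : l = j
        · rw [h2, update_self]
          exact (hd j).mono_right Finset.sdiff_subset
        · rw [update_of_ne h2]
          exact hd l
    unfold dF
    rw [if_pos hd']
    congr 1
    rcases hcases with ⟨rfl, rfl⟩ | ⟨rfl, rfl⟩ | ⟨rfl, rfl⟩
    · funext l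
      fin_cases l <;> rfl
    · funext l
      fin_cases l
      · rfl
      · rfl
      · change F ∪ (S 2 ∪ Y) = (F ∪ S 2) ∪ Y
        rw [Finset.union_assoc]
      · rfl
    · funext l
      fin_cases l
      · rfl
      · rfl
      · change F ∪ (S 2 \ Y) = (F ∪ S 2) \ Y
        ext y
        simp only [Finset.mem_sdiff, Finset.mem_union]
        constructor
        · rintro (h1 | ⟨h1, h2⟩)
          · exact ⟨Or.inl h1, fun h => hYF y h h1⟩
          · exact ⟨Or.inr h1, h2⟩
        · rintro ⟨h1 | h1, h2⟩
          · exact Or.inl h1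
          · exact Or.inr ⟨h1, h2⟩
      · change F ∪ (S 3 ∪ Y) = (F ∪ S 3) ∪ Y
        rw [Finset.union_assoc]
  · push Not at hd
    obtain ⟨l, hl⟩ := hd
    rw [Finset.not_disjoint_iff] at hl
    obtain ⟨x, hxF, hxl⟩ := hl
    apply Finset.sum_eq_zero
    intro Y hY
    unfold dF
    rw [if_neg]
    intro h
    by_cases h1 : l = j'
    · have := h j'
      rw [update_self, Finset.disjoint_left] at this
      exact this hxF (Finset.mem_union_left _ (h1 ▸ hxl))
    · by_cases h2 : l = j
      · by_cases h3 : x ∈ Y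
        · have := h j'
          rw [update_self, Finset.disjoint_left] at this
          exact this hxF (Finset.mem_union_right _ h3)
        · have := h j
          rw [update_of_ne hne, update_self, Finset.disjoint_left] at this
          exact this hxF (Finset.mem_sdiff.2 ⟨h2 ▸ hxl, h3⟩)
      · have := h l
        rw [update_of_ne h1, update_of_ne h2, Finset.disjoint_left] at this
        exact this hxF hxl

omit [Fintype ι] in
theorem dF_dm {V F : Finset ι} {b : ℕ} {u : WW ι K} (hu : Dm V (b + F.card) u) (hF : F ⊆ V) :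
    Dm (V \ F) b (dF F u) := by
  refine ⟨fun S hS => ?_, dF_prm hu.prm⟩
  unfold dF
  by_cases hd : ∀ l, Disjoint F (S l)
  · rw [if_pos hd]
    apply hu.shp
    intro h
    apply hS
    obtain ⟨h1, h2, h3, h4, h5⟩ := h
    change (S 0).card + (b + F.card) = V.card at h2
    change (S 1).card + (b + F.card + 1) = V.card at h3
    change (F ∪ S 2).card = b + F.card + 1 at h4
    change (F ∪ S 3).card = b + F.card at h5
    rw [Finset.card_union_of_disjoint (hd 2)] at h4
    rw [Finset.card_union_of_disjoint (hd 3)] at h5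
    have hV := Finset.card_sdiff_add_card_eq_card hF
    refine ⟨fun l => ?_, by omega, by omega, by omega, by omega⟩
    intro y hy
    refine Finset.mem_sdiff.2 ⟨?_, fun h => Finset.disjoint_left.1 (hd l) h hy⟩
    apply h1 l
    fin_cases l
    · exact hy
    · exact hy
    · exact Finset.mem_union_right _ hy
    · exact Finset.mem_union_right _ hy
  · rw [if_neg hd]

/-- sum over the sets `A` of `m` sites of `S`: left letters given by `A` (the sites of `A` are in
column `1`, the others in column `0`), right letters given by `s A` (the sites of `s A` are in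
column `3`, the others in column `2`), `F` double sites, `Z0` empty sites -/
def Fs (u : WW ι K) (Z0 F S : Finset ι) (m : ℕ) (s : Equiv.Perm ι) : K :=
  ∑ A ∈ S.powersetCard m, u ![Z0 ∪ (S \ A), Z0 ∪ A, F ∪ (S \ A.image s), F ∪ A.image s]

omit [Fintype ι] in
theorem image_perm_of_maps {S : Finset ι} {s : Equiv.Perm ι} (hs : ∀ x ∈ S, s x ∈ S) :
    S.image s = S := by
  apply Finset.eq_of_subset_of_card_le
  · intro y hy
    obtain ⟨x, hx, rfl⟩ := Finset.mem_image.1 hy
    exact hs x hx
  · rw [Finset.card_image_of_injective _ s.injective]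

omit [Fintype ι] in
/-- only the restriction of `s` to `S` matters -/
theorem Fs_congr (u : WW ι K) (Z0 F S : Finset ι) (m : ℕ) {s t : Equiv.Perm ι}
    (h : ∀ x ∈ S, s x = t x) : Fs u Z0 F S m s = Fs u Z0 F S m t := by
  unfold Fs
  apply Finset.sum_congr rfl
  intro A hA
  rw [Finset.mem_powersetCard] at hA
  have : A.image s = A.image t := Finset.image_congr (fun x hx => h x (hA.1 hx))
  rw [this]

omit [Fintype ι] in
theorem Fs_eq_Phi (u : WW ι K) {Z0 F S : Finset ι} (m : ℕ) {s : Equiv.Perm ι}
    (hs : ∀ x ∈ S, s x ∈ S) (hZS : Disjoint Z0 S) (hZF : Disjoint Z0 F) (hFS : Disjoint F S) :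
    Fs u Z0 F S m s = Phi (Z0 ∪ S) m (dF F u) (fun x : {x // x ∈ S} => x.1)
      (fun x : {x // x ∈ S} => s x.1) := by
  have hSs := image_perm_of_maps hs
  unfold Fs Phi
  symm
  apply Finset.sum_bij (fun (A : Finset {x // x ∈ S}) _ => A.image (fun x => x.1))
  · intro A hA
    simp only [Finset.mem_filter, Finset.mem_univ, true_and] at hA
    rw [Finset.mem_powersetCard]
    constructor
    · intro y hy
      obtain ⟨x, _, rfl⟩ := Finset.mem_image.1 hy
      exact x.2
    · rw [Finset.card_image_of_injective _ Subtype.val_injective, hA]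
  · intro A _ B _ h
    exact Finset.image_injective Subtype.val_injective h
  · intro B hB
    rw [Finset.mem_powersetCard] at hB
    have h1 : (univ.filter (fun x : {x // x ∈ S} => x.1 ∈ B)).image (fun x => x.1) = B := by
      ext y
      simp only [Finset.mem_image, Finset.mem_filter, Finset.mem_univ, true_and]
      constructor
      · rintro ⟨x, hx, rfl⟩
        exact hx
      · intro hy
        exact ⟨⟨y, hB.1 hy⟩, hy, rfl⟩
    refine ⟨univ.filter (fun x : {x // x ∈ S} => x.1 ∈ B), ?_, h1⟩
    simp only [Finset.mem_filter, Finset.mem_univ, true_and]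
    rw [← hB.2, ← h1, Finset.card_image_of_injective _ Subtype.val_injective, h1]
  · intro A hA
    have hAc : Aᶜ.image (fun x : {x // x ∈ S} => x.1) = S \ A.image (fun x => x.1) := by
      ext y
      simp only [Finset.mem_image, Finset.mem_compl, Finset.mem_sdiff]
      constructor
      · rintro ⟨x, hx, rfl⟩
        refine ⟨x.2, ?_⟩
        rintro ⟨z, hz, hzx⟩
        rw [Subtype.ext hzx] at hz
        exact hx hz
      · rintro ⟨h1, h2⟩
        exact ⟨⟨y, h1⟩, fun h => h2 ⟨_, h, rfl⟩, rfl⟩
    have hAs : A.image (fun x : {x // x ∈ S} => s x.1) = (A.image (fun x => x.1)).image s := by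
      rw [Finset.image_image]
      rfl
    have hAcs : Aᶜ.image (fun x : {x // x ∈ S} => s x.1)
        = S \ (A.image (fun x => x.1)).image s := by
      have h1 : Aᶜ.image (fun x : {x // x ∈ S} => s x.1)
          = (Aᶜ.image (fun x => x.1)).image s := by
        rw [Finset.image_image]
        rfl
      rw [h1, hAc, Finset.image_sdiff _ _ s.injective, hSs]
    have hAS : A.image (fun x : {x // x ∈ S} => x.1) ⊆ S := by
      intro y hy
      obtain ⟨x, _, rfl⟩ := Finset.mem_image.1 hy
      exact x.2
    have hAsS : (A.image (fun x : {x // x ∈ S} => x.1)).image s ⊆ S := by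
      intro y hy
      obtain ⟨x, hx, rfl⟩ := Finset.mem_image.1 hy
      exact hs x (hAS hx)
    set A' := A.image (fun x : {x // x ∈ S} => x.1) with hA'
    have w0 : (Z0 ∪ S) \ A' = Z0 ∪ (S \ A') := by
      ext y
      simp only [Finset.mem_sdiff, Finset.mem_union]
      constructor
      · rintro ⟨h1 | h1, h2⟩
        · exact Or.inl h1
        · exact Or.inr ⟨h1, h2⟩
      · rintro (h1 | ⟨h1, h2⟩)
        · exact ⟨Or.inl h1, fun h => Finset.disjoint_left.1 hZS h1 (hAS h)⟩
        · exact ⟨Or.inr h1, h2⟩
    have w1 : (Z0 ∪ S) \ (S \ A') = Z0 ∪ A' := by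
      ext y
      simp only [Finset.mem_sdiff, Finset.mem_union]
      constructor
      · rintro ⟨h1 | h1, h2⟩
        · exact Or.inl h1
        · right
          by_contra h3
          exact h2 ⟨h1, h3⟩
      · rintro (h1 | h1)
        · exact ⟨Or.inl h1, fun h => Finset.disjoint_left.1 hZS h1 h.1⟩
        · exact ⟨Or.inr (hAS h1), fun h => h.2 h1⟩
    have hw : wrd (Z0 ∪ S) (fun x : {x // x ∈ S} => x.1) (fun x : {x // x ∈ S} => s x.1) A
        = ![Z0 ∪ (S \ A'), Z0 ∪ A', S \ A'.image s, A'.image s] := by
      unfold wrd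
      rw [hAc, hAs, hAcs, w0, w1]
    rw [hw]
    unfold dF
    rw [if_pos]
    · rfl
    · intro l
      fin_cases l
      · change Disjoint F (Z0 ∪ (S \ A'))
        rw [Finset.disjoint_union_right]
        exact ⟨hZF.symm, hFS.mono_right Finset.sdiff_subset⟩
      · change Disjoint F (Z0 ∪ A')
        rw [Finset.disjoint_union_right]
        exact ⟨hZF.symm, hFS.mono_right hAS⟩
      · exact hFS.mono_right Finset.sdiff_subset
      · exact hFS.mono_right hAsS

omit [Fintype ι] in
/-- **the three term relation** (3T) -/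
theorem three [CharP K 2] {u : WW ι K} (hu : Prm u) {Z0 F S : Finset ι} {m : ℕ}
    (hS : S.card = 2 * m + 1) (hZS : Disjoint Z0 S) (hZF : Disjoint Z0 F) (hFS : Disjoint F S)
    {s t : Equiv.Perm ι} (hs : ∀ x ∈ S, s x ∈ S) (ht : ∀ x ∈ S, t x ∈ S) {a b c : ι}
    (ha : a ∈ S) (hb : b ∈ S) (hc : c ∈ S) (hab : a ≠ b) (hac : a ≠ c) (hbc : b ≠ c) :
    Fs u Z0 F S m (s * Equiv.swap a b * t) + Fs u Z0 F S m (s * Equiv.swap a c * t)
      + Fs u Z0 F S m (s * Equiv.swap b c * t) = 0 := by
  have hsw : ∀ x y : ι, x ∈ S → y ∈ S → ∀ z ∈ S, Equiv.swap x y z ∈ S := by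
    intro x y hx hy z hz
    by_cases h1 : z = x
    · rw [h1, Equiv.swap_apply_left]; exact hy
    · by_cases h2 : z = y
      · rw [h2, Equiv.swap_apply_right]; exact hx
      · rw [Equiv.swap_apply_of_ne_of_ne h1 h2]; exact hz
  have hm : ∀ x y : ι, x ∈ S → y ∈ S → ∀ z ∈ S, (s * Equiv.swap x y * t) z ∈ S := by
    intro x y hx hy z hz
    rw [Equiv.Perm.mul_apply, Equiv.Perm.mul_apply]
    exact hs _ (hsw x y hx hy _ (ht z hz))
  rw [Fs_eq_Phi u m (hm a b ha hb) hZS hZF hFS, Fs_eq_Phi u m (hm a c ha hc) hZS hZF hFS,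
    Fs_eq_Phi u m (hm b c hb hc) hZS hZF hFS]
  -- the restriction of `t` to `S`
  have htS : ∀ x, x ∈ S → t.symm x ∈ S := by
    intro x hx
    have h1 := image_perm_of_maps ht
    rw [← h1] at hx
    obtain ⟨y, hy, rfl⟩ := Finset.mem_image.1 hx
    rw [Equiv.symm_apply_apply]
    exact hy
  let π : Equiv.Perm {x // x ∈ S} :=
    { toFun := fun x => ⟨t.symm x.1, htS x.1 x.2⟩
      invFun := fun x => ⟨t x.1, ht x.1 x.2⟩
      left_inv := fun x => by simp
      right_inv := fun x => by simp }
  have hred : ∀ x y : ι, Phi (Z0 ∪ S) m (dF F u) (fun x : {x // x ∈ S} => x.1)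
        (fun z : {x // x ∈ S} => (s * Equiv.swap x y * t) z.1)
      = Phi (Z0 ∪ S) m (dF F u) (fun z : {x // x ∈ S} => t.symm z.1)
        (fun z : {x // x ∈ S} => s (Equiv.swap x y z.1)) := by
    intro x y
    rw [← Phi_perm (Z0 ∪ S) m (dF F u) _ _ π]
    congr 1
    funext z
    simp [π, Equiv.Perm.mul_apply]
  rw [hred, hred, hred]
  let A' : {x // x ∈ S} := ⟨a, ha⟩
  let B' : {x // x ∈ S} := ⟨b, hb⟩
  let C' : {x // x ∈ S} := ⟨c, hc⟩
  have hAB : A' ≠ B' := fun h => hab (congrArg Subtype.val h)
  have hAC : A' ≠ C' := fun h => hac (congrArg Subtype.val h)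
  have hBC : B' ≠ C' := fun h => hbc (congrArg Subtype.val h)
  let d : Equiv.Perm {x // x ∈ S} := Equiv.swap A' B' * Equiv.swap B' C'
  have dA : d A' = B' := by
    change Equiv.swap A' B' (Equiv.swap B' C' A') = B'
    rw [Equiv.swap_apply_of_ne_of_ne hAB hAC, Equiv.swap_apply_left]
  have dB : d B' = C' := by
    change Equiv.swap A' B' (Equiv.swap B' C' B') = C'
    rw [Equiv.swap_apply_left, Equiv.swap_apply_of_ne_of_ne hAC.symm hBC.symm]
  have dC : d C' = A' := by
    change Equiv.swap A' B' (Equiv.swap B' C' C') = A'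
    rw [Equiv.swap_apply_right, Equiv.swap_apply_right]
  have dO : ∀ x, x ≠ A' → x ≠ B' → x ≠ C' → d x = x := by
    intro x h1 h2 h3
    change Equiv.swap A' B' (Equiv.swap B' C' x) = x
    rw [Equiv.swap_apply_of_ne_of_ne h2 h3, Equiv.swap_apply_of_ne_of_ne h1 h2]
  have hφ : Function.Injective (![A', B', C'] : Fin 3 → {x // x ∈ S}) := by
    intro i j hij
    fin_cases i <;> fin_cases j <;> simp_all
  have key := Phi_spin (K := K) (V := Z0 ∪ S) (b := m) (u := dF F u) (dF_prm hu)
    (c := fun z : {x // x ∈ S} => t.symm z.1)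
    (r := fun z : {x // x ∈ S} => s (Equiv.swap a b z.1))
    (by rw [Fintype.card_coe]; exact hS)
    (fun x y h => Subtype.ext (t.symm.injective h))
    (fun x y h => Subtype.ext ((Equiv.swap a b).injective (s.injective h)))
    (fun x => Finset.mem_union_right _ (htS x.1 x.2))
    ![A', B', C'] hφ d
    (by
      intro i
      fin_cases i
      · exact dA
      · exact dB
      · exact dC)
    (by
      intro x hx
      apply dO
      · intro h
        exact hx (Finset.mem_image.2 ⟨0, Finset.mem_univ _, h.symm⟩)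
      · intro h
        exact hx (Finset.mem_image.2 ⟨1, Finset.mem_univ _, h.symm⟩)
      · intro h
        exact hx (Finset.mem_image.2 ⟨2, Finset.mem_univ _, h.symm⟩))
  have e1 : ((fun z : {x // x ∈ S} => s (Equiv.swap a b z.1)) ∘ d)
      = fun z : {x // x ∈ S} => s (Equiv.swap b c z.1) := by
    funext z
    change s (Equiv.swap a b (d z).1) = s (Equiv.swap b c z.1)
    congr 1
    by_cases h1 : z = A'
    · rw [h1, dA]
      change Equiv.swap a b b = Equiv.swap b c a
      rw [Equiv.swap_apply_right, Equiv.swap_apply_of_ne_of_ne hab hac]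
    · by_cases h2 : z = B'
      · rw [h2, dB]
        change Equiv.swap a b c = Equiv.swap b c b
        rw [Equiv.swap_apply_left, Equiv.swap_apply_of_ne_of_ne hac.symm hbc.symm]
      · by_cases h3 : z = C'
        · rw [h3, dC]
          change Equiv.swap a b a = Equiv.swap b c c
          rw [Equiv.swap_apply_left, Equiv.swap_apply_right]
        · rw [dO z h1 h2 h3]
          have g1 : z.1 ≠ a := fun h => h1 (Subtype.ext h)
          have g2 : z.1 ≠ b := fun h => h2 (Subtype.ext h)
          have g3 : z.1 ≠ c := fun h => h3 (Subtype.ext h)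
          rw [Equiv.swap_apply_of_ne_of_ne g1 g2, Equiv.swap_apply_of_ne_of_ne g2 g3]
  have e2 : ((fun z : {x // x ∈ S} => s (Equiv.swap a b z.1)) ∘ (d * d))
      = fun z : {x // x ∈ S} => s (Equiv.swap a c z.1) := by
    funext z
    change s (Equiv.swap a b (d (d z)).1) = s (Equiv.swap a c z.1)
    congr 1
    by_cases h1 : z = A'
    · rw [h1, dA, dB]
      change Equiv.swap a b c = Equiv.swap a c a
      rw [Equiv.swap_apply_left, Equiv.swap_apply_of_ne_of_ne hac.symm hbc.symm]
    · by_cases h2 : z = B'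
      · rw [h2, dB, dC]
        change Equiv.swap a b a = Equiv.swap a c b
        rw [Equiv.swap_apply_left, Equiv.swap_apply_of_ne_of_ne hab.symm hbc]
      · by_cases h3 : z = C'
        · rw [h3, dC, dA]
          change Equiv.swap a b b = Equiv.swap a c c
          rw [Equiv.swap_apply_right, Equiv.swap_apply_right]
        · rw [dO z h1 h2 h3, dO z h1 h2 h3]
          have g1 : z.1 ≠ a := fun h => h1 (Subtype.ext h)
          have g2 : z.1 ≠ b := fun h => h2 (Subtype.ext h)
          have g3 : z.1 ≠ c := fun h => h3 (Subtype.ext h)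
          rw [Equiv.swap_apply_of_ne_of_ne g1 g2, Equiv.swap_apply_of_ne_of_ne g1 g3]
  rw [e1, e2] at key
  rw [← key]
  ring

end MP_d81877_alI
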